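import Pool.Agent.TH837.UI.Lo

/-!
# Blobs: elimination of cliques by interpolation
-/

namespace Pool.Agent.TH837.UI

open MvPolynomial Finset
open Pool.Agent.H618R2.Skew (MP)
open Pool.Agent.H618R2.Skew.T2 (PD)

/-! ### different truncations -/

theorem gser_sub (B m : ℕ) (N : ℤ) (K : ℕ) (hK : B ≤ K) :
    Lo (2 * B + 2) (gser K m N - gser B m N) := by
  obtain ⟨j, rfl⟩ : ∃ j, K = B + j := ⟨K - B, by omega⟩
  induction j with
  | zero => simpa using Lo.zero _
  | succ j ih =>
    rw [← add_assoc, gser_succ]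
    have h1 : gser (B + j) m N + C (gam (B + j + 1) N) * X (2 * m) ^ (2 * (B + j + 1)) -
        gser B m N = (gser (B + j) m N - gser B m N) +
          C (gam (B + j + 1) N) * X (2 * m) ^ (2 * (B + j + 1)) := by ring
    rw [h1]
    refine (ih (by omega)).add (Lo.mul _ ?_)
    rw [X_pow_eq_monomial]
    refine (Lo.monomial _ _).mono ?_
    rw [Finsupp.degree_single]
    omega

theorem E_sub (B : ℕ) (N : ℤ) (K : ℕ) (hK : B ≤ K) (L : ℕ) :
    Lo (2 * B + 2) (E K N L - E B N L) := by
  induction L with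
  | zero => simpa [E] using Lo.zero _
  | succ L ih =>
    have h1 : E K N (L + 1) - E B N (L + 1) = (E K N L - E B N L) * gser K L N +
        E B N L * (gser K L N - gser B L N) := by
      rw [E, E]; ring
    rw [h1]
    exact (ih.mul' _).add ((gser_sub B L N K hK).mul _)

theorem gser_big (n K m : ℕ) (hK : n ≤ K) :
    gser K m (2 * n : ℕ) = gser n m (2 * n : ℕ) := by
  obtain ⟨j, rfl⟩ : ∃ j, K = n + j := ⟨K - n, by omega⟩
  induction j with
  | zero => rfl
  | succ j ih =>
    rw [← add_assoc, gser_succ, ih (by omega), gam_big n (n + j + 1) (by omega)]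
    simp

theorem E_big (n K : ℕ) (hK : n ≤ K) (L : ℕ) : E K (2 * n : ℕ) L = E n (2 * n : ℕ) L := by
  induction L with
  | zero => rfl
  | succ L ih => rw [E, E, ih, gser_big n K L hK]

/-! ### the powers of the operator of an even letter -/

/-- the univariate polynomial of one blob -/
noncomputable def hP (n : ℕ) : Polynomial ℚ :=
  ∑ k ∈ range (n + 1), Polynomial.C (gam k (2 * n : ℕ)) * Polynomial.X ^ (2 * k)

theorem coeff_hP (n j : ℕ) : (hP n).coeff j = if j % 2 = 0 then gam (j / 2) (2 * n : ℕ) else 0 := by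
  rw [hP, Polynomial.finsetSum_coeff]
  simp only [Polynomial.coeff_C_mul_X_pow]
  by_cases hj : j % 2 = 0
  · rw [if_pos hj]
    by_cases h2 : j / 2 < n + 1
    · rw [Finset.sum_eq_single (j / 2)]
      · rw [if_pos (by omega)]
      · intro k _ hk
        rw [if_neg (by omega)]
      · intro h
        exact absurd (mem_range.2 h2) h
    · rw [gam_big n (j / 2) (by omega)]
      refine Finset.sum_eq_zero fun k hk => ?_
      rw [mem_range] at hk
      rw [if_neg (by omega)]
  · rw [if_neg hj]
    refine Finset.sum_eq_zero fun k _ => ?_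
    rw [if_neg (by omega)]

/-- one step of the Hermite recursion -/
noncomputable def tP (p : Polynomial ℚ) : Polynomial ℚ :=
  Polynomial.X * p + Polynomial.derivative p

theorem coeff_tP (p : Polynomial ℚ) (j : ℕ) :
    (tP p).coeff j = (if j = 0 then 0 else p.coeff (j - 1)) + (j + 1) * p.coeff (j + 1) := by
  rw [tP, Polynomial.coeff_add, Polynomial.coeff_derivative]
  cases j with
  | zero => simp
  | succ j => rw [Polynomial.coeff_X_mul, if_neg (Nat.succ_ne_zero j), Nat.add_sub_cancel]; ring

theorem prod_shift (n k : ℕ) :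
    ∏ i ∈ range (k + 1), (((2 * (n + 1) : ℕ) : ℤ) - 2 * (i : ℚ) : ℚ) =
      (2 * n + 2) * ∏ i ∈ range k, (((2 * n : ℕ) : ℤ) - 2 * (i : ℚ) : ℚ) := by
  rw [Finset.prod_range_succ', mul_comm]
  congr 1
  · push_cast; ring
  · refine Finset.prod_congr rfl fun i _ => ?_
    push_cast
    ring

theorem gam_shift (n k : ℕ) : gam (k + 1) (2 * (n + 1) : ℕ) * ((2 * k + 2) * (2 * k + 1)) =
    (2 * n + 2) * gam k (2 * n : ℕ) := by
  have h1 : ((2 * k).factorial : ℚ) ≠ 0 := by exact_mod_cast (2 * k).factorial_ne_zero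
  have h2 : (2 * (k : ℚ) + 2) ≠ 0 := by positivity
  have h3 : (2 * (k : ℚ) + 1) ≠ 0 := by positivity
  rw [gam, gam, prod_shift, fac2]
  field_simp

theorem tP_hP (n : ℕ) : tP (tP (hP n)) = Polynomial.C (2 * (n : ℚ) + 1) * hP (n + 1) := by
  ext j
  rw [Polynomial.coeff_C_mul, coeff_tP, coeff_tP]
  rcases Nat.even_or_odd' j with ⟨c, rfl | rfl⟩
  · cases c with
    | zero =>
      simp only [mul_zero, if_true, zero_add, coeff_tP]
      rw [coeff_hP, coeff_hP, coeff_hP]
      have h := gam_succ 0 (2 * n : ℕ)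
      rw [gam_zero] at h
      push_cast at h
      norm_num at h ⊢
      rw [gam_zero, gam_zero]
      linear_combination h
    | succ c =>
      have e0 : 2 * (c + 1) ≠ 0 := by omega
      have e1 : 2 * (c + 1) - 1 = 2 * c + 1 := by omega
      rw [if_neg e0, e1, coeff_tP, if_neg (by omega), if_neg (by omega)]
      have e2 : 2 * c + 1 - 1 = 2 * c := by omega
      have e3 : 2 * c + 1 + 1 = 2 * (c + 1) := by ring
      have e4 : 2 * (c + 1) + 1 - 1 = 2 * (c + 1) := by omega
      have e5 : 2 * (c + 1) + 1 + 1 = 2 * (c + 2) := by ring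
      rw [e2, e3, e4, e5, coeff_hP, coeff_hP, coeff_hP, coeff_hP]
      have f1 : 2 * c % 2 = 0 := by omega
      have f2 : 2 * (c + 1) % 2 = 0 := by omega
      have f3 : 2 * (c + 2) % 2 = 0 := by omega
      have f4 : 2 * c / 2 = c := by omega
      have f5 : 2 * (c + 1) / 2 = c + 1 := by omega
      have f6 : 2 * (c + 2) / 2 = c + 2 := by omega
      rw [if_pos f1, if_pos f2, if_pos f3, if_pos f2, f4, f5, f6]
      have h1 := gam_succ c (2 * n : ℕ)
      have h2 := gam_succ (c + 1) (2 * n : ℕ)
      have h3 := gam_shift n c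
      have g2 : (2 * (c : ℚ) + 2) ≠ 0 := by positivity
      have g3 : (2 * (c : ℚ) + 1) ≠ 0 := by positivity
      rw [show c + 1 + 1 = c + 2 from rfl] at h2
      generalize gam c (2 * n : ℕ) = x at *
      generalize gam (c + 1) (2 * n : ℕ) = y at *
      generalize gam (c + 2) (2 * n : ℕ) = z at *
      generalize gam (c + 1) (2 * (n + 1) : ℕ) = t at *
      push_cast at h1 h2 h3 ⊢
      have h4 : y = x * (2 * n - 2 * c) / ((2 * c + 2) * (2 * c + 1)) := by
        rw [eq_div_iff (mul_ne_zero g2 g3)]; exact h1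
      have h5 : t = (2 * n + 2) * x / ((2 * c + 2) * (2 * c + 1)) := by
        rw [eq_div_iff (mul_ne_zero g2 g3)]; exact h3
      have h6 : (2 * ((c : ℚ) + 1) + 1) * (2 * ((c : ℚ) + 1) + 1 + 1) * z =
          y * (2 * n - 2 * (c + 1)) := by rw [← h2]; ring
      have h7 : x + (2 * (c : ℚ) + 1 + 1) * y + (2 * ((c : ℚ) + 1) + 1) *
          (y + (2 * ((c : ℚ) + 1) + 1 + 1) * z) = x + (2 * (c : ℚ) + 1 + 1) * y +
          (2 * ((c : ℚ) + 1) + 1) * y +
          (2 * ((c : ℚ) + 1) + 1) * (2 * ((c : ℚ) + 1) + 1 + 1) * z := by ring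
      rw [h7, h6, h4, h5]
      field_simp
      ring
  · have e1 : 2 * c + 1 - 1 = 2 * c := by omega
    have e2 : 2 * c + 1 + 1 + 1 = 2 * (c + 1) + 1 := by ring
    have e3 : 2 * c + 1 + 1 - 1 = 2 * c + 1 := by omega
    have hodd : ∀ d N, (hP N).coeff (2 * d + 1) = 0 := by
      intro d N
      rw [coeff_hP, if_neg (by omega)]
    rw [if_neg (show ¬ 2 * c + 1 = 0 by omega), e1, coeff_tP,
      if_neg (show ¬ 2 * c + 1 + 1 = 0 by omega), e2, e3, hodd, hodd, hodd]
    by_cases hc : 2 * c = 0
    · rw [if_pos hc]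
      simp
    · rw [if_neg hc]
      obtain ⟨d, rfl⟩ : ∃ d, c = d + 1 := ⟨c - 1, by omega⟩
      have e4 : 2 * (d + 1) - 1 = 2 * d + 1 := by omega
      rw [e4, hodd]
      simp

/-- the product of the odd numbers below `2 n` -/
def odf (n : ℕ) : ℕ := ∏ j ∈ range n, (2 * j + 1)

theorem hP_pow (n : ℕ) : tP^[2 * n] 1 = Polynomial.C ((odf n : ℕ) : ℚ) * hP n := by
  have hC : ∀ (c : ℚ) (p : Polynomial ℚ), tP (Polynomial.C c * p) = Polynomial.C c * tP p := by
    intro c p
    rw [tP, tP, Polynomial.derivative_C_mul]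
    ring
  induction n with
  | zero => simp [hP, odf, gam_zero]
  | succ n ih =>
    have e : 2 * (n + 1) = 2 + 2 * n := by ring
    rw [e, Function.iterate_add_apply, ih]
    show tP (tP _) = _
    have h2 : odf (n + 1) = odf n * (2 * n + 1) := by rw [odf, Finset.prod_range_succ]; rfl
    rw [hC, hC, tP_hP, h2, ← mul_assoc, ← Polynomial.C_mul]
    congr 2
    push_cast
    ring

theorem aeval_hP (n m : ℕ) : Polynomial.aeval (X (2 * m) : MP) (hP n) = gser n m (2 * n : ℕ) := by
  rw [hP, gser, map_sum]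
  refine Finset.sum_congr rfl fun k _ => ?_
  simp

theorem pderiv_aeval (b m : ℕ) (p : Polynomial ℚ) :
    pderiv b (Polynomial.aeval (X m : MP) p) =
      if b = m then Polynomial.aeval (X m : MP) (Polynomial.derivative p) else 0 := by
  induction p using Polynomial.induction_on' with
  | add p q hp hq =>
    rw [map_add, map_add, hp, hq, Polynomial.derivative_add, map_add]
    split_ifs <;> simp
  | monomial k a =>
    rw [Polynomial.aeval_monomial, Polynomial.derivative_monomial, Polynomial.aeval_monomial,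
      algebraMap_eq, pderiv_C_mul, pderiv_pow, pderiv_X, Pi.single_apply]
    by_cases h : b = m
    · subst h
      rw [if_pos rfl, if_pos rfl, C_mul, map_natCast]
      ring
    · rw [if_neg h, if_neg (Ne.symm h)]
      simp

theorem opA_aeval (m : ℕ) (p : Polynomial ℚ) (f : MP) (h : ∀ b ≤ 2 * m, pderiv b f = 0) :
    opA (2 * m) (Polynomial.aeval (X (2 * m) : MP) p * f) =
      Polynomial.aeval (X (2 * m) : MP) (tP p) * f := by
  have h1 : ∑ b ∈ nbs (2 * m), pderiv b (Polynomial.aeval (X (2 * m) : MP) p * f) =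
      Polynomial.aeval (X (2 * m) : MP) (Polynomial.derivative p) * f := by
    have h2 : ∀ b ∈ nbs (2 * m), pderiv b (Polynomial.aeval (X (2 * m) : MP) p * f) =
        if b = 2 * m then Polynomial.aeval (X (2 * m) : MP) (Polynomial.derivative p) * f
          else 0 := by
      intro b hb
      have hb' : b ≤ 2 * m := by
        rw [nbs, Finset.mem_insert, Finset.mem_singleton] at hb
        omega
      rw [Derivation.leibniz, h b hb', pderiv_aeval, smul_eq_mul, smul_eq_mul]
      split_ifs
      · ring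
      · ring
    rw [Finset.sum_congr rfl h2, Finset.sum_ite_eq', if_pos (by simp [nbs])]
  rw [opA, h1, tP, map_add, map_mul, Polynomial.aeval_X]
  ring

theorem rep_eq (m : ℕ) (N : ℕ) (f : MP) (h : ∀ b ≤ 2 * m, pderiv b f = 0) :
    wordA (List.replicate N (2 * m)) f = Polynomial.aeval (X (2 * m) : MP) (tP^[N] 1) * f := by
  induction N with
  | zero => simp [wordA]
  | succ N ih =>
    rw [List.replicate_succ, wordA_cons, ih, opA_aeval m _ f h, Function.iterate_succ_apply']

/-- the blobs -/
def blobs (L N : ℕ) : List ℕ := (List.range L).flatMap fun m => List.replicate N (2 * m)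

theorem blobs_succ (L N : ℕ) : blobs (L + 1) N = blobs L N ++ List.replicate N (2 * L) := by
  rw [blobs, List.range_succ, List.flatMap_append]
  simp [blobs]

theorem wordA_C (w : List ℕ) (c : ℚ) (f : MP) : wordA w (C c * f) = C c * wordA w f := by
  induction w with
  | nil => rfl
  | cons a w ih =>
    rw [wordA_cons, wordA_cons, ih, opA, opA]
    simp only [pderiv_C_mul, ← Finset.mul_sum]
    ring

theorem blobs_eq (n L : ℕ) (f : MP) (h : ∀ b < 2 * L, pderiv b f = 0) :
    wordA (blobs L (2 * n)) f = C ((odf n : ℚ) ^ L) * (E n (2 * n : ℕ) L * f) := by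
  induction L generalizing f with
  | zero => simp [blobs, wordA, E]
  | succ L ih =>
    have h1 : ∀ b < 2 * L, pderiv b (gser n L (2 * n : ℕ) * f) = 0 := by
      intro b hb
      rw [Derivation.leibniz, h b (by omega), pderiv_gser_ne _ _ _ _ (by omega)]
      simp
    rw [blobs_succ, wordA_append, rep_eq L _ f (fun b hb => h b (by omega)), hP_pow, map_mul,
      aeval_hP, Polynomial.aeval_C, algebraMap_eq, mul_assoc, wordA_C, ih _ h1, E, pow_succ,
      C_mul]
    ring

/-- the value of a word on the series of the blobs -/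
noncomputable def Vn (B L : ℕ) (w : List ℕ) (N : ℤ) : ℚ := constantCoeff (wordA w (E B N L))

theorem cc_blobs (B n L : ℕ) (w : List ℕ) (hB : w.length ≤ 2 * B + 1) :
    constantCoeff (wordA (w ++ blobs L (2 * n)) 1) = (odf n : ℚ) ^ L * Vn B L w (2 * n : ℕ) := by
  rw [wordA_append, blobs_eq n L 1 (fun b _ => by simp), mul_one, wordA_C, map_mul,
    constantCoeff_C, Vn]
  congr 1
  have h1 : constantCoeff (wordA w (E (n + B) (2 * n : ℕ) L)) =
      constantCoeff (wordA w (E B (2 * n : ℕ) L)) :=
    cc_wordA_congr w ((E_sub B _ (n + B) (by omega) L).mono (by omega))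
  rw [← h1, E_big n (n + B) (by omega)]

/-! ### polynomial dependence -/

/-- the operator as a linear map -/
noncomputable def opAL (a : ℕ) : MP →ₗ[ℚ] MP where
  toFun := opA a
  map_add' := opA_add a
  map_smul' c f := by
    rw [← C_mul', RingHom.id_apply, ← C_mul']
    exact wordA_C [a] c f

theorem PD_wordA (B : ℕ) (F : ℤ → MP) (w : List ℕ) (h : PD B F) : PD B (fun M => wordA w (F M)) := by
  induction w with
  | nil => exact h
  | cons a w ih => exact ih.linMap (opAL a)

theorem PD_gam (k : ℕ) : PD k (fun N => C (gam k N)) := by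
  have h : ∀ k, PD k (fun M => C (∏ i ∈ range k, ((M : ℚ) - 2 * i))) := by
    intro k
    induction k with
    | zero => simpa using PD.const 1
    | succ k ih =>
      have h2 := PD.lin 1 0 (2 * k)
      simp only [one_mul, add_zero] at h2
      simp_rw [Finset.prod_range_succ, C_mul]
      exact ih.mul h2
  have h2 := (h k).mul (PD.const (C ((((2 * k).factorial : ℕ) : ℚ)⁻¹)))
  simp only [← C_mul] at h2
  simpa [gam, div_eq_mul_inv] using h2

theorem PD_gser (B m : ℕ) : PD B (fun N => gser B m N) := by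
  unfold gser
  refine PD.sum _ _ _ fun k hk => ?_
  rw [mem_range] at hk
  have := (PD_gam k).mul (PD.const (X (2 * m) ^ (2 * k) : MP))
  exact this.mono (by omega)

theorem PD_E (B L : ℕ) : PD (L * B) (fun N => E B N L) := by
  induction L with
  | zero => simpa [E] using PD.const 1
  | succ L ih =>
    have := ih.mul (PD_gser B L)
    rw [add_mul, one_mul]
    exact this

theorem Vn_poly (B L : ℕ) (w : List ℕ) :
    ∃ P : Polynomial ℚ, P.natDegree ≤ L * B ∧ ∀ N : ℤ, Vn B L w N = P.eval (N : ℚ) := by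
  obtain ⟨P, hP1, hP2⟩ := PD_wordA _ _ w (PD_E B L)
  refine ⟨P.map constantCoeff, (Polynomial.natDegree_map_le).trans hP1, fun N => ?_⟩
  have h2 := hP2 N
  simp only at h2
  rw [Vn, h2, ← Polynomial.eval₂_hom, Polynomial.eval_map]
  simp

/-! ### interpolation at `-1` from the even numbers -/

theorem lagr (P : Polynomial ℚ) (R : ℕ) (h : P.natDegree ≤ R) :
    P.eval (-1) = ∑ i ∈ range (R + 1), P.eval (2 * (i : ℚ)) *
      ∏ j ∈ (range (R + 1)).erase i, ((-1 - 2 * (j : ℚ)) / (2 * (i : ℚ) - 2 * j)) := by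
  have hinj : Set.InjOn (fun i : ℕ => 2 * (i : ℚ)) (range (R + 1) : Finset ℕ) := by
    intro a _ b _ hab
    simp only at hab
    have : (a : ℚ) = b := by linarith
    exact_mod_cast this
  have h1 := Lagrange.eq_interpolate (f := P) hinj (by
    rw [card_range]
    refine lt_of_le_of_lt Polynomial.degree_le_natDegree ?_
    exact_mod_cast Nat.lt_succ_of_le h)
  conv_lhs => rw [h1]
  rw [Lagrange.interpolate_apply, Polynomial.eval_finsetSum]
  refine Finset.sum_congr rfl fun i _ => ?_
  rw [Polynomial.eval_mul, Polynomial.eval_C]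
  congr 1
  rw [Lagrange.basis, Polynomial.eval_prod]
  refine Finset.prod_congr rfl fun j _ => ?_
  rw [Lagrange.basisDivisor]
  simp only [Polynomial.eval_mul, Polynomial.eval_C, Polynomial.eval_sub, Polynomial.eval_X]
  rw [div_eq_mul_inv, mul_comm]

theorem prod_diff (R i : ℕ) (hi : i ≤ R) :
    ∏ j ∈ (range (R + 1)).erase i, ((i : ℚ) - j) = (-1) ^ (R - i) * (i.factorial * (R - i).factorial) := by
  have h1 : (range (R + 1)).erase i = range i ∪ Ico (i + 1) (R + 1) := by
    ext x
    simp only [Finset.mem_erase, Finset.mem_range, Finset.mem_union, Finset.mem_Ico]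
    omega
  rw [h1, Finset.prod_union (by
    rw [Finset.disjoint_left]
    intro x hx hx2
    rw [Finset.mem_range] at hx
    rw [Finset.mem_Ico] at hx2
    omega)]
  have h2 : ∀ i : ℕ, ∏ j ∈ range i, ((i : ℚ) - j) = i.factorial := by
    intro i
    induction i with
    | zero => simp
    | succ i ih =>
      rw [Finset.prod_range_succ', Nat.factorial_succ]
      push_cast
      rw [← ih, sub_zero, mul_comm]
      congr 1
      refine Finset.prod_congr rfl fun j _ => ?_
      ring
  have h3 : ∏ j ∈ Ico (i + 1) (R + 1), ((i : ℚ) - j) = (-1) ^ (R - i) * (R - i).factorial := by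
    rw [Finset.prod_Ico_eq_prod_range]
    have : R + 1 - (i + 1) = R - i := by omega
    rw [this]
    generalize R - i = n
    induction n with
    | zero => simp
    | succ n ih =>
      rw [Finset.prod_range_succ, ih, Nat.factorial_succ, pow_succ]
      push_cast
      ring
  rw [h2, h3]
  ring

theorem lagr' (P : Polynomial ℚ) (R : ℕ) (h : P.natDegree ≤ R) :
    (2 ^ R * R.factorial : ℚ) * P.eval (-1) = ∑ i ∈ range (R + 1), (-1) ^ i * ((R.choose i : ℚ) *
      (∏ j ∈ (range (R + 1)).erase i, (2 * (j : ℚ) + 1)) * P.eval (2 * (i : ℚ))) := by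
  rw [lagr P R h, Finset.mul_sum]
  refine Finset.sum_congr rfl fun i hi => ?_
  have hi' : i ≤ R := Nat.lt_succ_iff.1 (Finset.mem_range.1 hi)
  rw [Finset.prod_div_distrib]
  have h1 : ∏ j ∈ (range (R + 1)).erase i, (-1 - 2 * (j : ℚ)) =
      (-1) ^ R * ∏ j ∈ (range (R + 1)).erase i, (2 * (j : ℚ) + 1) := by
    have : ∀ j ∈ (range (R + 1)).erase i, (-1 - 2 * (j : ℚ)) = (-1) * (2 * (j : ℚ) + 1) := by
      intro j _; ring
    rw [Finset.prod_congr rfl this, Finset.prod_mul_distrib, Finset.prod_const,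
      Finset.card_erase_of_mem hi, card_range, Nat.add_sub_cancel]
  have h2 : ∏ j ∈ (range (R + 1)).erase i, (2 * (i : ℚ) - 2 * j) =
      2 ^ R * ((-1) ^ (R - i) * (i.factorial * (R - i).factorial)) := by
    rw [← prod_diff R i hi']
    have : ∀ j ∈ (range (R + 1)).erase i, (2 * (i : ℚ) - 2 * j) = 2 * ((i : ℚ) - j) := by
      intro j _; ring
    rw [Finset.prod_congr rfl this, Finset.prod_mul_distrib, Finset.prod_const,
      Finset.card_erase_of_mem hi, card_range, Nat.add_sub_cancel]
  rw [h1, h2, Nat.choose_eq_factorial_div_factorial hi', Nat.cast_div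
    (Nat.factorial_mul_factorial_dvd_factorial hi')
    (by exact_mod_cast (Nat.mul_ne_zero i.factorial_ne_zero (R - i).factorial_ne_zero))]
  have a1 : (i.factorial : ℚ) ≠ 0 := by exact_mod_cast i.factorial_ne_zero
  have a2 : ((R - i).factorial : ℚ) ≠ 0 := by exact_mod_cast (R - i).factorial_ne_zero
  have a3 : ((-1 : ℚ)) ^ R = (-1) ^ i * (-1) ^ (R - i) := by
    rw [← pow_add]; congr 1; omega
  have a4 : ((-1 : ℚ)) ^ (R - i) ≠ 0 := by simp
  rw [a3]
  push_cast
  field_simp

end Pool.Agent.TH837.UI
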