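import Pool.Agent.TH837.UI.Zero

/-!
# The program of a matrix and its value at `0`
-/

namespace Pool.Agent.TH837.UI

open MvPolynomial Finset
open Pool.Agent.H618R2.Skew Pool.Agent.H549R2.Convex
open Pool.Agent.H618R2.Skew.T2 (PD Dle)

/-- the program of an edge `e`; line `T` is free before and after -/
def progE (T : ℕ) (e : ℕ × ℕ) : List (ℕ × ℕ) :=
  (List.range (T - (e.1 + 1))).map (fun s => (0, T - 1 - s)) ++ ((2, e.1) ::
    ((List.range (e.2 - e.1 - 1)).map (fun s => (3, e.1 + 1 + s)) ++ ((0, e.2) ::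
      (List.range (T - e.2)).map (fun s => (1, e.2 + s)))))

/-- the program of a matrix -/
def prog (A : List (List Bool)) : List (ℕ × ℕ) := (edgesE A).flatMap (progE (2 * A.length))

theorem gop_C (E a b : ℕ) (q : ℕ → ℚ) (c : ℚ) (f : MP) :
    gop E a b q (C c * f) = C c * gop E a b q f := by
  rw [gop, gop, Finset.mul_sum]
  refine Finset.sum_congr rfl fun k _ => ?_
  have : Tk a b k (C c * f) = C c * Tk a b k f := by
    have h := (TkL a b k).map_smul c f
    rw [← C_mul', ← C_mul'] at h
    exact h
  rw [this]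
  ring

theorem oI_C (E D : ℕ) (N : ℤ) (I : ℕ × ℕ) (c : ℚ) (f : MP) :
    oI E D N I (C c * f) = C c * oI E D N I f := by
  unfold oI
  split_ifs
  · rw [gop_C]
  · rw [gop_C]
  · ring
  · rw [gop_C, gop_C]

theorem runP_C (E D : ℕ) (N : ℤ) (Q : List (ℕ × ℕ)) (c : ℚ) (f : MP) :
    runP E D N Q (C c * f) = C c * runP E D N Q f := by
  induction Q generalizing f with
  | nil => rfl
  | cons I Q ih => rw [runP_cons, runP_cons, oI_C, ih]

theorem oI_0 (E D j : ℕ) (f : MP) : oI E D 0 (0, j) f = sub j (j + 1) f := by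
  rw [oI, if_pos rfl, gop_zero]

theorem oI_1 (E D j : ℕ) (f : MP) : oI E D 0 (1, j) f = sub (j + 1) j f := by
  rw [oI, if_neg (by simp), if_pos rfl, gop_zero]

/-- moving the free line to the left -/
theorem move_left (E D T : ℕ) (f : MP) (n : ℕ) (hn : n ≤ T) :
    runP E D 0 ((List.range n).map fun s => (0, T - 1 - s)) (rn T f) = rn (T - n) f := by
  induction n with
  | zero => simp [runP]
  | succ n ih =>
    rw [List.range_succ, List.map_append, runP_append, ih (by omega)]
    simp only [List.map_cons, List.map_nil, runP, List.foldl_cons, List.foldl_nil]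
    rw [oI_0]
    have e1 : T - n = T - 1 - n + 1 := by omega
    have e2 : T - (n + 1) = T - 1 - n := by omega
    rw [e1, sub_rn_left, e2]

/-- moving the free line to the right -/
theorem move_right (E D b : ℕ) (f : MP) (n : ℕ) :
    runP E D 0 ((List.range n).map fun s => (1, b + s)) (rn b f) = rn (b + n) f := by
  induction n with
  | zero => simp [runP]
  | succ n ih =>
    rw [List.range_succ, List.map_append, runP_append, ih]
    simp only [List.map_cons, List.map_nil, runP, List.foldl_cons, List.foldl_nil]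
    rw [oI_1, sub_rn_right]
    rfl

/-- the start of the messenger -/
theorem start_msg (E D a : ℕ) (S : MP) :
    oI E D 0 (2, a) (rn (a + 1) S) = C (-sg (2 * a + 1)) * em (a + 1) (T6s1 true a (S, 0)) := by
  have e1 : shf (a + 1) a = a := shf_lt (Nat.lt_succ_self a)
  rw [oI, if_neg (by simp), if_neg (by simp), if_pos rfl]
  simp only [T6s1, if_true, em, map_mul, map_neg, rn_X, e1]
  have e2 : hh (a + 1) a = X (a + 1) - X a := rfl
  rw [e2]
  ring

/-- the end of the messenger -/
theorem end_msg (E D b : ℕ) (s : MP × MP) :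
    oI E D 0 (0, b) (em b s) = rn b (s.1 + X b * s.2) := by
  rw [oI_0, em, map_add, map_mul, sub_rn_self, sub_rn_self, sub_X, if_pos rfl, map_add, map_mul,
    rn_X, shf_ge le_rfl]

/-- the state in front of crossing `k` of an edge -/
noncomputable def stk (D : ℕ) (e : ℕ × ℕ) (S : MP) (k : ℕ) : MP × MP :=
  T6s1 (decide (k = 0)) e.1 (((List.range k).map fun s =>
    (e.1 + 1 + s, decide (s = 0), decide (e.1 + 1 + s = e.2))).foldl (fun s b => stepB D b s) (S, 0))

theorem stk_succ (D : ℕ) (e : ℕ × ℕ) (S : MP) (k : ℕ) (hk : e.1 + 1 + k < e.2) :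
    stk D e S (k + 1) = stepB D (e.1 + 1 + k, false, false) (stk D e S k) := by
  have hne : ¬ (e.1 + 1 + k = e.2) := by omega
  rw [stk, List.range_succ, List.map_append, List.foldl_append]
  simp only [List.map_cons, List.map_nil, List.foldl_cons, List.foldl_nil]
  have h1 : decide (k + 1 = 0) = false := by simp
  rw [h1, T6s1, if_neg (by simp), stk]
  by_cases hk0 : k = 0
  · subst hk0
    simp [stepB, T6s1, hne]
  · simp [stepB, T6s1, hne, hk0]

theorem crosses (E D : ℕ) (hE : 1 ≤ E) (hD : 1 ≤ D) (e : ℕ × ℕ) (S : MP) (c : ℚ) (k : ℕ)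
    (hk : e.1 + 1 + k ≤ e.2) :
    runP E D 0 ((List.range k).map fun s => (3, e.1 + 1 + s)) (C c * em (e.1 + 1) (stk D e S 0)) =
      C (c * (D : ℚ)⁻¹ ^ k) * em (e.1 + 1 + k) (stk D e S k) := by
  induction k with
  | zero => simp [runP]
  | succ k ih =>
    rw [List.range_succ, List.map_append, runP_append, ih (by omega)]
    simp only [List.map_cons, List.map_nil, runP, List.foldl_cons, List.foldl_nil]
    rw [oI_C, cross_zero E D _ hE hD, stk_succ D e S k (by omega), ← mul_assoc, ← C_mul, pow_succ,
      ← mul_assoc]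
    rfl

theorem last_block (D : ℕ) (e : ℕ × ℕ) (he : e.1 < e.2) (S : MP) :
    (edgeBlocks e).foldl (fun s b => stepB D b s) (S, 0) =
      ((stk D e S (e.2 - e.1 - 1)).1 + X e.2 * (stk D e S (e.2 - e.1 - 1)).2, 0) := by
  obtain ⟨m, hm⟩ : ∃ m, e.2 - e.1 = m + 1 := ⟨e.2 - e.1 - 1, by omega⟩
  have hb : e.1 + 1 + m = e.2 := by omega
  rw [edgeBlocks, hm, Nat.add_sub_cancel, List.range_succ, List.map_append, List.foldl_append]
  simp only [List.map_cons, List.map_nil, List.foldl_cons, List.foldl_nil]
  rw [stk]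
  by_cases hm0 : m = 0
  · subst hm0
    have h9 : e.2 - 1 = e.1 := by omega
    simp [stepB, T6s1, hb, h9]
  · simp [stepB, T6s1, hb, hm0]

theorem edge_zero (E D T : ℕ) (hE : 1 ≤ E) (hD : 1 ≤ D) (e : ℕ × ℕ) (he : e.1 < e.2)
    (hT : e.2 ≤ T) (S : MP) :
    runP E D 0 (progE T e) (rn T S) = C (-sg (2 * e.1 + 1) * (D : ℚ)⁻¹ ^ (e.2 - e.1 - 1)) *
      rn T ((edgeBlocks e).foldl (fun s b => stepB D b s) (S, 0)).1 := by
  have e0 : T - (T - (e.1 + 1)) = e.1 + 1 := by omega
  have e1 : e.1 + 1 + (e.2 - e.1 - 1) = e.2 := by omega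
  have e2 : e.2 + (T - e.2) = T := by omega
  have e3 : stk D e S 0 = T6s1 true e.1 (S, 0) := by simp [stk]
  rw [progE, runP_append, move_left E D T S _ (by omega), e0, runP_cons, start_msg, ← e3,
    runP_append, crosses E D hE hD e S _ _ (by omega), e1, runP_cons, oI_C, end_msg, runP_C,
    move_right, e2, last_block D e he]

/-- number of crossings of an edge -/
theorem cross_len (e : ℕ × ℕ) (he : e.1 < e.2) :
    ((edgeBlocks e).filter fun b => !b.2.2).length = e.2 - e.1 - 1 := by
  obtain ⟨a, b⟩ := e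
  simp only at he ⊢
  obtain ⟨m, hb⟩ : ∃ m, b = a + 1 + m := ⟨b - a - 1, by omega⟩
  have hm : b - a = m + 1 := by omega
  rw [edgeBlocks]
  simp only [hm]
  rw [List.range_succ, List.map_append, List.filter_append, List.length_append]
  have h1 : (List.map (fun s => (a + 1 + s, decide (s = 0), decide (a + 1 + s = b)))
      (List.range m)).filter (fun b => !b.2.2) =
      List.map (fun s => (a + 1 + s, decide (s = 0), decide (a + 1 + s = b))) (List.range m) := by
    rw [List.filter_eq_self]
    intro x hx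
    rw [List.mem_map] at hx
    obtain ⟨s, hs, rfl⟩ := hx
    rw [List.mem_range] at hs
    simp only [Bool.not_eq_true', decide_eq_false_iff_not]
    omega
  rw [h1, List.length_map, List.length_range]
  simp [hb]

/-- the sign of a list of edges -/
noncomputable def sE (L : List (ℕ × ℕ)) : ℚ := (L.map fun e => -sg (2 * e.1 + 1)).prod

theorem edges_zero (E D T : ℕ) (hE : 1 ≤ E) (hD : 1 ≤ D) (L : List (ℕ × ℕ))
    (hL : ∀ e ∈ L, e.1 < e.2 ∧ e.2 ≤ T) (S : MP) :
    runP E D 0 (L.flatMap (progE T)) (rn T S) =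
      C (sE L * (D : ℚ)⁻¹ ^ ((L.flatMap edgeBlocks).filter fun b => !b.2.2).length) *
        rn T ((L.flatMap edgeBlocks).foldl (fun s b => stepB D b s) (S, 0)).1 := by
  induction L generalizing S with
  | nil => simp [runP, sE]
  | cons e L ih =>
    have he := hL e (List.mem_cons_self ..)
    have hs := last_block D e he.1 S
    rw [List.flatMap_cons, runP_append, edge_zero E D T hE hD e he.1 he.2, runP_C,
      ih (fun e' he' => hL e' (List.mem_cons_of_mem _ he')), List.flatMap_cons,
      List.filter_append, List.length_append, List.foldl_append, cross_len e he.1, ← mul_assoc,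
      ← C_mul]
    have h2 : ((edgeBlocks e).foldl (fun s b => stepB D b s) (S, 0)) =
        (((edgeBlocks e).foldl (fun s b => stepB D b s) (S, 0)).1, 0) := by rw [hs]
    rw [← h2]
    congr 2
    rw [sE, sE, List.map_cons, List.prod_cons, pow_add]
    ring

theorem edgesE_lt (A : List (List Bool)) : ∀ e ∈ edgesE A, e.1 < e.2 ∧ e.2 ≤ 2 * A.length := by
  intro e he
  refine ⟨T6_lt A e he, ?_⟩
  rw [edgesE, List.mem_flatMap] at he
  obtain ⟨i, hi, he⟩ := he
  rw [List.mem_map] at he
  obtain ⟨j, hj, rfl⟩ := he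
  rw [List.mem_filter, List.mem_range] at hj
  simp only
  omega

theorem prog_zero (E D : ℕ) (hE : 1 ≤ E) (hD : 1 ≤ D) (A : List (List Bool)) :
    runP E D 0 (prog A) 1 = C (sE (edgesE A) * (D : ℚ)⁻¹ ^ nK A) * rn (2 * A.length) (SD A D) := by
  have h := edges_zero E D (2 * A.length) hE hD (edgesE A) (edgesE_lt A) 1
  rw [map_one] at h
  exact h

/-! ### the final derivatives -/

/-- the final letters -/
def fin (A : List (List Bool)) (T : ℕ) : List ℕ :=
  (List.range T).flatMap fun v => List.replicate (dL A v) (2 * v)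

theorem coeff_dd (j n : ℕ) (f : MP) (d : ℕ →₀ ℕ) (hd : d j = 0) :
    coeff d (dd j n f) = (n.factorial : ℚ) * coeff (d + Finsupp.single j n) f := by
  have key : ∀ (n : ℕ) (f : MP) (d : ℕ →₀ ℕ), ((d j).factorial : ℚ) * coeff d (dd j n f) =
      ((d j + n).factorial : ℚ) * coeff (d + Finsupp.single j n) f := by
    intro n
    induction n with
    | zero => intro f d; simp [dd_zero]
    | succ n ih =>
      intro f d
      rw [dd_succ', coeff_pderiv]
      have h1 := ih f (d + Finsupp.single j 1)
      have e1 : (d + Finsupp.single j 1 : ℕ →₀ ℕ) j = d j + 1 := by simp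
      have e2 : d + Finsupp.single j 1 + Finsupp.single j n = d + Finsupp.single j (n + 1) := by
        rw [add_assoc, ← Finsupp.single_add, add_comm 1 n]
      rw [e1, e2, Nat.factorial_succ, show d j + 1 + n = d j + (n + 1) by ring] at h1
      rw [← h1]
      push_cast
      ring
  have := key n f d
  rw [hd, zero_add, Nat.factorial_zero, Nat.cast_one, one_mul] at this
  exact this

theorem coeff_fin (A : List (List Bool)) (T : ℕ) (f : MP) (d : ℕ →₀ ℕ) (hd : ∀ v < T, d v = 0) :
    coeff d (wordY (fin A T) f) = (∏ v ∈ range T, ((dL A v).factorial : ℚ)) *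
      coeff (d + ∑ v ∈ range T, Finsupp.single v (dL A v)) f := by
  induction T generalizing f with
  | zero => simp [fin, wordY]
  | succ T ih =>
    have h1 : fin A (T + 1) = fin A T ++ List.replicate (dL A T) (2 * T) := by
      rw [fin, List.range_succ, List.flatMap_append]
      simp [fin]
    rw [h1, wordY_append, wordY_even, ih _ (fun v hv => hd v (by omega)), coeff_dd,
      Finset.prod_range_succ, Finset.sum_range_succ, add_assoc]
    · ring
    · rw [Finsupp.add_apply, hd T (by omega), zero_add, Finsupp.finsetSum_apply]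
      refine Finset.sum_eq_zero fun v hv => ?_
      rw [mem_range] at hv
      rw [Finsupp.single_apply, if_neg (by omega)]

/-- the exponent that is extracted -/
noncomputable def ex (A : List (List Bool)) : ℕ →₀ ℕ :=
  ∑ v ∈ range (2 * A.length), Finsupp.single v (dL A v)

theorem cc_fin (A : List (List Bool)) (f : MP) :
    constantCoeff (wordY (fin A (2 * A.length)) f) =
      (∏ v ∈ range (2 * A.length), ((dL A v).factorial : ℚ)) * coeff (ex A) f := by
  rw [constantCoeff_eq, coeff_fin A _ f 0 (fun _ _ => rfl), zero_add]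
  rfl

theorem coeff_rn (A : List (List Bool)) (S : MP) :
    coeff (ex A) (rn (2 * A.length) S) = coeff (ex A) S := by
  have h1 : (ex A).mapDomain (shf (2 * A.length)) = ex A := by
    rw [ex, ← Finsupp.mapDomain.addMonoidHom_apply, map_sum]
    refine Finset.sum_congr rfl fun v hv => ?_
    rw [mem_range] at hv
    rw [Finsupp.mapDomain.addMonoidHom_apply, Finsupp.mapDomain_single, shf_lt hv]
  conv_lhs => rw [← h1]
  rw [rn, coeff_rename_mapDomain _ (shf_inj _)]

/-- the words -/
def WW (A : List (List Bool)) (D N : ℕ) : List ℕ := fin A (2 * A.length) ++ wordP D N (prog A)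

theorem mu_append (Q Q' : List (ℕ × ℕ)) : mu (Q ++ Q') = mu Q + mu Q' := by
  rw [mu, List.filter_append, List.length_append]; rfl

theorem mu_progE (T : ℕ) (e : ℕ × ℕ) : mu (progE T e) = 1 := by
  rw [progE, mu_append, mu_cons, mu_append, mu_cons]
  have h : ∀ (n k : ℕ) (f : ℕ → ℕ), k ≠ 2 → mu ((List.range n).map fun s => (k, f s)) = 0 := by
    intro n k f hk
    rw [mu, List.length_eq_zero_iff, List.filter_eq_nil_iff]
    intro x hx
    rw [List.mem_map] at hx
    obtain ⟨s, _, rfl⟩ := hx
    simpa using hk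
  rw [h _ 0 _ (by omega), h _ 3 _ (by omega), h _ 1 _ (by omega)]
  simp

theorem mu_prog (A : List (List Bool)) : mu (prog A) = (edgesE A).length := by
  rw [prog]
  generalize edgesE A = L
  induction L with
  | nil => rfl
  | cons e L ih => rw [List.flatMap_cons, mu_append, mu_progE, ih, List.length_cons, add_comm]

/-- the cut-off -/
def nE (A : List (List Bool)) : ℕ := (edgesE A).length + 1

/-- the product of the factorials -/
def fF (A : List (List Bool)) : ℕ := ((List.range (2 * A.length)).map fun v => (dL A v).factorial).prod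

theorem fF_eq (A : List (List Bool)) :
    ((fF A : ℕ) : ℚ) = ∏ v ∈ range (2 * A.length), ((dL A v).factorial : ℚ) := by
  have h : ∀ (f : ℕ → ℕ) (n : ℕ), (((List.range n).map f).prod : ℚ) = ∏ v ∈ range n, (f v : ℚ) := by
    intro f n
    induction n with
    | zero => simp
    | succ n ih =>
      rw [List.range_succ, List.map_append, List.prod_append, Finset.prod_range_succ,
        Nat.cast_mul, ih]
      simp
  exact h _ _

theorem val_WW (A : List (List Bool)) (D N : ℕ) (hD : 1 ≤ D) (hN : D + 1 ≤ N) :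
    (val (WW A D N) : ℚ) / (nP N (prog A) : ℚ) = sgw (fin A (2 * A.length)) * (fF A : ℚ) *
      coeff (ex A) (runP (nE A) D (N : ℤ) (prog A) 1) := by
  have h1 := cc_wordY (WW A D N)
  have hY : ∀ (c : ℚ) (w : List ℕ) (f : MP), wordY w (C c * f) = C c * wordY w f := by
    intro c w f
    induction w with
    | nil => rfl
    | cons a w ih =>
      rw [wordY_cons, wordY_cons, ih, opY, opY]
      split_ifs
      · rw [pderiv_C_mul]
      · ring
  rw [WW, wordY_append, wordP_eq (nE A) D N hD hN (prog A) 1 0 (by exact_mod_cast T2.Dle.one)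
    (by rw [mu_prog, nE]; omega), hY, map_mul, constantCoeff_C, cc_fin, ← fF_eq, sgw_append] at h1
  have h2 := sgw_sq (fin A (2 * A.length))
  have h3 := sgw_sq (wordP D N (prog A))
  have h4 : (nP N (prog A) : ℚ) ≠ 0 := by exact_mod_cast (nP_pos N (prog A)).ne'
  rw [div_eq_iff h4]
  rw [WW]
  generalize sgw (fin A (2 * A.length)) = a at *
  generalize sgw (wordP D N (prog A)) = b at *
  generalize (val (fin A (2 * A.length) ++ wordP D N (prog A)) : ℚ) = v at *
  generalize coeff (ex A) (runP (nE A) D (N : ℤ) (prog A) 1) = c at *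
  linear_combination (-a * b) * h1 - v * b ^ 2 * h2 - v * h3 +
    a * (nP N (prog A) : ℚ) * ((fF A : ℚ) * c) * h3

end Pool.Agent.TH837.UI
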