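import Pool.Agent.TH837.UI.Lines

/-!
# Diagonal gates
-/

namespace Pool.Agent.TH837.UI

open MvPolynomial Finset
open Pool.Agent.H618R2.Skew (MP)
open Pool.Agent.H618R2.Skew.T2 (PD Dle)

/-- substitution of line `b` for line `a` -/
noncomputable def sub (a b : ℕ) : MP →ₐ[ℚ] MP := aeval fun v => if v = a then X b else X v

theorem sub_X (a b v : ℕ) : sub a b (X v) = if v = a then X b else X v := by rw [sub, aeval_X]

/-- iterated derivative -/
noncomputable def dd (j n : ℕ) : MP →ₗ[ℚ] MP := ((pderiv j : Derivation ℚ MP MP) : MP →ₗ[ℚ] MP) ^ n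

theorem dd_zero (j : ℕ) (f : MP) : dd j 0 f = f := rfl

theorem dd_succ (j n : ℕ) (f : MP) : dd j (n + 1) f = dd j n (pderiv j f) := by
  rw [dd, pow_succ]; rfl

theorem dd_succ' (j n : ℕ) (f : MP) : dd j (n + 1) f = pderiv j (dd j n f) := by
  rw [dd, pow_succ']; rfl

/-- the difference of two lines -/
noncomputable def hh (a b : ℕ) : MP := X a - X b

theorem pderiv_sub (a b : ℕ) (hab : a ≠ b) (c : MP) : pderiv a (sub a b c) = 0 := by
  induction c using MvPolynomial.induction_on with
  | C c => simp [sub]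
  | add p q hp hq => rw [map_add, map_add, hp, hq, add_zero]
  | mul_X p i hp =>
    rw [map_mul, Derivation.leibniz, hp, sub_X]
    by_cases h : i = a
    · rw [if_pos h, pderiv_X_of_ne (Ne.symm hab)]; simp
    · rw [if_neg h, pderiv_X_of_ne h]; simp

theorem sub_sub (a b : ℕ) (hab : a ≠ b) (c : MP) : sub a b (sub a b c) = sub a b c := by
  induction c using MvPolynomial.induction_on with
  | C c => simp [sub]
  | add p q hp hq => rw [map_add, map_add, hp, hq]
  | mul_X p i hp =>
    rw [map_mul, map_mul, hp, sub_X]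
    by_cases h : i = a
    · rw [if_pos h, sub_X, if_neg (Ne.symm hab)]
    · rw [if_neg h, sub_X, if_neg h]

theorem sub_hh (a b : ℕ) (hab : a ≠ b) : sub a b (hh a b) = 0 := by
  rw [hh, map_sub, sub_X, sub_X, if_pos rfl, if_neg (Ne.symm hab), sub_self]

theorem pderiv_hh (a b : ℕ) (hab : a ≠ b) : pderiv a (hh a b) = 1 := by
  rw [hh, map_sub, pderiv_X_self, pderiv_X_of_ne (Ne.symm hab), sub_zero]

theorem dd_mono (a b : ℕ) (hab : a ≠ b) (c : MP) (l n : ℕ) :
    dd a n (sub a b c * hh a b ^ l) = C ((l.descFactorial n : ℕ) : ℚ) * (sub a b c * hh a b ^ (l - n)) := by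
  induction n generalizing l with
  | zero => rw [dd_zero]; simp
  | succ n ih =>
    have h1 : pderiv a (sub a b c * hh a b ^ l) = C (l : ℚ) * (sub a b c * hh a b ^ (l - 1)) := by
      rw [Derivation.leibniz, pderiv_sub a b hab, pderiv_pow, pderiv_hh a b hab, smul_eq_mul,
        smul_eq_mul, map_natCast]
      ring
    rw [dd_succ, h1, C_mul', map_smul, ih, ← C_mul', ← mul_assoc, ← C_mul]
    have h2 : l - 1 - n = l - (n + 1) := by omega
    rw [h2]
    congr 2
    cases l with
    | zero => simp
    | succ l =>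
      rw [Nat.add_sub_cancel, Nat.succ_descFactorial_succ]
      push_cast
      ring

/-- the component of degree `k` in the difference of two lines -/
noncomputable def Tk (a b k : ℕ) (f : MP) : MP :=
  C ((k.factorial : ℚ)⁻¹) * (sub a b (dd a k f) * hh a b ^ k)

theorem Tk_add (a b k : ℕ) (f g : MP) : Tk a b k (f + g) = Tk a b k f + Tk a b k g := by
  rw [Tk, Tk, Tk, map_add, map_add]; ring

theorem Tk_mono (a b : ℕ) (hab : a ≠ b) (c : MP) (k l : ℕ) :
    Tk a b k (sub a b c * hh a b ^ l) = if k = l then sub a b c * hh a b ^ l else 0 := by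
  rw [Tk, dd_mono a b hab, map_mul, map_mul, map_pow, sub_sub a b hab, sub_hh a b hab]
  by_cases h : k = l
  · subst h
    rw [if_pos rfl, Nat.sub_self, Nat.descFactorial_self]
    have h1 : sub a b (C ((k.factorial : ℕ) : ℚ)) = C ((k.factorial : ℕ) : ℚ) := by
      rw [sub, aeval_C]; rfl
    have h2 : (C ((k.factorial : ℚ)⁻¹) : MP) * C ((k.factorial : ℕ) : ℚ) = 1 := by
      rw [← C_mul, inv_mul_cancel₀ (by exact_mod_cast k.factorial_ne_zero), C_1]
    rw [h1, pow_zero, mul_one]
    linear_combination (sub a b c * hh a b ^ k) * h2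
  · rw [if_neg h]
    rcases Nat.lt_or_gt_of_ne h with h1 | h1
    · rw [zero_pow (by omega)]; ring
    · rw [Nat.descFactorial_of_lt h1]; simp

theorem span_ind (a b : ℕ) (P : MP → Prop) (hadd : ∀ f g, P f → P g → P (f + g))
    (hb : ∀ c l, P (sub a b c * hh a b ^ l)) (f : MP) : P f := by
  have key : ∀ f : MP, ∀ l, P (sub a b 1 * f * hh a b ^ l) := by
    intro f
    have h2 : ∀ f c : MP, ∀ l, P (sub a b c * f * hh a b ^ l) := by
      intro f
      induction f using MvPolynomial.induction_on with
      | C r =>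
        intro c l
        have := hb (c * C r) l
        rw [map_mul] at this
        have h1 : sub a b (C r) = C r := by rw [sub, aeval_C]; rfl
        rwa [h1] at this
      | add p q hp hq =>
        intro c l
        rw [mul_add, add_mul]
        exact hadd _ _ (hp c l) (hq c l)
      | mul_X p i hp =>
        intro c l
        by_cases h : i = a
        · subst h
          have h1 : sub i b c * (p * X i) * hh i b ^ l = sub i b c * p * hh i b ^ (l + 1) +
              sub i b (c * X b) * p * hh i b ^ l := by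
            have h3 : sub i b (X b) = X b := by
              rw [sub_X]
              split_ifs <;> rfl
            rw [map_mul, h3, pow_succ]
            have : hh i b = X i - X b := rfl
            rw [this]
            ring
          rw [h1]
          exact hadd _ _ (hp c (l + 1)) (hp _ l)
        · have h1 : sub a b c * (p * X i) * hh a b ^ l = sub a b (c * X i) * p * hh a b ^ l := by
            rw [map_mul, sub_X, if_neg h]; ring
          rw [h1]
          exact hp _ l
    exact h2 f 1
  have := key f 0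
  rwa [map_one, one_mul, pow_zero, mul_one] at this

theorem decomp (a b : ℕ) (hab : a ≠ b) (f : MP) :
    ∃ K0, ∀ K ≥ K0, f = ∑ k ∈ range K, Tk a b k f := by
  refine span_ind a b (fun f => ∃ K0, ∀ K ≥ K0, f = ∑ k ∈ range K, Tk a b k f) ?_ ?_ f
  · rintro f g ⟨K1, h1⟩ ⟨K2, h2⟩
    refine ⟨max K1 K2, fun K hK => ?_⟩
    simp_rw [Tk_add]
    rw [Finset.sum_add_distrib, ← h1 K (le_trans (le_max_left _ _) hK),
      ← h2 K (le_trans (le_max_right _ _) hK)]
  · intro c l
    refine ⟨l + 1, fun K hK => ?_⟩
    simp_rw [Tk_mono a b hab]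
    rw [Finset.sum_ite_eq', if_pos (Finset.mem_range.2 (by omega))]

/-! ### degrees -/

theorem Dle_monomial (d : ℕ →₀ ℕ) (c : ℚ) : Dle (monomial d c) ((Finsupp.degree d : ℕ) : ℤ) := by
  intro e he
  rw [MvPolynomial.mem_support_iff, MvPolynomial.coeff_monomial] at he
  have : d = e := by
    by_contra h
    simp [h] at he
  rw [this]

theorem Dle_pderiv {f : MP} {g : ℤ} (b : ℕ) (h : Dle f g) : Dle (pderiv b f) (g - 1) := by
  rw [← MvPolynomial.support_sum_monomial_coeff f, map_sum]
  refine Dle.sum _ _ _ fun d hd => ?_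
  rw [pderiv_monomial]
  by_cases hb : d b = 0
  · rw [hb]
    simpa using Dle.zero _
  · refine (Dle_monomial _ _).mono ?_
    have h1 : Finsupp.single b 1 + (d - Finsupp.single b 1) = d := by
      apply add_tsub_cancel_of_le
      rw [Finsupp.single_le_iff]
      omega
    have h2 := congrArg Finsupp.degree h1
    rw [map_add, Finsupp.degree_single] at h2
    have h3 := h d hd
    omega

theorem Dle_dd {f : MP} {g : ℤ} (b n : ℕ) (h : Dle f g) : Dle (dd b n f) (g - n) := by
  induction n with
  | zero => simpa [dd_zero] using h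
  | succ n ih =>
    rw [dd_succ']
    refine (Dle_pderiv b ih).mono ?_
    push_cast
    linarith

theorem Dle_sub {f : MP} {g : ℤ} (a b : ℕ) (h : Dle f g) : Dle (sub a b f) g := by
  rw [← MvPolynomial.support_sum_monomial_coeff f, map_sum]
  refine Dle.sum _ _ _ fun d hd => ?_
  rw [sub, aeval_monomial]
  have h1 : ∀ s : Finset ℕ, Dle (∏ v ∈ s, (if v = a then X b else X v : MP) ^ (d v))
      (∑ v ∈ s, (d v : ℤ)) := by
    intro s
    induction s using Finset.induction_on with
    | empty => simpa using Dle.one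
    | insert v s hv ih =>
      rw [Finset.prod_insert hv, Finset.sum_insert hv]
      refine Dle.mul ?_ ih
      have h2 : Dle (if v = a then X b else X v : MP) 1 := by
        split_ifs
        · exact Dle.X b
        · exact Dle.X v
      have := h2.pow (d v)
      rwa [mul_one] at this
  have h2 := (Dle.C (coeff d f)).mul (h1 d.support)
  refine h2.mono ?_
  rw [zero_add]
  have h3 := h d hd
  rw [Finsupp.degree_apply] at h3
  push_cast at h3
  exact h3

theorem Dle_hh (a b : ℕ) : Dle (hh a b) 1 := by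
  rw [hh, sub_eq_add_neg]
  exact (Dle.X a).add (Dle.X b).neg

theorem Dle_Tk {f : MP} {g : ℤ} (a b k : ℕ) (h : Dle f g) : Dle (Tk a b k f) g := by
  refine ((Dle.C _).mul ((Dle_sub a b (Dle_dd a k h)).mul ((Dle_hh a b).pow k))).mono ?_
  linarith

theorem Tk_zero {f : MP} {g : ℤ} (a b k : ℕ) (h : Dle f g) (hk : g < k) : Tk a b k f = 0 := by
  rw [Tk, (Dle_dd a k h).eq_zero (by linarith)]
  simp

theorem decomp' (a b : ℕ) (hab : a ≠ b) (f : MP) (E : ℕ) (h : Dle f E) :
    f = ∑ k ∈ range (E + 1), Tk a b k f := by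
  obtain ⟨K0, h0⟩ := decomp a b hab f
  have h1 := h0 (max K0 (E + 1)) (le_max_left _ _)
  conv_lhs => rw [h1]
  symm
  apply Finset.sum_subset
  · intro k hk
    rw [mem_range] at hk ⊢
    exact lt_of_lt_of_le hk (le_max_right _ _)
  · intro k _ hk
    rw [mem_range] at hk
    exact Tk_zero a b k h (by omega)

/-- the diagonal operator -/
noncomputable def gop (E a b : ℕ) (q : ℕ → ℚ) (f : MP) : MP :=
  ∑ k ∈ range (E + 1), C (q k) * Tk a b k f

theorem Dle_gop {f : MP} {g : ℤ} (E a b : ℕ) (q : ℕ → ℚ) (h : Dle f g) : Dle (gop E a b q f) g := by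
  refine Dle.sum _ _ _ fun k _ => ?_
  refine ((Dle.C (q k)).mul (Dle_Tk a b k h)).mono ?_
  linarith

theorem gop_of (E a b : ℕ) (hab : a ≠ b) (T : MP →ₗ[ℚ] MP) (c : ℚ) (q : ℕ → ℚ)
    (hT : ∀ (x : MP) (k : ℕ), T (sub a b x * hh a b ^ k) = C (c * q k) * (sub a b x * hh a b ^ k))
    (f : MP) (h : Dle f E) : T f = C c * gop E a b q f := by
  conv_lhs => rw [decomp' a b hab f E h]
  rw [map_sum, gop, Finset.mul_sum]
  refine Finset.sum_congr rfl fun k _ => ?_
  rw [Tk, C_mul', map_smul, hT, ← C_mul', ← C_mul', C_mul]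
  ring

end Pool.Agent.TH837.UI
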