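import Pool.Agent.TH837.UI.RedB

/-!
# Graphs given by adjacency matrices; membership in `#P`
-/

namespace Pool.Agent.TH837.UI

open Pool.Agent.H549R2.Convex (ent)
open Pool.Agent.H549R2.PM (pm intervalGraph card_pm)
open Pool.Agent.NPC.H549PM (meetB meetB_iff)

/-- The graph of a list of rows: vertices are the positions `0, ..., n - 1` in the list, and `i`,
`j` are adjacent iff they are distinct and the entries `(i, j)` and `(j, i)` are both `true`. -/
def matGraph (A : List (List Bool)) : SimpleGraph (Fin A.length) where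
  Adj i j := i ≠ j ∧ (ent A i.val j.val = true ∧ ent A j.val i.val = true)
  symm := ⟨fun _ _ h => ⟨h.1.symm, h.2.2, h.2.1⟩⟩
  loopless := ⟨fun _ h => h.1 rfl⟩

/-- The list of rows is an adjacency matrix: square, symmetric, with zero diagonal. -/
def IsAdjMatrix (A : List (List Bool)) : Prop :=
  (∀ r ∈ A, r.length = A.length) ∧ (∀ i j : ℕ, ent A i j = ent A j i) ∧ ∀ i : ℕ, ent A i i = false

/-- Unit interval graphs: there are real numbers `x v` such that two vertices `u`, `v` are adjacent
iff the intervals `[x u, x u + 1]` and `[x v, x v + 1]` have a common point. -/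
def IsUnitInterval {V : Type*} (G : SimpleGraph V) : Prop :=
  ∃ x : V → ℝ, ∀ u v, u ≠ v →
    (G.Adj u v ↔ (Set.Icc (x u) (x u + 1) ∩ Set.Icc (x v) (x v + 1)).Nonempty)

/-- the number of perfect matchings of the graph of a list of rows -/
noncomputable def numPM (A : List (List Bool)) : ℕ :=
  Nat.card {M : (matGraph A).Subgraph // M.IsPerfectMatching}

/-- the adjacency matrix of a list of intervals -/
def adjM (l : List (ℕ × ℕ)) : List (List Bool) :=
  (List.range l.length).map fun i => (List.range l.length).map fun j =>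
    !decide (i = j) && meetB (l.getD i (0, 0)) (l.getD j (0, 0))

theorem adjM_length (l : List (ℕ × ℕ)) : (adjM l).length = l.length := by simp [adjM]

theorem ent_adjM (l : List (ℕ × ℕ)) (i j : ℕ) : ent (adjM l) i j =
    (decide (i < l.length) && (decide (j < l.length) &&
      (!decide (i = j) && meetB (l.getD i (0, 0)) (l.getD j (0, 0))))) := by
  unfold ent adjM
  by_cases hi : i < l.length
  · rw [List.getD_eq_getElem (List.map _ _) _ (by simpa using hi), List.getElem_map,
      List.getElem_range]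
    by_cases hj : j < l.length
    · rw [List.getD_eq_getElem (List.map _ _) _ (by simpa using hj), List.getElem_map,
        List.getElem_range]
      simp [hi, hj]
    · rw [List.getD_eq_default _ _ (by simpa using hj)]
      simp [hj]
  · have h3 : ((List.range l.length).map fun i => (List.range l.length).map fun j =>
        !decide (i = j) && meetB (l.getD i (0, 0)) (l.getD j (0, 0))).getD i [] = [] :=
      List.getD_eq_default _ _ (by simpa using hi)
    rw [h3]
    simp [hi]

theorem meetB_comm (p q : ℕ × ℕ) : meetB p q = meetB q p := by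
  rw [meetB, meetB, max_comm, min_comm]

theorem isAdj_adjM (l : List (ℕ × ℕ)) : IsAdjMatrix (adjM l) := by
  refine ⟨?_, fun i j => ?_, fun i => ?_⟩
  · intro r hr
    rw [adjM, List.mem_map] at hr
    obtain ⟨i, _, rfl⟩ := hr
    rw [List.length_map, List.length_range, adjM_length]
  · have h1 : decide (i = j) = decide (j = i) := decide_eq_decide.2 eq_comm
    rw [ent_adjM, ent_adjM, meetB_comm (l.getD i (0, 0)), h1]
    cases decide (i < l.length) <;> cases decide (j < l.length) <;> rfl
  · rw [ent_adjM]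
    simp

theorem matGraph_adjM (l : List (ℕ × ℕ)) (i j : Fin (adjM l).length) :
    (matGraph (adjM l)).Adj i j ↔ (intervalGraph l).Adj (Fin.cast (adjM_length l) i)
      (Fin.cast (adjM_length l) j) := by
  have hi : i.val < l.length := lt_of_lt_of_eq i.2 (adjM_length l)
  have hj : j.val < l.length := lt_of_lt_of_eq j.2 (adjM_length l)
  show (i ≠ j ∧ (ent (adjM l) i.val j.val = true ∧ ent (adjM l) j.val i.val = true)) ↔
    (Fin.cast (adjM_length l) i ≠ Fin.cast (adjM_length l) j ∧
      ∃ t : ℕ, (l[i.val].1 ≤ t ∧ t ≤ l[i.val].2) ∧ (l[j.val].1 ≤ t ∧ t ≤ l[j.val].2))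
  rw [(isAdj_adjM l).2.1 j.val i.val, and_self, ent_adjM, List.getD_eq_getElem l _ hi,
    List.getD_eq_getElem l _ hj, ← meetB_iff]
  have h1 : (i ≠ j) ↔ i.val ≠ j.val := by rw [ne_eq, Fin.ext_iff]
  have h2 : (Fin.cast (adjM_length l) i ≠ Fin.cast (adjM_length l) j) ↔ i.val ≠ j.val := by
    rw [ne_eq, Fin.ext_iff]; rfl
  rw [h1, h2]
  simp [hi, hj]

/-- the number of perfect matchings is an invariant -/
theorem card_pm_iso {V W : Type*} {G : SimpleGraph V} {H : SimpleGraph W} (e : V ≃ W)
    (h : ∀ u v, G.Adj u v ↔ H.Adj (e u) (e v)) :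
    Nat.card {M : G.Subgraph // M.IsPerfectMatching} =
      Nat.card {M : H.Subgraph // M.IsPerfectMatching} := by
  rw [card_pm, card_pm]
  refine Nat.card_congr ((Equiv.arrowCongr e e).subtypeEquiv fun f => ?_)
  simp only [Equiv.arrowCongr_apply, Function.comp]
  constructor
  · rintro ⟨h1, h2⟩
    refine ⟨fun i => ?_, fun i => ?_⟩
    · rw [Equiv.symm_apply_apply, h1, Equiv.apply_symm_apply]
    · have := (h _ _).1 (h2 (e.symm i))
      rwa [Equiv.apply_symm_apply] at this
  · rintro ⟨h1, h2⟩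
    refine ⟨fun i => ?_, fun i => ?_⟩
    · have := h1 (e i)
      rw [Equiv.symm_apply_apply, Equiv.symm_apply_apply] at this
      exact e.injective this
    · rw [h]
      have := h2 (e i)
      rwa [Equiv.symm_apply_apply] at this

theorem numPM_adjM (l : List (ℕ × ℕ)) : numPM (adjM l) = pm l := by
  rw [numPM, pm]
  exact card_pm_iso (finCongr (adjM_length l)) fun i j => matGraph_adjM l i j

theorem icc_meet (a b : ℝ) : (Set.Icc a (a + 1) ∩ Set.Icc b (b + 1)).Nonempty ↔
    a ≤ b + 1 ∧ b ≤ a + 1 := by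
  rw [Set.Icc_inter_Icc, Set.nonempty_Icc, sup_le_iff, le_inf_iff, le_inf_iff]
  constructor
  · rintro ⟨⟨_, h1⟩, h2, _⟩
    exact ⟨h1, h2⟩
  · rintro ⟨h1, h2⟩
    exact ⟨⟨by linarith, h1⟩, h2, by linarith⟩

open Pool.Agent.NPC.TH837UI (UnitLen)

theorem unit_interval (l : List (ℕ × ℕ)) (hl : UnitLen l) : IsUnitInterval (intervalGraph l) := by
  obtain ⟨d, hd, h⟩ := hl
  refine ⟨fun i => (l[i].1 : ℝ) / d, fun i j hij => ?_⟩
  have hd' : (0 : ℝ) < d := by exact_mod_cast hd
  rw [icc_meet]
  have e1 : l[i].2 = l[i].1 + d := h _ (List.getElem_mem _)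
  have e2 : l[j].2 = l[j].1 + d := h _ (List.getElem_mem _)
  have key : ∀ a b : ℕ, ((a : ℝ) / d ≤ (b : ℝ) / d + 1 ↔ a ≤ b + d) := by
    intro a b
    rw [div_add_one hd'.ne', div_le_div_iff_of_pos_right hd']
    exact_mod_cast Iff.rfl
  rw [key, key]
  show (i ≠ j ∧ ∃ t : ℕ, (l[i].1 ≤ t ∧ t ≤ l[i].2) ∧ (l[j].1 ≤ t ∧ t ≤ l[j].2)) ↔ _
  rw [e1, e2]
  constructor
  · rintro ⟨_, t, h1, h2⟩
    omega
  · rintro ⟨h1, h2⟩
    exact ⟨hij, max l[i].1 l[j].1, by omega⟩

theorem unit_interval_adjM (l : List (ℕ × ℕ)) (hl : UnitLen l) :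
    IsUnitInterval (matGraph (adjM l)) := by
  obtain ⟨x, hx⟩ := unit_interval l hl
  refine ⟨fun i => x (Fin.cast (adjM_length l) i), fun i j hij => ?_⟩
  rw [matGraph_adjM]
  refine hx _ _ fun h => hij ?_
  have h2 := congrArg Fin.val h
  exact Fin.ext h2

end Pool.Agent.TH837.UI

namespace Pool.Agent.NPC.TH837UI

open Pool.Agent.TH837.UI Pool.Agent.NPC.Cnt
open Pool.Agent.H549R2.Convex (ent)
open Pool.Agent.NPC.H549Convex (LL ent_poly sqB sqB_poly fp_of_poly)
open Pool.Agent.NPC.H549PM (meetB meetB_iff cert cert_poly cert_iff card_cert sharpP_pm pm_size)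
open Pool.Agent.NPC.H549NRed (NRed hard_of_nred poly_of_nred fp_strFn sharpP_le_of_nred)
open Pool.Agent.H549R2.PM (pm intervalGraph card_pm)

theorem adjM_p : Poly adjM := by
  have hrow : Poly (fun q : List (ℕ × ℕ) × ℕ => (List.range q.1.length).map fun j =>
      !decide (q.2 = j) && meetB (q.1.getD q.2 (0, 0)) (q.1.getD j (0, 0))) := by
    have hl : Poly (fun p : (List (ℕ × ℕ) × ℕ) × ℕ => p.1.1) := Poly.fst (Poly.fst Poly.id)
    have hi : Poly (fun p : (List (ℕ × ℕ) × ℕ) × ℕ => p.1.2) := Poly.snd (Poly.fst Poly.id)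
    have hj : Poly (fun p : (List (ℕ × ℕ) × ℕ) × ℕ => p.2) := Poly.snd Poly.id
    have h3 : Poly (fun p : (List (ℕ × ℕ) × ℕ) × ℕ => p.1.1.getD p.1.2 (0, 0)) :=
      Poly.getD hl hi (Poly.const (0, 0))
    have h4 : Poly (fun p : (List (ℕ × ℕ) × ℕ) × ℕ => p.1.1.getD p.2 (0, 0)) :=
      Poly.getD hl hj (Poly.const (0, 0))
    have h5 : Poly (fun p : (List (ℕ × ℕ) × ℕ) × ℕ => meetB (p.1.1.getD p.1.2 (0, 0))
        (p.1.1.getD p.2 (0, 0))) :=
      Poly.decide_le (Poly.max (Poly.fst h3) (Poly.fst h4)) (Poly.min (Poly.snd h3) (Poly.snd h4))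
    exact Poly.map (F := fun (q : List (ℕ × ℕ) × ℕ) j =>
      !decide (q.2 = j) && meetB (q.1.getD q.2 (0, 0)) (q.1.getD j (0, 0)))
      (Poly.range_length (Poly.fst Poly.id)) (Poly.and (Poly.not (Poly.decide_eq hi hj)) h5)
  exact Poly.map (F := fun (l : List (ℕ × ℕ)) i => (List.range l.length).map fun j =>
      !decide (i = j) && meetB (l.getD i (0, 0)) (l.getD j (0, 0)))
      (Poly.range_length Poly.id) hrow

/-- the promise: adjacency matrices of unit interval graphs -/
def UIMat (A : LL) : Prop := IsAdjMatrix A ∧ IsUnitInterval (matGraph A)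

theorem nred_M : NRed UnitLen pm UIMat numPM := by
  refine ⟨fun l => [adjM l], fun p => p.2.getD 0 0, Poly.cons adjM_p (Poly.const []),
    Poly.getD (Poly.snd Poly.id) (Poly.const 0) (Poly.const 0), ?_⟩
  intro l hl
  refine ⟨?_, ?_⟩
  · intro b hb
    rw [List.mem_singleton] at hb
    subst hb
    exact ⟨isAdj_adjM l, unit_interval_adjM l hl⟩
  · simp [numPM_adjM]

theorem nred_mat : NRed (fun _ : CNF ℕ => True) (fun φ => satCount φ) UIMat numPM :=
  nred_unit.comp nred_M

/-! ### membership -/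

/-- test of one entry of a certificate -/
def certM1 (x : (LL × List ℕ) × ℕ) : Bool :=
  decide (x.1.2.getD x.2 0 < x.1.1.length) && (decide (x.1.2.getD (x.1.2.getD x.2 0) 0 = x.2) &&
    (!decide (x.1.2.getD x.2 0 = x.2) &&
      (ent x.1.1 x.2 (x.1.2.getD x.2 0) && ent x.1.1 (x.1.2.getD x.2 0) x.2)))

/-- test of a certificate: the list of the partners of all vertices -/
def certM (l : LL) (c : List ℕ) : Bool :=
  decide (c.length = l.length) && (List.range l.length).all (fun i => certM1 ((l, c), i))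

theorem certM_poly : Poly (fun x : LL × List ℕ => certM x.1 x.2) := by
  have h0 : Poly (fun x : LL × List ℕ => decide (x.2.length = x.1.length)) :=
    Poly.decide_eq (Poly.length (Poly.snd Poly.id)) (Poly.length (Poly.fst Poly.id))
  have hl : Poly (fun x : (LL × List ℕ) × ℕ => x.1.1) := Poly.fst (Poly.fst Poly.id)
  have hc : Poly (fun x : (LL × List ℕ) × ℕ => x.1.2) := Poly.snd (Poly.fst Poly.id)
  have hi : Poly (fun x : (LL × List ℕ) × ℕ => x.2) := Poly.snd Poly.id
  have h1 : Poly (fun x : (LL × List ℕ) × ℕ => x.1.2.getD x.2 0) :=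
    Poly.getD hc hi (Poly.const 0)
  have h2 : Poly (fun x : (LL × List ℕ) × ℕ => x.1.2.getD (x.1.2.getD x.2 0) 0) :=
    Poly.getD hc h1 (Poly.const 0)
  have h3 : Poly (fun x : (LL × List ℕ) × ℕ => ent x.1.1 x.2 (x.1.2.getD x.2 0)) :=
    ent_poly.comp (f := fun x : (LL × List ℕ) × ℕ => (x.1.1, x.2, x.1.2.getD x.2 0))
      (Poly.pair hl (Poly.pair hi h1))
  have h4 : Poly (fun x : (LL × List ℕ) × ℕ => ent x.1.1 (x.1.2.getD x.2 0) x.2) :=
    ent_poly.comp (f := fun x : (LL × List ℕ) × ℕ => (x.1.1, x.1.2.getD x.2 0, x.2))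
      (Poly.pair hl (Poly.pair h1 hi))
  have h6 : Poly certM1 := Poly.and (Poly.decide_lt h1 (Poly.length hl))
    (Poly.and (Poly.decide_eq h2 hi) (Poly.and (Poly.not (Poly.decide_eq h1 hi))
      (Poly.and h3 h4)))
  exact Poly.and h0 (Poly.all (p := fun (x : LL × List ℕ) i => certM1 (x, i))
    (Poly.range_length (Poly.fst Poly.id)) h6)

theorem certM_iff (l : LL) (w : List ℕ) : certM l w = true ↔
    ∃ h : w.length = l.length, ∃ f : Fin l.length → Fin l.length,
      (∀ i : Fin l.length, (f i).val = w[i.val]) ∧ (∀ i, f (f i) = i) ∧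
        ∀ i, (matGraph l).Adj i (f i) := by
  rw [certM, Bool.and_eq_true, decide_eq_true_eq, List.all_eq_true]
  constructor
  · rintro ⟨hlen, h⟩
    refine ⟨hlen, ?_⟩
    have hall : ∀ i : Fin l.length, w[i.val] < l.length ∧ w.getD w[i.val] 0 = i.val ∧
        w[i.val] ≠ i.val ∧ (ent l i.val w[i.val] = true ∧ ent l w[i.val] i.val = true) := by
      intro i
      have h1 := h i.val (List.mem_range.2 i.2)
      simp only [certM1, Bool.and_eq_true, decide_eq_true_eq, Bool.not_eq_true',
        decide_eq_false_iff_not] at h1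
      rw [List.getD_eq_getElem w _ (by omega)] at h1
      exact h1
    refine ⟨fun i => ⟨w[i.val], (hall i).1⟩, fun i => rfl, fun i => ?_, fun i => ?_⟩
    · apply Fin.ext
      simp only
      have h2 := (hall i).2.1
      rw [List.getD_eq_getElem w _ (by have := (hall i).1; omega)] at h2
      exact h2
    · refine ⟨fun h' => (hall i).2.2.1 (Fin.ext_iff.1 h').symm, ?_⟩
      exact (hall i).2.2.2
  · rintro ⟨hlen, f, hf1, hf2, hf3⟩
    refine ⟨hlen, fun i hi => ?_⟩
    rw [List.mem_range] at hi
    simp only [certM1, Bool.and_eq_true, decide_eq_true_eq, Bool.not_eq_true',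
      decide_eq_false_iff_not]
    have h1 : w.getD i 0 = (f ⟨i, hi⟩).val := by
      rw [List.getD_eq_getElem w _ (by omega)]
      exact (hf1 ⟨i, hi⟩).symm
    rw [h1]
    refine ⟨(f ⟨i, hi⟩).2, ?_, ?_, ?_⟩
    · rw [List.getD_eq_getElem w _ (by rw [hlen]; exact (f ⟨i, hi⟩).2), ← hf1 (f ⟨i, hi⟩), hf2]
    · intro h'
      exact (hf3 ⟨i, hi⟩).1 (Fin.ext h').symm
    · exact (hf3 ⟨i, hi⟩).2

theorem card_certM (l : LL) : Nat.card {w : List ℕ // certM l w = true} = numPM l := by
  rw [numPM, card_pm]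
  symm
  refine Nat.card_congr (Equiv.ofBijective
    (fun f => (⟨List.ofFn (fun i => (f.1 i).val), ?_⟩ : {w : List ℕ // certM l w = true})) ⟨?_, ?_⟩)
  · rw [certM_iff]
    exact ⟨List.length_ofFn, f.1, fun i => by rw [List.getElem_ofFn], f.2⟩
  · intro f g h
    apply Subtype.ext
    have h1 := congrArg Subtype.val h
    simp only at h1
    have h2 := List.ofFn_injective h1
    funext i
    exact Fin.ext (congrFun h2 i)
  · rintro ⟨w, hc⟩
    obtain ⟨hlen, f, hf1, hf2⟩ := (certM_iff l w).1 hc
    refine ⟨⟨f, hf2⟩, ?_⟩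
    apply Subtype.ext
    simp only
    apply List.ext_getElem
    · rw [List.length_ofFn, hlen]
    · intro i h1 h2
      rw [List.getElem_ofFn]
      exact hf1 ⟨i, by omega⟩

theorem sharpP_numPM : SharpP (strFn numPM) := by
  have h := sharpP_typed certM certM_poly
    (Polynomial.X * (Polynomial.C 4 * Polynomial.X + Polynomial.C 2) + Polynomial.C 1) ?_
  · have e : (fun l : LL => Nat.card {w : List ℕ // certM l w = true}) = numPM :=
      funext card_certM
    rw [e] at h
    exact h
  · intro l w hc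
    obtain ⟨hlen, f, hf1, hf2⟩ := (certM_iff l w).1 hc
    have h1 : ∀ a ∈ w, sz a ≤ 4 * l.length + 1 := by
      intro a ha
      obtain ⟨i, hi, rfl⟩ := List.mem_iff_getElem.1 ha
      have h2 : w[i] < l.length := by
        rw [← hf1 ⟨i, by omega⟩]
        exact (f _).2
      have h3 := sz_nat_le w[i]
      have h4 : (w[i]).size ≤ w[i] := Nat.size_le.2 Nat.lt_two_pow_self
      omega
    have h2 := sz_le_length_mul w _ h1
    have h3 := length_lt_sz l
    simp only [Polynomial.eval_add, Polynomial.eval_mul, Polynomial.eval_X, Polynomial.eval_C]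
    have h4 : w.length * (4 * l.length + 1 + 1) ≤ sz l * (4 * sz l + 2) :=
      Nat.mul_le_mul (by omega) (by omega)
    omega

/-- test for intervals of the same length -/
def unitB (l : List (ℕ × ℕ)) : Bool :=
  l.all fun p => decide (p.1 < p.2) && l.all fun q => decide (p.1 + q.2 = q.1 + p.2)

theorem unitB_p : Poly unitB := by
  have hin : Poly (fun z : (List (ℕ × ℕ) × (ℕ × ℕ)) × (ℕ × ℕ) =>
      decide (z.1.2.1 + z.2.2 = z.2.1 + z.1.2.2)) :=
    Poly.decide_eq (Poly.add (Poly.fst (Poly.snd (Poly.fst Poly.id))) (Poly.snd (Poly.snd Poly.id)))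
      (Poly.add (Poly.fst (Poly.snd Poly.id)) (Poly.snd (Poly.snd (Poly.fst Poly.id))))
  have h1 : Poly (fun z : List (ℕ × ℕ) × (ℕ × ℕ) =>
      z.1.all fun q => decide (z.2.1 + q.2 = q.1 + z.2.2)) :=
    Poly.all (p := fun (z : List (ℕ × ℕ) × (ℕ × ℕ)) q => decide (z.2.1 + q.2 = q.1 + z.2.2))
      (Poly.fst Poly.id) hin
  exact Poly.all (p := fun (l : List (ℕ × ℕ)) p => decide (p.1 < p.2) &&
    l.all fun q => decide (p.1 + q.2 = q.1 + p.2)) Poly.id
    (Poly.and (Poly.decide_lt (Poly.fst (Poly.snd Poly.id)) (Poly.snd (Poly.snd Poly.id))) h1)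

theorem unitB_iff (l : List (ℕ × ℕ)) : unitB l = true ↔ UnitLen l := by
  rw [unitB, List.all_eq_true]
  constructor
  · intro h
    cases l with
    | nil => exact ⟨1, Nat.one_pos, by simp⟩
    | cons a l =>
      have h1 := h a (List.mem_cons_self ..)
      rw [Bool.and_eq_true, decide_eq_true_eq, List.all_eq_true] at h1
      refine ⟨a.2 - a.1, by omega, fun p hp => ?_⟩
      have h2 := h1.2 p hp
      rw [decide_eq_true_eq] at h2
      omega
  · rintro ⟨d, hd, h⟩ p hp
    rw [Bool.and_eq_true, decide_eq_true_eq, List.all_eq_true]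
    have h1 := h p hp
    refine ⟨by omega, fun q hq => ?_⟩
    have h2 := h q hq
    rw [decide_eq_true_eq]
    omega

open Classical in
/-- The number of perfect matchings of the interval graph of a list of intervals of the same
length; other inputs have value `0`. -/
noncomputable def pmUnit (l : List (ℕ × ℕ)) : ℕ := if UnitLen l then pm l else 0

theorem sharpP_pmUnit : SharpP (strFn pmUnit) := by
  have h := sharpP_typed (fun (l : List (ℕ × ℕ)) (w : List ℕ) => unitB l && cert l w)
    (Poly.and (unitB_p.comp (Poly.fst Poly.id)) cert_poly)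
    (Polynomial.X * (Polynomial.C 4 * Polynomial.X + Polynomial.C 2) + Polynomial.C 1) ?_
  · have e : (fun l : List (ℕ × ℕ) => Nat.card {w : List ℕ // (unitB l && cert l w) = true}) =
        pmUnit := by
      funext l
      by_cases hl : UnitLen l
      · rw [pmUnit, if_pos hl, ← card_cert]
        have := (unitB_iff l).2 hl
        simp only [this, Bool.true_and]
      · rw [pmUnit, if_neg hl]
        have : unitB l = false := by
          cases hb : unitB l with
          | false => rfl
          | true => exact absurd ((unitB_iff l).1 hb) hl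
        simp only [this, Bool.false_and]
        haveI : IsEmpty {w : List ℕ // false = true} := ⟨fun w => by simpa using w.2⟩
        exact Nat.card_of_isEmpty
    rw [e] at h
    exact h
  · intro l w hc
    rw [Bool.and_eq_true] at hc
    obtain ⟨hlen, f, hf1, hf2⟩ := (cert_iff l w).1 hc.2
    have h1 : ∀ a ∈ w, sz a ≤ 4 * l.length + 1 := by
      intro a ha
      obtain ⟨i, hi, rfl⟩ := List.mem_iff_getElem.1 ha
      have h2 : w[i] < l.length := by
        rw [← hf1 ⟨i, by omega⟩]
        exact (f _).2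
      have h3 := sz_nat_le w[i]
      have h4 : (w[i]).size ≤ w[i] := Nat.size_le.2 Nat.lt_two_pow_self
      omega
    have h2 := sz_le_length_mul w _ h1
    have h3 := length_lt_sz l
    simp only [Polynomial.eval_add, Polynomial.eval_mul, Polynomial.eval_X, Polynomial.eval_C]
    have h4 : w.length * (4 * l.length + 1 + 1) ≤ sz l * (4 * sz l + 2) :=
      Nat.mul_le_mul (by omega) (by omega)
    omega

theorem hard_pmUnit : SharpPHard (strFn pmUnit) := by
  refine hard_of_nred nred_unit (fun l hl => ?_)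
    (Polynomial.X * Polynomial.X + Polynomial.C 1) (fun l => ?_)
  · rw [pmUnit, if_pos hl]
  · have h1 : (pmUnit l).size ≤ l.length * l.length + 1 := by
      by_cases hl : UnitLen l
      · rw [pmUnit, if_pos hl]
        exact pm_size l
      · rw [pmUnit, if_neg hl]
        simp
    have h2 := length_lt_sz l
    simp only [Polynomial.eval_add, Polynomial.eval_mul, Polynomial.eval_X, Polynomial.eval_C]
    have := Nat.mul_le_mul h2.le h2.le
    omega

/-- if `#SAT` is easy, then all of `#P` is -/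
theorem sharpP_of_sat (h : ∃ g : List Bool → List Bool, PolyTime g ∧
    ∀ φ : CNF ℕ, g (bits φ) = (satCount φ).bits) (f : List Bool → ℕ) (hf : SharpP f) : FP f := by
  have hid : NRed (fun _ : CNF ℕ => True) (fun φ => satCount φ) (fun _ : CNF ℕ => True)
      (fun φ => satCount φ) :=
    ⟨fun φ => [φ], fun p => p.2.getD 0 0, Poly.cons Poly.id (Poly.const []),
      Poly.getD (Poly.snd Poly.id) (Poly.const 0) (Poly.const 0), fun φ _ => by simp⟩
  obtain ⟨g, hg, hgf⟩ := h
  exact sharpP_le_of_nred hid ⟨g, hg, fun φ _ => hgf φ⟩ f hf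

/-- if perfect matchings of unit interval graphs are easy, then `#SAT` is -/
theorem sat_of_unit {β : Type} [TEnc β] {S : β → Prop} {f : β → ℕ}
    (hred : NRed (fun _ : CNF ℕ => True) (fun φ => satCount φ) S f)
    (h : ∃ g : List Bool → List Bool, PolyTime g ∧ ∀ b, S b → g (bits b) = (f b).bits) :
    ∃ g : List Bool → List Bool, PolyTime g ∧ ∀ φ : CNF ℕ, g (bits φ) = (satCount φ).bits := by
  have h1 : FP (strFn (fun φ : CNF ℕ => satCount φ)) := fp_strFn (poly_of_nred hred h)
  exact ⟨_, h1, fun φ => by rw [strFn_bits]⟩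

end Pool.Agent.NPC.TH837UI
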