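import Pool.Agent.TH837.UI.Lo

/-!
# The lines
-/

namespace Pool.Agent.TH837.UI

open MvPolynomial Finset
open Pool.Agent.H618R2.Skew (MP)

/-- the operator of a letter, acting on the lines: `2 m` is the derivative in line `m`, `2 m + 1` the
multiplication by the difference of the lines `m + 1` and `m` -/
noncomputable def opY (a : ℕ) (f : MP) : MP :=
  if a % 2 = 0 then pderiv (a / 2) f else (X (a / 2 + 1) - X (a / 2)) * f

/-- the operators of a word -/
noncomputable def wordY (w : List ℕ) (f : MP) : MP := w.foldr opY f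

theorem wordY_cons (a : ℕ) (w : List ℕ) (f : MP) : wordY (a :: w) f = opY a (wordY w f) := rfl

theorem wordY_append (w w' : List ℕ) (f : MP) : wordY (w ++ w') f = wordY w (wordY w' f) := by
  rw [wordY, List.foldr_append]; rfl

/-- the line of a variable -/
def rln (a : ℕ) : ℕ := (a + 1) / 2

theorem pderiv_rln (m : ℕ) (f : MP) :
    pderiv m (rename rln f) = rename rln (∑ a ∈ nbs (2 * m), pderiv a f) := by
  induction f using MvPolynomial.induction_on with
  | C c => simp
  | add p q hp hq =>
    simp only [map_add, hp, hq, Finset.sum_add_distrib]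
  | mul_X p i hp =>
    have h1 : (∑ a ∈ nbs (2 * m), pderiv a (p * X i)) =
        (∑ a ∈ nbs (2 * m), pderiv a p) * X i + (if i ∈ nbs (2 * m) then p else 0) := by
      simp only [Derivation.leibniz, smul_eq_mul, pderiv_X, Pi.single_apply,
        Finset.sum_add_distrib, ← Finset.mul_sum]
      rw [Finset.sum_ite_eq]
      split_ifs <;> ring
    rw [h1, map_mul, rename_X, Derivation.leibniz, hp, smul_eq_mul, smul_eq_mul, pderiv_X,
      Pi.single_apply, map_add, map_mul, rename_X]
    have h2 : (rln i = m) ↔ i ∈ nbs (2 * m) := by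
      rw [rln, nbs, Finset.mem_insert, Finset.mem_singleton]
      omega
    by_cases h : rln i = m
    · rw [if_pos h, if_pos (h2.1 h)]
      ring
    · rw [if_neg h, if_neg (fun h3 => h (h2.2 h3)), map_zero]
      ring

theorem opB_even (m : ℕ) (f : MP) : opB (2 * m) f = ∑ b ∈ nbs (2 * m), pderiv b f := by
  have : 2 * (2 * m / 2) = 2 * m := by omega
  rw [opB, this]
  ring

theorem opB_odd (m : ℕ) (f : MP) : opB (2 * m + 1) f =
    (X (2 * m + 1) - X (2 * m)) * f + (pderiv (2 * m + 1) f + pderiv (2 * m) f) := by
  have : 2 * ((2 * m + 1) / 2) = 2 * m := by omega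
  rw [opB, this, nbs, Finset.sum_insert (by rw [Finset.mem_singleton]; omega),
    Finset.sum_singleton, Nat.add_sub_cancel]

theorem wordB_inv (w : List ℕ) (m : ℕ) :
    pderiv (2 * m + 1) (wordB w) + pderiv (2 * m) (wordB w) = 0 := by
  induction w with
  | nil => simp [wordB]
  | cons a w ih =>
    set f := wordB w with hf
    have h0 : wordB (a :: w) = opB a f := rfl
    rw [h0, opB]
    simp only [map_add, map_sum, Derivation.leibniz, smul_eq_mul, map_sub, pderiv_X,
      Pi.single_apply]
    have h1 : ∑ x ∈ nbs a, pderiv (2 * m + 1) (pderiv x f) +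
        ∑ x ∈ nbs a, pderiv (2 * m) (pderiv x f) = 0 := by
      rw [← Finset.sum_add_distrib]
      refine Finset.sum_eq_zero fun x _ => ?_
      rw [pderiv_comm (2 * m + 1) x, pderiv_comm (2 * m) x, ← map_add, ih, map_zero]
    have h2 : (((if a = 2 * m + 1 then 1 else 0) - (if 2 * (a / 2) = 2 * m + 1 then 1 else 0)) +
        ((if a = 2 * m then 1 else 0) - (if 2 * (a / 2) = 2 * m then 1 else 0)) : MP) = 0 := by
      rw [if_neg (show ¬ 2 * (a / 2) = 2 * m + 1 by omega)]
      by_cases ha : a = 2 * m + 1
      · rw [if_pos ha, if_neg (by omega), if_pos (by omega)]; ring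
      · rw [if_neg ha]
        by_cases hb : a = 2 * m
        · rw [if_pos hb, if_pos (by omega)]; ring
        · rw [if_neg hb, if_neg (by omega)]; ring
    linear_combination h1 + f * h2 + (X a - X (2 * (a / 2))) * ih

theorem rename_wordB (w : List ℕ) : rename rln (wordB w) = wordY w 1 := by
  induction w with
  | nil => simp [wordB, wordY]
  | cons a w ih =>
    have h0 : wordB (a :: w) = opB a (wordB w) := rfl
    rw [h0, wordY_cons, ← ih]
    rcases Nat.even_or_odd' a with ⟨c, rfl | rfl⟩
    · have e1 : 2 * c / 2 = c := by omega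
      rw [opB_even, opY, if_pos (by omega), e1, pderiv_rln]
    · have e1 : (2 * c + 1) / 2 = c := by omega
      have e2 : rln (2 * c + 1) = c + 1 := by rw [rln]; omega
      have e3 : rln (2 * c) = c := by rw [rln]; omega
      rw [opB_odd, wordB_inv, add_zero, opY, if_neg (by omega), e1, map_mul, map_sub, rename_X,
        rename_X, e2, e3]

theorem cc_wordB (w : List ℕ) : constantCoeff (wordB w) = constantCoeff (wordY w 1) := by
  rw [← rename_wordB, constantCoeff_rename]

/-! ### the signs -/

/-- the operator of a letter, without signs -/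
noncomputable def opN (a : ℕ) (f : MvPolynomial ℕ ℕ) : MvPolynomial ℕ ℕ :=
  if a % 2 = 0 then pderiv (a / 2) f else (X (a / 2 + 1) + X (a / 2)) * f

/-- the value of a word: the number of perfect matchings of the bipartite graph of a word, in which
an even letter `2 m` is adjacent to the letters `2 m + 1` and `2 m - 1` on its right -/
noncomputable def val (w : List ℕ) : ℕ := constantCoeff (w.foldr opN 1)

/-- the sign of a letter -/
def sg (a : ℕ) : ℚ := (-1) ^ ((a + 1) / 2)

/-- the sign of a word -/
def sgw (w : List ℕ) : ℚ := (w.map sg).prod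

theorem sgw_append (w w' : List ℕ) : sgw (w ++ w') = sgw w * sgw w' := by
  rw [sgw, List.map_append, List.prod_append]; rfl

/-- change of signs of the lines -/
noncomputable def tau : MP →ₐ[ℚ] MP := aeval fun m => C ((-1) ^ m) * X m

theorem pderiv_tau (m : ℕ) (f : MP) : pderiv m (tau f) = C ((-1) ^ m) * tau (pderiv m f) := by
  induction f using MvPolynomial.induction_on with
  | C c => simp [tau]
  | add p q hp hq => rw [map_add, map_add, map_add, hp, hq, map_add]; ring
  | mul_X p i hp =>
    have h1 : tau (X i) = C ((-1) ^ i) * X i := by rw [tau, aeval_X]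
    rw [map_mul, Derivation.leibniz, Derivation.leibniz, hp, h1, pderiv_C_mul, pderiv_X,
      smul_eq_mul, smul_eq_mul, smul_eq_mul, smul_eq_mul, map_add, map_mul, map_mul, h1,
      Pi.single_apply]
    by_cases h : i = m
    · subst h
      rw [if_pos rfl, map_one]
      ring
    · rw [if_neg h, map_zero]
      ring

theorem tau_wordY (w : List ℕ) :
    tau (wordY w 1) = C (sgw w) * map (Nat.castRingHom ℚ) (w.foldr opN 1) := by
  induction w with
  | nil => simp [wordY, sgw]
  | cons a w ih =>
    have h0 : sgw (a :: w) = sg a * sgw w := by rw [sgw, List.map_cons, List.prod_cons]; rfl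
    rw [wordY_cons, List.foldr_cons, h0]
    rcases Nat.even_or_odd' a with ⟨c, rfl | rfl⟩
    · have e1 : 2 * c / 2 = c := by omega
      have e2 : (2 * c + 1) / 2 = c := by omega
      rw [opY, if_pos (by omega), opN, if_pos (by omega), e1, ← pderiv_map, sg, e2]
      have h1 : pderiv c (tau (wordY w 1)) =
          C (sgw w) * pderiv c (map (Nat.castRingHom ℚ) (w.foldr opN 1)) := by
        rw [ih, pderiv_C_mul]
      rw [pderiv_tau] at h1
      have h2 : (C ((-1 : ℚ) ^ c) : MP) * C ((-1 : ℚ) ^ c) = 1 := by
        rw [← C_mul, ← mul_pow]; simp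
      rw [C_mul, mul_assoc, ← h1, ← mul_assoc, h2, one_mul]
    · have e1 : (2 * c + 1) / 2 = c := by omega
      have e2 : (2 * c + 1 + 1) / 2 = c + 1 := by omega
      have h1 : ∀ i, tau (X i) = C ((-1) ^ i) * X i := fun i => by rw [tau, aeval_X]
      rw [opY, if_neg (by omega), opN, if_neg (by omega), e1, sg, e2, map_mul, map_mul, map_sub,
        map_mul, map_add, ih, h1, h1, map_X, map_X]
      simp only [pow_succ, C_mul, C_neg, C_1]
      ring

theorem cc_wordY (w : List ℕ) : constantCoeff (wordY w 1) = sgw w * val w := by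
  have h1 : (constantCoeff.comp (tau : MP →ₐ[ℚ] MP).toRingHom : MP →+* ℚ) = constantCoeff := by
    apply MvPolynomial.ringHom_ext
    · intro r
      simp
    · intro i
      simp only [RingHom.comp_apply, AlgHom.toRingHom_eq_coe, RingHom.coe_coe]
      rw [tau, aeval_X]
      simp
  have h2 := congrArg (fun φ : MP →+* ℚ => φ (wordY w 1)) h1
  simp only [RingHom.comp_apply, AlgHom.toRingHom_eq_coe, RingHom.coe_coe] at h2
  rw [← h2, tau_wordY, map_mul, constantCoeff_C, constantCoeff_map]
  rfl

end Pool.Agent.TH837.UI
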