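import Pool.Agent.TH837.UI.Ops

/-!
# Low order terms, and the Gaussian conjugation
-/

namespace Pool.Agent.TH837.UI

open MvPolynomial Finset
open Pool.Agent.H618R2.Skew (MP)

/-- all monomials of `f` have degree at least `k` -/
def Lo (k : ℕ) (f : MP) : Prop := ∀ d ∈ f.support, k ≤ Finsupp.degree d

theorem Lo.zero (k : ℕ) : Lo k 0 := by intro d hd; simp at hd

theorem Lo.mono {k k' : ℕ} {f : MP} (h : Lo k f) (hk : k' ≤ k) : Lo k' f :=
  fun d hd => hk.trans (h d hd)

theorem Lo.add {k : ℕ} {f g : MP} (h : Lo k f) (h' : Lo k g) : Lo k (f + g) := by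
  intro d hd
  rcases Finset.mem_union.1 (MvPolynomial.support_add hd) with h1 | h1
  · exact h d h1
  · exact h' d h1

theorem Lo.sum {ι : Type*} (s : Finset ι) (f : ι → MP) (k : ℕ) (h : ∀ i ∈ s, Lo k (f i)) :
    Lo k (∑ i ∈ s, f i) := by
  classical
  induction s using Finset.induction_on with
  | empty => simpa using Lo.zero k
  | insert a s ha ih =>
    rw [Finset.sum_insert ha]
    exact (h a (Finset.mem_insert_self _ _)).add
      (ih fun i hi => h i (Finset.mem_insert_of_mem hi))

theorem Lo.mul {k : ℕ} {f : MP} (g : MP) (h : Lo k f) : Lo k (g * f) := by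
  classical
  intro d hd
  obtain ⟨a, ha, b, hb, rfl⟩ := Finset.mem_add.1 (MvPolynomial.support_mul g f hd)
  rw [map_add]
  exact (h b hb).trans (Nat.le_add_left _ _)

theorem Lo.mul' {k : ℕ} {f : MP} (g : MP) (h : Lo k f) : Lo k (f * g) := by
  rw [mul_comm]; exact h.mul g

theorem Lo.monomial (d : ℕ →₀ ℕ) (c : ℚ) : Lo (Finsupp.degree d) (monomial d c) := by
  intro e he
  rw [MvPolynomial.mem_support_iff, MvPolynomial.coeff_monomial] at he
  have : d = e := by
    by_contra h
    simp [h] at he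
  rw [this]

theorem Lo.pderiv {k : ℕ} {f : MP} (b : ℕ) (h : Lo (k + 1) f) : Lo k (pderiv b f) := by
  rw [← MvPolynomial.support_sum_monomial_coeff f, map_sum]
  refine Lo.sum _ _ _ fun d hd => ?_
  rw [pderiv_monomial]
  by_cases hb : d b = 0
  · rw [hb]
    simpa using Lo.zero k
  · refine (Lo.monomial _ _).mono ?_
    have h1 : Finsupp.single b 1 + (d - Finsupp.single b 1) = d := by
      apply add_tsub_cancel_of_le
      rw [Finsupp.single_le_iff]
      omega
    have h2 := congrArg Finsupp.degree h1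
    rw [map_add, Finsupp.degree_single] at h2
    have h3 := h d hd
    omega

theorem Lo.cc {f : MP} (h : Lo 1 f) : constantCoeff f = 0 := by
  rw [constantCoeff_eq]
  by_contra hne
  have := h 0 (MvPolynomial.mem_support_iff.2 hne)
  simp at this

theorem Lo.opA {k : ℕ} {f : MP} (a : ℕ) (h : Lo (k + 1) f) : Lo k (opA a f) :=
  ((h.mono (Nat.le_succ k)).mul _).add (Lo.sum _ _ _ fun b _ => h.pderiv b)

/-- the polynomial of a word -/
noncomputable def wordA (w : List ℕ) (f : MP) : MP := w.foldr opA f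

theorem wordA_cons (a : ℕ) (w : List ℕ) (f : MP) : wordA (a :: w) f = opA a (wordA w f) := rfl

theorem wordA_append (w w' : List ℕ) (f : MP) : wordA (w ++ w') f = wordA w (wordA w' f) := by
  rw [wordA, List.foldr_append]; rfl

theorem opA_sub (a : ℕ) (f g : MP) : Pool.Agent.TH837.UI.opA a (f - g) =
    Pool.Agent.TH837.UI.opA a f - Pool.Agent.TH837.UI.opA a g := by
  have := opA_add a (f - g) g
  rw [sub_add_cancel] at this
  rw [this]
  ring

theorem wordA_sub (w : List ℕ) (f g : MP) : wordA w (f - g) = wordA w f - wordA w g := by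
  induction w with
  | nil => rfl
  | cons a w ih => rw [wordA_cons, wordA_cons, wordA_cons, ih, opA_sub]

theorem Lo.wordA {k : ℕ} {f : MP} (w : List ℕ) (h : Lo (k + w.length) f) : Lo k (wordA w f) := by
  induction w generalizing k with
  | nil => exact h
  | cons a w ih =>
    rw [wordA_cons]
    refine Lo.opA a (ih ?_)
    rw [List.length_cons] at h
    exact h.mono (by omega)

theorem cc_wordA_congr (w : List ℕ) {f g : MP} (h : Lo (w.length + 1) (f - g)) :
    constantCoeff (wordA w f) = constantCoeff (wordA w g) := by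
  have h1 : Lo 1 (Pool.Agent.TH837.UI.wordA w (f - g)) := Lo.wordA w (h.mono (by omega))
  have h2 := h1.cc
  rw [wordA_sub, map_sub] at h2
  exact sub_eq_zero.1 h2

/-! ### the blob coefficients -/

/-- `N (N - 2) ⋯ (N - 2 k + 2) / (2 k)!` -/
noncomputable def gam (k : ℕ) (N : ℤ) : ℚ :=
  (∏ i ∈ range k, ((N : ℚ) - 2 * i)) / ((2 * k).factorial : ℚ)

theorem gam_zero (N : ℤ) : gam 0 N = 1 := by simp [gam]

theorem fac2 (k : ℕ) : ((2 * (k + 1)).factorial : ℚ) = (2 * k + 2) * (2 * k + 1) * (2 * k).factorial := by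
  rw [show 2 * (k + 1) = 2 * k + 1 + 1 by ring, Nat.factorial_succ, Nat.factorial_succ]
  push_cast
  ring

theorem gam_succ (k : ℕ) (N : ℤ) :
    gam (k + 1) N * ((2 * k + 2) * (2 * k + 1)) = gam k N * ((N : ℚ) - 2 * k) := by
  have h1 : ((2 * k).factorial : ℚ) ≠ 0 := by exact_mod_cast (2 * k).factorial_ne_zero
  have h2 : (2 * (k : ℚ) + 2) ≠ 0 := by positivity
  have h3 : (2 * (k : ℚ) + 1) ≠ 0 := by positivity
  rw [gam, gam, Finset.prod_range_succ, fac2]
  field_simp

theorem gam_neg (k : ℕ) : gam (k + 1) (-1) * (2 * k + 2) = -gam k (-1) := by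
  have h := gam_succ k (-1)
  have h3 : (2 * (k : ℚ) + 1) ≠ 0 := by positivity
  push_cast at h
  apply mul_right_cancel₀ h3
  linear_combination h

theorem gam_big (n k : ℕ) (h : n < k) : gam k (2 * n : ℕ) = 0 := by
  rw [gam, Finset.prod_eq_zero (i := n)]
  · simp
  · exact mem_range.2 h
  · push_cast; ring

/-- the truncated series of one blob -/
noncomputable def gser (B m : ℕ) (N : ℤ) : MP :=
  ∑ k ∈ range (B + 1), C (gam k N) * X (2 * m) ^ (2 * k)

theorem gser_succ (B m : ℕ) (N : ℤ) :
    gser (B + 1) m N = gser B m N + C (gam (B + 1) N) * X (2 * m) ^ (2 * (B + 1)) := by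
  rw [gser, Finset.sum_range_succ]; rfl

theorem pderiv_gser_ne (B m b : ℕ) (N : ℤ) (h : b ≠ 2 * m) : pderiv b (gser B m N) = 0 := by
  rw [gser, map_sum]
  refine Finset.sum_eq_zero fun k _ => ?_
  rw [pderiv_C_mul, pderiv_pow, pderiv_X, Pi.single_apply, if_neg (Ne.symm h)]
  simp

theorem pderiv_gser (B m : ℕ) :
    pderiv (2 * m) (gser B m (-1)) + X (2 * m) * gser B m (-1) =
      C (gam B (-1)) * X (2 * m) ^ (2 * B + 1) := by
  induction B with
  | zero => simp [gser, gam_zero]
  | succ B ih =>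
    have h1 : pderiv (2 * m) (C (gam (B + 1) (-1)) * X (2 * m) ^ (2 * (B + 1)) : MP) =
        C (gam (B + 1) (-1) * (2 * B + 2)) * X (2 * m) ^ (2 * B + 1) := by
      rw [pderiv_C_mul, pderiv_pow, pderiv_X_self, C_mul]
      have : 2 * (B + 1) - 1 = 2 * B + 1 := by omega
      rw [this]
      have h2 : (((2 * (B + 1) : ℕ) : MP)) = C (2 * (B : ℚ) + 2) := by
        have : (2 * (B : ℚ) + 2) = ((2 * (B + 1) : ℕ) : ℚ) := by push_cast; ring
        rw [this, map_natCast]
      rw [h2]
      ring
    rw [gser_succ, map_add, h1, gam_neg, C_neg]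
    have h3 : pderiv (2 * m) (gser B m (-1)) = C (gam B (-1)) * X (2 * m) ^ (2 * B + 1) -
        X (2 * m) * gser B m (-1) := by rw [← ih]; ring
    rw [h3]
    ring

/-- the product of the series of the blobs -/
noncomputable def E (B : ℕ) (N : ℤ) : ℕ → MP
  | 0 => 1
  | L + 1 => E B N L * gser B L N

theorem pderiv_E_odd (B : ℕ) (N : ℤ) (L m : ℕ) : pderiv (2 * m + 1) (E B N L) = 0 := by
  induction L with
  | zero => simp [E]
  | succ L ih =>
    rw [E, Derivation.leibniz, ih, pderiv_gser_ne _ _ _ _ (by omega)]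
    simp

theorem pderiv_E_big (B : ℕ) (N : ℤ) (L m : ℕ) (h : L ≤ m) : pderiv (2 * m) (E B N L) = 0 := by
  induction L with
  | zero => simp [E]
  | succ L ih =>
    rw [E, Derivation.leibniz, ih (by omega), pderiv_gser_ne _ _ _ _ (by omega)]
    simp

theorem pderiv_E (B : ℕ) (L m : ℕ) (h : m < L) :
    Lo (2 * B + 1) (pderiv (2 * m) (E B (-1) L) + X (2 * m) * E B (-1) L) := by
  induction L with
  | zero => omega
  | succ L ih =>
    rw [E, Derivation.leibniz, smul_eq_mul, smul_eq_mul]
    by_cases hm : m = L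
    · subst hm
      rw [pderiv_E_big _ _ _ _ le_rfl]
      have h1 : E B (-1) m * pderiv (2 * m) (gser B m (-1)) + gser B m (-1) * 0 +
          X (2 * m) * (E B (-1) m * gser B m (-1)) =
          E B (-1) m * (pderiv (2 * m) (gser B m (-1)) + X (2 * m) * gser B m (-1)) := by ring
      rw [h1, pderiv_gser]
      refine Lo.mul _ (Lo.mul _ ?_)
      rw [X_pow_eq_monomial]
      refine (Lo.monomial _ _).mono ?_
      rw [Finsupp.degree_single]
    · rw [pderiv_gser_ne _ _ _ _ (by omega)]
      have h1 : E B (-1) L * 0 + gser B L (-1) * pderiv (2 * m) (E B (-1) L) +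
          X (2 * m) * (E B (-1) L * gser B L (-1)) =
          gser B L (-1) * (pderiv (2 * m) (E B (-1) L) + X (2 * m) * E B (-1) L) := by ring
      rw [h1]
      exact (ih (by omega)).mul _

theorem cc_gser (B m : ℕ) (N : ℤ) : constantCoeff (gser B m N) = 1 := by
  rw [gser, map_sum, Finset.sum_range_succ', Finset.sum_eq_zero]
  · simp [gam_zero]
  · intro k _
    simp

theorem cc_E (B : ℕ) (N : ℤ) (L : ℕ) : constantCoeff (E B N L) = 1 := by
  induction L with
  | zero => simp [E]
  | succ L ih => rw [E, map_mul, ih, cc_gser, one_mul]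

/-- the conjugated operator -/
noncomputable def opB (a : ℕ) (f : MP) : MP :=
  (X a - X (2 * (a / 2))) * f + ∑ b ∈ nbs a, pderiv b f

/-- the conjugated operators of a word -/
noncomputable def wordB (w : List ℕ) : MP := w.foldr opB 1

theorem sum_nbs (a : ℕ) (F : ℕ → MP) (h : ∀ m, F (2 * m + 1) = 0) :
    ∑ b ∈ nbs a, F b = F (2 * (a / 2)) := by
  rcases Nat.even_or_odd' a with ⟨c, rfl | rfl⟩
  · have e1 : 2 * (2 * c / 2) = 2 * c := by omega
    rw [e1]
    cases c with
    | zero => simp [nbs]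
    | succ c =>
      rw [nbs, Finset.sum_insert (by rw [Finset.mem_singleton]; omega), Finset.sum_singleton]
      have : 2 * (c + 1) - 1 = 2 * c + 1 := by omega
      rw [this, h, add_zero]
  · have e1 : 2 * ((2 * c + 1) / 2) = 2 * c := by omega
    rw [e1, nbs, Finset.sum_insert (by rw [Finset.mem_singleton]; omega), Finset.sum_singleton, h,
      Nat.add_sub_cancel, zero_add]

theorem opA_E (B L a : ℕ) (ha : a < 2 * L) (g : MP) :
    Lo (2 * B + 1) (opA a (E B (-1) L * g) - E B (-1) L * opB a g) := by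
  have h1 : opA a (E B (-1) L * g) - E B (-1) L * opB a g =
      g * ((∑ b ∈ nbs a, pderiv b (E B (-1) L)) + X (2 * (a / 2)) * E B (-1) L) := by
    simp only [opA, opB, Derivation.leibniz, smul_eq_mul, Finset.sum_add_distrib, ← Finset.mul_sum]
    ring
  rw [h1, sum_nbs a _ (pderiv_E_odd B (-1) L)]
  exact (pderiv_E B L (a / 2) (by omega)).mul _

theorem wordA_E (B L : ℕ) (w : List ℕ) (hw : ∀ a ∈ w, a < 2 * L) (k : ℕ)
    (hk : k + w.length ≤ 2 * B + 2) :
    Lo k (wordA w (E B (-1) L) - E B (-1) L * wordB w) := by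
  induction w generalizing k with
  | nil => simpa [wordA, wordB] using Lo.zero k
  | cons a w ih =>
    rw [List.length_cons] at hk
    have h1 := ih (fun b hb => hw b (List.mem_cons_of_mem _ hb)) (k + 1) (by omega)
    have h2 : wordA (a :: w) (E B (-1) L) - E B (-1) L * wordB (a :: w) =
        opA a (wordA w (E B (-1) L) - E B (-1) L * wordB w) +
          (opA a (E B (-1) L * wordB w) - E B (-1) L * opB a (wordB w)) := by
      rw [opA_sub]
      show opA a (wordA w (E B (-1) L)) - E B (-1) L * opB a (wordB w) = _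
      ring
    rw [h2]
    exact (h1.opA a).add ((opA_E B L a (hw a (List.mem_cons_self ..)) _).mono (by omega))

theorem cc_wordA_E (B L : ℕ) (w : List ℕ) (hw : ∀ a ∈ w, a < 2 * L) (hk : w.length ≤ 2 * B + 1) :
    constantCoeff (wordA w (E B (-1) L)) = constantCoeff (wordB w) := by
  have h := (wordA_E B L w hw 1 (by omega)).cc
  rw [map_sub, map_mul, cc_E, one_mul] at h
  exact sub_eq_zero.1 h

end Pool.Agent.TH837.UI
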