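import Pool.Agent.TH837.UI.Lo
import Pool.Agent.H549R2.PM8

/-!
# The number of perfect matchings as a constant coefficient
-/

namespace Pool.Agent.TH837.UI

open MvPolynomial Finset
open Pool.Agent.H618R2.Skew (MP)

section

variable {V : Type*} [Fintype V] [DecidableEq V]

/-- perfect matchings of the induced subgraph on `s`, as involutions that are the identity
outside of `s` -/
def IsPM (G : SimpleGraph V) (s : Finset V) (f : V → V) : Prop :=
  (∀ x ∈ s, f x ∈ s ∧ f (f x) = x ∧ G.Adj x (f x)) ∧ ∀ x, x ∉ s → f x = x

open Classical in
/-- the number of perfect matchings of the induced subgraph on `s` -/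
noncomputable def pmS (G : SimpleGraph V) (s : Finset V) : ℕ :=
  (univ.filter (fun f : V → V => IsPM G s f)).card

theorem pmS_empty (G : SimpleGraph V) : pmS G ∅ = 1 := by
  classical
  rw [pmS, Finset.card_eq_one]
  refine ⟨id, ?_⟩
  ext f
  simp only [IsPM, Finset.mem_filter, Finset.mem_univ, true_and, Finset.notMem_empty,
    not_false_eq_true, forall_true_left, Finset.mem_singleton]
  constructor
  · rintro ⟨_, h⟩
    funext x
    exact h x
  · rintro rfl
    exact ⟨fun x h => h.elim, fun x => rfl⟩

open Classical in
theorem pmS_rec (G : SimpleGraph V) (s : Finset V) (v : V) (hv : v ∈ s) :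
    pmS G s = ∑ u ∈ s with G.Adj v u, pmS G ((s.erase v).erase u) := by
  rw [pmS, Finset.card_eq_sum_card_fiberwise (f := fun F : V → V => F v)
    (t := s.filter (G.Adj v))]
  · refine Finset.sum_congr rfl fun u hu => ?_
    rw [Finset.mem_filter] at hu
    obtain ⟨hus, hadj⟩ := hu
    have huv : u ≠ v := fun h => G.loopless.1 v (h ▸ hadj)
    rw [pmS]
    refine Finset.card_nbij' (fun F => Function.update (Function.update F v v) u u)
      (fun F => Function.update (Function.update F v u) u v) ?_ ?_ ?_ ?_
    · intro F hF
      simp only [Finset.coe_filter, Finset.mem_filter, Finset.mem_univ, true_and,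
        Set.mem_ofPred_eq] at hF ⊢
      obtain ⟨⟨h1, h2⟩, h3⟩ := hF
      have h4 : F u = v := by rw [← h3]; exact (h1 v hv).2.1
      constructor
      · intro x hx
        rw [Finset.mem_erase, Finset.mem_erase] at hx
        obtain ⟨hxu, hxv, hxs⟩ := hx
        obtain ⟨a1, a2, a3⟩ := h1 x hxs
        have b1 : F x ≠ v := by
          intro h
          rw [h, h3] at a2
          exact hxu a2.symm
        have b2 : F x ≠ u := by
          intro h
          rw [h, h4] at a2
          exact hxv a2.symm
        rw [Function.update_of_ne hxu, Function.update_of_ne hxv, Finset.mem_erase,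
          Finset.mem_erase, Function.update_of_ne b2, Function.update_of_ne b1]
        exact ⟨⟨b2, b1, a1⟩, a2, a3⟩
      · intro x hx
        rw [Finset.mem_erase, Finset.mem_erase] at hx
        by_cases hxu : x = u
        · subst hxu; simp
        · rw [Function.update_of_ne hxu]
          by_cases hxv : x = v
          · subst hxv; simp
          · rw [Function.update_of_ne hxv]
            exact h2 x fun h => hx ⟨hxu, hxv, h⟩
    · intro F hF
      simp only [Finset.coe_filter, Finset.mem_filter, Finset.mem_univ, true_and,
        Set.mem_ofPred_eq] at hF ⊢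
      obtain ⟨h1, h2⟩ := hF
      have hFv : Function.update (Function.update F v u) u v v = u := by
        rw [Function.update_of_ne huv.symm, Function.update_self]
      have hFu : Function.update (Function.update F v u) u v u = v := Function.update_self ..
      refine ⟨⟨?_, ?_⟩, hFv⟩
      · intro x hx
        by_cases hxu : x = u
        · subst hxu
          rw [hFu, hFv]
          exact ⟨hv, rfl, hadj.symm⟩
        · by_cases hxv : x = v
          · subst hxv
            rw [hFv, hFu]
            exact ⟨hus, rfl, hadj⟩
          · obtain ⟨a1, a2, a3⟩ := h1 x (by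
              rw [Finset.mem_erase, Finset.mem_erase]; exact ⟨hxu, hxv, hx⟩)
            rw [Finset.mem_erase, Finset.mem_erase] at a1
            rw [Function.update_of_ne hxu, Function.update_of_ne hxv,
              Function.update_of_ne a1.1, Function.update_of_ne a1.2.1]
            exact ⟨a1.2.2, a2, a3⟩
      · intro x hx
        have hxu : x ≠ u := fun h => hx (h ▸ hus)
        have hxv : x ≠ v := fun h => hx (h ▸ hv)
        rw [Function.update_of_ne hxu, Function.update_of_ne hxv]
        refine h2 x fun h => ?_
        rw [Finset.mem_erase, Finset.mem_erase] at h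
        exact hx h.2.2
    · intro F hF
      simp only [Finset.coe_filter, Finset.mem_filter, Finset.mem_univ, true_and,
        Set.mem_ofPred_eq] at hF
      obtain ⟨⟨h1, h2⟩, h3⟩ := hF
      have h4 : F u = v := by rw [← h3]; exact (h1 v hv).2.1
      funext x
      by_cases hxu : x = u
      · subst hxu
        simp [h4]
      · by_cases hxv : x = v
        · subst hxv
          simp [Function.update_of_ne hxu, h3]
        · simp [Function.update_of_ne hxu, Function.update_of_ne hxv]
    · intro F hF
      simp only [Finset.coe_filter, Finset.mem_filter, Finset.mem_univ, true_and,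
        Set.mem_ofPred_eq] at hF
      obtain ⟨h1, h2⟩ := hF
      have h3 : F v = v := h2 v (by simp)
      have h4 : F u = u := h2 u (by simp)
      funext x
      by_cases hxu : x = u
      · subst hxu
        simp [h4]
      · by_cases hxv : x = v
        · subst hxv
          simp [Function.update_of_ne hxu, h3]
        · simp [Function.update_of_ne hxu, Function.update_of_ne hxv]
  · intro F hF
    simp only [Finset.coe_filter, Finset.mem_filter, Finset.mem_univ, true_and,
        Set.mem_ofPred_eq] at hF ⊢
    exact ⟨(hF.1 v hv).1, (hF.1 v hv).2.2⟩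

/-- the number of perfect matchings, if the adjacency is given by the levels and a linear order -/
theorem pmS_eq (G : SimpleGraph V) (w : V → ℕ) (l : List V) (hl : l.Nodup)
    (hadj : l.Pairwise (fun v u => (G.Adj v u ↔ w u ∈ nbs (w v)))) :
    (pmS G l.toFinset : ℚ) = constantCoeff (Fl w l) := by
  classical
  induction hn : l.length using Nat.strong_induction_on generalizing l with
  | _ n ih =>
    cases l with
    | nil => simp [pmS_empty, Fl]
    | cons v l =>
      have hl' := List.nodup_cons.1 hl
      rw [List.pairwise_cons] at hadj
      rw [cc_Fl_cons w v l hl'.2, pmS_rec G (v :: l).toFinset v (by simp)]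
      push_cast
      have h1 : (v :: l).toFinset.erase v = l.toFinset := by
        rw [List.toFinset_cons, Finset.erase_insert (by simpa using hl'.1)]
      rw [h1]
      have h2 : (v :: l).toFinset.filter (G.Adj v) = l.toFinset.filter (fun u => w u ∈ nbs (w v)) := by
        ext u
        simp only [List.toFinset_cons, Finset.mem_filter, Finset.mem_insert, List.mem_toFinset]
        constructor
        · rintro ⟨h3 | h3, h4⟩
          · subst h3
            exact (G.loopless.1 _ h4).elim
          · exact ⟨h3, (hadj.1 u h3).1 h4⟩
        · rintro ⟨h3, h4⟩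
          exact ⟨Or.inr h3, (hadj.1 u h3).2 h4⟩
      rw [h2]
      refine Finset.sum_congr rfl fun u hu => ?_
      have hul : u ∈ l := by simpa using (Finset.mem_filter.1 hu).1
      rw [← erase_toFinset l hl'.2 u]
      refine ih (l.erase u).length ?_ (l.erase u) (hl'.2.erase u)
        (hadj.2.sublist (List.erase_sublist ..)) rfl
      rw [← hn, List.length_cons, List.length_erase_of_mem hul]
      omega

theorem pm_eq_pmS (G : SimpleGraph V) :
    Nat.card {M : G.Subgraph // M.IsPerfectMatching} = pmS G univ := by
  classical
  rw [Pool.Agent.H549R2.PM.card_pm, pmS, ← Fintype.card_subtype, ← Nat.card_eq_fintype_card]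
  refine Nat.card_congr (Equiv.subtypeEquivRight fun f => ?_)
  simp only [IsPM, Finset.mem_univ, true_and, forall_true_left, not_true_eq_false, false_imp_iff,
    implies_true, and_true]
  exact ⟨fun h x => ⟨h.1 x, h.2 x⟩, fun h => ⟨fun x => (h x).1, fun x => (h x).2⟩⟩

end

theorem Fl_finRange (w : List ℕ) (n : ℕ) (hn : n = w.length) :
    Fl (fun i : Fin n => w.getD i.val 0) (List.finRange n) = wordA w 1 := by
  subst hn
  have h : (List.finRange w.length).map (fun i => w.getD i.val 0) = w := by
    have h2 : (fun i : Fin w.length => w.getD i.val 0) = fun i => w.get i := by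
      funext i
      rw [List.getD_eq_getElem w 0 i.2]
      rfl
    rw [h2, ← List.ofFn_eq_map, List.ofFn_get]
  conv_rhs => rw [← h, wordA, List.foldr_map]
  rfl

/-- the interval model of a word `w`: intervals of length `w.length`, letter `a` at position `i`
starts in `(w.length + 1) * a + i` -/
def model (w : List ℕ) : List (ℕ × ℕ) :=
  w.mapIdx fun i a => ((w.length + 1) * a + i, (w.length + 1) * a + i + w.length)

theorem model_length (w : List ℕ) : (model w).length = w.length := by simp [model]

theorem model_get (w : List ℕ) (i : Fin (model w).length) :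
    (model w)[i] = ((w.length + 1) * w.getD i.val 0 + i.val,
      (w.length + 1) * w.getD i.val 0 + i.val + w.length) := by
  have h : i.val < w.length := lt_of_lt_of_eq i.2 (model_length w)
  rw [List.getD_eq_getElem w 0 h, Fin.getElem_fin]
  simp only [model, List.getElem_mapIdx]

theorem model_arith (n a b i j : ℕ) (hij : i < j) (hj : j < n) :
    (∃ t : ℕ, ((n + 1) * a + i ≤ t ∧ t ≤ (n + 1) * a + i + n) ∧
      ((n + 1) * b + j ≤ t ∧ t ≤ (n + 1) * b + j + n)) ↔ b = a ∨ b = a - 1 := by
  constructor
  · rintro ⟨t, ⟨h1, h2⟩, h3, h4⟩
    rcases Nat.lt_trichotomy a b with h | h | h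
    · exfalso
      have : (n + 1) * (a + 1) ≤ (n + 1) * b := Nat.mul_le_mul_left (n + 1) h
      rw [Nat.mul_add, Nat.mul_one] at this
      omega
    · left; exact h.symm
    · right
      by_contra hb
      have h5 : b + 2 ≤ a := by omega
      have : (n + 1) * (b + 2) ≤ (n + 1) * a := Nat.mul_le_mul_left (n + 1) h5
      rw [Nat.mul_add] at this
      omega
  · rintro (h | h)
    · subst h
      refine ⟨(n + 1) * b + j, ?_, ?_⟩ <;> omega
    · by_cases ha : a = 0
      · subst ha
        subst h
        refine ⟨(n + 1) * (0 - 1) + j, ?_, ?_⟩
        · simp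
          omega
        · simp
      · subst h
        obtain ⟨c, rfl⟩ : ∃ c, a = c + 1 := ⟨a - 1, by omega⟩
        rw [Nat.add_sub_cancel, Nat.mul_add, Nat.mul_one]
        refine ⟨(n + 1) * c + (n + 1) + i, ?_, ?_⟩ <;> omega

open Pool.Agent.H549R2.PM in
theorem model_adj (w : List ℕ) (i j : Fin (model w).length) (hij : i < j) :
    (intervalGraph (model w)).Adj i j ↔ w.getD j.val 0 ∈ nbs (w.getD i.val 0) := by
  have hj : j.val < w.length := lt_of_lt_of_eq j.2 (model_length w)
  show (i ≠ j ∧ ∃ t : ℕ, ((model w)[i].1 ≤ t ∧ t ≤ (model w)[i].2) ∧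
    ((model w)[j].1 ≤ t ∧ t ≤ (model w)[j].2)) ↔ _
  rw [model_get w i, model_get w j, nbs, Finset.mem_insert, Finset.mem_singleton]
  rw [model_arith w.length _ _ i.val j.val hij hj]
  exact ⟨fun h => h.2, fun h => ⟨ne_of_lt hij, h⟩⟩

open Pool.Agent.H549R2.PM in
/-- the number of perfect matchings of the interval graph of the model of a word -/
theorem pm_model (w : List ℕ) : (pm (model w) : ℚ) = constantCoeff (wordA w 1) := by
  classical
  have h1 : (univ : Finset (Fin (model w).length)) = (List.finRange (model w).length).toFinset := by
    ext x; simp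
  rw [pm, pm_eq_pmS, h1, pmS_eq (intervalGraph (model w)) (fun i => w.getD i.val 0)
    (List.finRange (model w).length) (List.nodup_finRange _)
    ((List.pairwise_lt_finRange (model w).length).imp fun {i j} hij => model_adj w i j hij),
    Fl_finRange w _ (model_length w)]

end Pool.Agent.TH837.UI
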