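import Pool.Agent.H618R2.Skew.T2

/-!
# Operators attached to words, and perfect matchings
-/

namespace Pool.Agent.TH837.UI

open MvPolynomial Finset
open Pool.Agent.H618R2.Skew (MP)

/-- the levels of the right neighbours of a vertex of level `a` -/
def nbs (a : ℕ) : Finset ℕ := {a, a - 1}

/-- the partial derivatives commute -/
theorem pderiv_comm (a b : ℕ) (f : MP) : pderiv a (pderiv b f) = pderiv b (pderiv a f) := by
  have h : ⁅(pderiv a : Derivation ℚ MP MP), (pderiv b : Derivation ℚ MP MP)⁆ = 0 := by
    apply MvPolynomial.derivation_ext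
    intro i
    rw [Derivation.commutator_apply, pderiv_X, pderiv_X]
    simp only [Derivation.coe_zero, Pi.zero_apply]
    by_cases h1 : b = i
    · subst h1
      by_cases h2 : a = b
      · subst h2; simp
      · simp [Pi.single_apply, h2, Ne.symm h2]
    · by_cases h2 : a = i
      · subst h2; simp [Pi.single_apply, h1]
      · simp [Pi.single_apply, Ne.symm h1, Ne.symm h2]
  have h2 := congrArg (fun D : Derivation ℚ MP MP => D f) h
  simp only [Derivation.commutator_apply, Derivation.coe_zero, Pi.zero_apply] at h2
  exact sub_eq_zero.1 h2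

/-- the operator of a letter -/
noncomputable def opA (a : ℕ) (f : MP) : MP := X a * f + ∑ b ∈ nbs a, pderiv b f

theorem opA_add (a : ℕ) (f g : MP) : opA a (f + g) = opA a f + opA a g := by
  simp only [opA, map_add, Finset.sum_add_distrib]
  ring

theorem opA_sum {ι : Type*} (a : ℕ) (s : Finset ι) (f : ι → MP) :
    opA a (∑ i ∈ s, f i) = ∑ i ∈ s, opA a (f i) := by
  classical
  induction s using Finset.induction_on with
  | empty => simp [opA]
  | insert i s hi ih => rw [Finset.sum_insert hi, Finset.sum_insert hi, opA_add, ih]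

theorem pderiv_opA (a b : ℕ) (f : MP) :
    pderiv b (opA a f) = opA a (pderiv b f) + (if a = b then f else 0) := by
  simp only [opA, map_add, map_sum, Derivation.leibniz, smul_eq_mul, pderiv_X]
  have h : ∀ c, pderiv b (pderiv c f) = pderiv c (pderiv b f) := fun c => pderiv_comm b c f
  simp only [h, Pi.single_apply]
  by_cases hab : a = b
  · subst hab
    simp only [if_true]
    ring
  · rw [if_neg hab, if_neg hab]
    ring

/-- the polynomial of a list of positions with levels `w` -/
noncomputable def Fl {V : Type*} (w : V → ℕ) (l : List V) : MP := l.foldr (fun v f => opA (w v) f) 1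

theorem Fl_cons {V : Type*} (w : V → ℕ) (v : V) (l : List V) :
    Fl w (v :: l) = opA (w v) (Fl w l) := rfl

section

variable {V : Type*} [DecidableEq V]

theorem erase_toFinset (l : List V) (hl : l.Nodup) (u : V) :
    (l.erase u).toFinset = l.toFinset.erase u := by
  ext x
  rw [List.mem_toFinset, hl.mem_erase_iff, Finset.mem_erase, List.mem_toFinset]

theorem pderiv_Fl (w : V → ℕ) (b : ℕ) (l : List V) (hl : l.Nodup) :
    pderiv b (Fl w l) = ∑ u ∈ l.toFinset with w u = b, Fl w (l.erase u) := by
  induction l with
  | nil => simp [Fl]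
  | cons v l ih =>
    rw [List.nodup_cons] at hl
    rw [Fl_cons, pderiv_opA, ih hl.2, opA_sum, List.toFinset_cons, Finset.filter_insert]
    have h1 : ∀ u ∈ l.toFinset.filter (fun u => w u = b),
        Fl w ((v :: l).erase u) = opA (w v) (Fl w (l.erase u)) := by
      intro u hu
      have hu' : u ∈ l := by simpa using (Finset.mem_filter.1 hu).1
      have hne : v ≠ u := by rintro rfl; exact hl.1 hu'
      rw [List.erase_cons_tail (by simpa using hne), Fl_cons]
    have h2 : ∑ u ∈ l.toFinset with w u = b, opA (w v) (Fl w (l.erase u)) =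
        ∑ u ∈ l.toFinset with w u = b, Fl w ((v :: l).erase u) :=
      Finset.sum_congr rfl fun u hu => (h1 u hu).symm
    rw [h2]
    by_cases hb : w v = b
    · rw [if_pos hb, if_pos hb, Finset.sum_insert (by
        rw [Finset.mem_filter]; intro h; exact hl.1 (by simpa using h.1)), List.erase_cons_head,
        add_comm]
    · rw [if_neg hb, if_neg hb, add_zero]

theorem cc_opA (a : ℕ) (f : MP) :
    constantCoeff (opA a f) = ∑ b ∈ nbs a, constantCoeff (pderiv b f) := by
  simp [opA]

theorem cc_Fl_cons (w : V → ℕ) (v : V) (l : List V) (hl : l.Nodup) :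
    constantCoeff (Fl w (v :: l)) =
      ∑ u ∈ l.toFinset with w u ∈ nbs (w v), constantCoeff (Fl w (l.erase u)) := by
  rw [Fl_cons, cc_opA]
  simp_rw [pderiv_Fl w _ l hl, map_sum]
  have h := Finset.sum_fiberwise_of_maps_to (s := l.toFinset.filter (fun u => w u ∈ nbs (w v)))
    (t := nbs (w v)) (g := w) (fun u hu => (Finset.mem_filter.1 hu).2)
    (fun u => constantCoeff (Fl w (l.erase u)))
  rw [← h]
  refine Finset.sum_congr rfl fun b hb => ?_
  congr 1
  ext u
  simp only [Finset.mem_filter]
  constructor
  · rintro ⟨h1, h2⟩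
    exact ⟨⟨h1, h2 ▸ hb⟩, h2⟩
  · rintro ⟨⟨h1, _⟩, h2⟩
    exact ⟨h1, h2⟩

end

end Pool.Agent.TH837.UI
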