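import Pool.Agent.H549R2.NRed

/-!
# Absolute values of alternating sums with denominators
-/

namespace Pool.Agent.TH837.UI

open Finset
open Pool.Agent.NPC Pool.Agent.NPC.Cnt
open Pool.Agent.NPC.H549Convex (poly_prod sum_filter_range_list)

/-- the product of the denominators -/
def dpr (n : ℕ) (den : ℕ → ℕ) : ℕ := ((List.range n).map den).prod

/-- the part of the sum with a given parity -/
def pal (n : ℕ) (par wt den ans : ℕ → ℕ) (b : ℕ) : ℕ :=
  (((List.range n).filter (fun x => decide (par x % 2 = b))).map
    (fun x => wt x * ans x * (dpr n den / den x))).sum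

/-- the absolute value of the sum, divided by `K` -/
def absAlt (n : ℕ) (par wt den ans : ℕ → ℕ) (K : ℕ) : ℕ :=
  ((pal n par wt den ans 0 - pal n par wt den ans 1) +
    (pal n par wt den ans 1 - pal n par wt den ans 0)) / (K * dpr n den)

theorem pal_congr (n : ℕ) (par wt den ans ans' : ℕ → ℕ) (b : ℕ) (h : ∀ x < n, ans x = ans' x) :
    pal n par wt den ans b = pal n par wt den ans' b := by
  rw [pal, pal, sum_filter_range_list, sum_filter_range_list]
  refine Finset.sum_congr rfl fun x hx => ?_
  rw [h x (Finset.mem_range.1 hx)]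

theorem absAlt_congr (n : ℕ) (par wt den ans ans' : ℕ → ℕ) (K : ℕ) (h : ∀ x < n, ans x = ans' x) :
    absAlt n par wt den ans K = absAlt n par wt den ans' K := by
  rw [absAlt, absAlt, pal_congr n par wt den ans ans' 0 h, pal_congr n par wt den ans ans' 1 h]

theorem dpr_eq (n : ℕ) (den : ℕ → ℕ) : dpr n den = ∏ x ∈ range n, den x := by
  rw [dpr]
  induction n with
  | zero => simp
  | succ n ih => rw [List.range_succ, List.map_append, List.prod_append, Finset.prod_range_succ, ih]; simp

theorem absAlt_eq (n : ℕ) (par wt den ans : ℕ → ℕ) (K T : ℕ) (hden : ∀ x < n, 0 < den x)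
    (hK : 0 < K) (s : ℚ) (hs : s * s = 1)
    (h : ∑ x ∈ range n, (-1 : ℚ) ^ par x * ((wt x : ℚ) * ((ans x : ℚ) / (den x : ℚ))) =
      s * ((K : ℚ) * T)) : absAlt n par wt den ans K = T := by
  have hPpos : 0 < dpr n den := by
    rw [dpr_eq]
    exact Finset.prod_pos fun x hx => hden x (Finset.mem_range.1 hx)
  have h1 : ((pal n par wt den ans 0 : ℕ) : ℚ) - (pal n par wt den ans 1 : ℕ) =
      (dpr n den : ℚ) * (s * ((K : ℚ) * T)) := by
    rw [← h, Finset.mul_sum, pal, pal, sum_filter_range_list, sum_filter_range_list, Nat.cast_sum,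
      Nat.cast_sum, ← Finset.sum_sub_distrib]
    refine Finset.sum_congr rfl fun x hx => ?_
    have hx' := Finset.mem_range.1 hx
    have hd : (den x : ℚ) ≠ 0 := by exact_mod_cast (hden x hx').ne'
    have hdv : den x ∣ dpr n den := by rw [dpr_eq]; exact Finset.dvd_prod_of_mem den hx
    have hc : ((dpr n den / den x : ℕ) : ℚ) = (dpr n den : ℚ) / den x := Nat.cast_div hdv hd
    rcases Nat.even_or_odd (par x) with he | ho
    · rw [he.neg_one_pow, one_mul]
      have e0 : par x % 2 = 0 := Nat.even_iff.1 he
      simp only [e0, decide_true, if_true, zero_ne_one, decide_false, Bool.false_eq_true, if_false]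
      push_cast
      rw [hc]
      field_simp
      ring
    · rw [ho.neg_one_pow]
      have e0 : par x % 2 = 1 := Nat.odd_iff.1 ho
      simp only [e0, decide_true, if_true, one_ne_zero, decide_false, Bool.false_eq_true, if_false]
      push_cast
      rw [hc]
      field_simp
      ring
  have hs2 : s = 1 ∨ s = -1 := by
    have : (s - 1) * (s + 1) = 0 := by linear_combination hs
    rcases mul_eq_zero.1 this with h2 | h2
    · left; linarith
    · right; linarith
  rw [absAlt]
  have h2 : (pal n par wt den ans 0 - pal n par wt den ans 1) +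
      (pal n par wt den ans 1 - pal n par wt den ans 0) = K * dpr n den * T := by
    rcases hs2 with rfl | rfl
    · have h3 : pal n par wt den ans 0 = pal n par wt den ans 1 + K * dpr n den * T := by
        have : ((pal n par wt den ans 0 : ℕ) : ℚ) =
            ((pal n par wt den ans 1 + K * dpr n den * T : ℕ) : ℚ) := by
          push_cast
          linear_combination h1
        exact_mod_cast this
      omega
    · have h3 : pal n par wt den ans 1 = pal n par wt den ans 0 + K * dpr n den * T := by
        have : ((pal n par wt den ans 1 : ℕ) : ℚ) =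
            ((pal n par wt den ans 0 + K * dpr n den * T : ℕ) : ℚ) := by
          push_cast
          linear_combination -h1
        exact_mod_cast this
      omega
  rw [h2]
  exact Nat.mul_div_cancel_left _ (Nat.mul_pos hK hPpos)

section

variable {α : Type} [TEnc α]

theorem dpr_p {n : α → ℕ} {den : α → ℕ → ℕ} (hn : UPoly n)
    (hd : Poly (fun p : α × ℕ => den p.1 p.2)) : Poly (fun a => dpr (n a) (den a)) :=
  poly_prod (NPC.Poly.map (F := fun a x => den a x) hn.range hd)

theorem pal_p {n : α → ℕ} {par wt den ans : α → ℕ → ℕ} (hn : UPoly n)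
    (hp : Poly (fun p : α × ℕ => par p.1 p.2)) (hw : Poly (fun p : α × ℕ => wt p.1 p.2))
    (hd : Poly (fun p : α × ℕ => den p.1 p.2)) (ha : Poly (fun p : α × ℕ => ans p.1 p.2)) (b : ℕ) :
    Poly (fun a => pal (n a) (par a) (wt a) (den a) (ans a) b) := by
  have h2 : Poly (fun a => (List.range (n a)).filter (fun x => decide (par a x % 2 = b))) :=
    NPC.Poly.filter (p := fun a x => decide (par a x % 2 = b)) hn.range
      (NPC.Poly.decide_eq (NPC.Poly.mod hp (NPC.Poly.const 2)) (NPC.Poly.const b))
  refine NPC.Poly.sum (NPC.Poly.map (F := fun a x => wt a x * ans a x * (dpr (n a) (den a) / den a x))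
    h2 ?_)
  exact NPC.Poly.mul (NPC.Poly.mul hw ha)
    (NPC.Poly.div ((dpr_p hn hd).comp (NPC.Poly.fst NPC.Poly.id)) hd)

theorem absAlt_p {n : α → ℕ} {par wt den ans : α → ℕ → ℕ} {K : α → ℕ} (hn : UPoly n)
    (hp : Poly (fun p : α × ℕ => par p.1 p.2)) (hw : Poly (fun p : α × ℕ => wt p.1 p.2))
    (hd : Poly (fun p : α × ℕ => den p.1 p.2)) (ha : Poly (fun p : α × ℕ => ans p.1 p.2))
    (hK : Poly K) : Poly (fun a => absAlt (n a) (par a) (wt a) (den a) (ans a) (K a)) := by
  have h0 := pal_p hn hp hw hd ha 0
  have h1 := pal_p hn hp hw hd ha 1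
  exact NPC.Poly.div (NPC.Poly.add (NPC.Poly.sub h0 h1) (NPC.Poly.sub h1 h0))
    (NPC.Poly.mul hK (dpr_p hn hd))

end

end Pool.Agent.TH837.UI
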