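import Pool.Agent.TH837.UI.Gates

/-!
# Programs
-/

namespace Pool.Agent.TH837.UI

open MvPolynomial Finset
open Pool.Agent.H618R2.Skew (MP)
open Pool.Agent.H618R2.Skew.T2 (PD Dle)

/-- rising factorial -/
noncomputable def ris (x : ℚ) (k : ℕ) : ℚ := ∏ i ∈ range k, (x + i)

theorem ris_pos (x : ℚ) (hx : 0 < x) (k : ℕ) : 0 < ris x k :=
  Finset.prod_pos fun i _ => by positivity

theorem fac_ris (n k : ℕ) : ((k + n).factorial : ℚ) = n.factorial * ris ((n : ℚ) + 1) k := by
  induction k with
  | zero => simp [ris]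
  | succ k ih =>
    have h1 : k + 1 + n = (k + n) + 1 := by ring
    have h2 : ris ((n : ℚ) + 1) (k + 1) = ris ((n : ℚ) + 1) k * ((n : ℚ) + 1 + k) :=
      Finset.prod_range_succ _ _
    rw [h1, Nat.factorial_succ, h2]
    push_cast
    rw [ih]
    ring

/-- coefficients of the substitution gate -/
noncomputable def qS (N : ℤ) (k : ℕ) : ℚ := ris N k / (k.factorial : ℚ)

/-- coefficients of the crossing gate -/
noncomputable def qC (D : ℕ) (N : ℤ) (k : ℕ) : ℚ :=
  ris ((N : ℚ) - 1) k * ris ((N : ℚ) + 1) k / (ris D k * (k.factorial : ℚ))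

theorem desc_eq (k n : ℕ) : (((k + n).descFactorial n : ℕ) : ℚ) = n.factorial * qS (n + 1 : ℕ) k := by
  have h1 : (k.factorial : ℚ) * ((k + n).descFactorial n : ℕ) = (k + n).factorial := by
    have := Nat.factorial_mul_descFactorial (show n ≤ k + n by omega)
    rw [Nat.add_sub_cancel] at this
    exact_mod_cast this
  have h2 : (k.factorial : ℚ) ≠ 0 := by exact_mod_cast k.factorial_ne_zero
  rw [fac_ris] at h1
  rw [qS]
  push_cast
  field_simp
  linear_combination h1

theorem desc_eq2 (k d t : ℕ) : (((k + (d + t)).descFactorial t : ℕ) : ℚ) *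
    ((k + (d + t + 2)).descFactorial (d + t + 2) : ℕ) =
    ((d + t).factorial * (d + t + 2).factorial / d.factorial) * qC (d + 1) (d + t + 2 : ℕ) k := by
  have h1 : ((k + d).factorial : ℚ) * ((k + (d + t)).descFactorial t : ℕ) =
      (k + (d + t)).factorial := by
    have := Nat.factorial_mul_descFactorial (show t ≤ k + (d + t) by omega)
    rw [show k + (d + t) - t = k + d by omega] at this
    exact_mod_cast this
  have h2 : (k.factorial : ℚ) ≠ 0 := by exact_mod_cast k.factorial_ne_zero
  have h3 : (d.factorial : ℚ) ≠ 0 := by exact_mod_cast d.factorial_ne_zero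
  have h4 : ris ((d : ℚ) + 1) k ≠ 0 := (ris_pos _ (by positivity) k).ne'
  rw [fac_ris, fac_ris] at h1
  have h5 := desc_eq k (d + t + 2)
  rw [h5, qC, qS]
  push_cast at h1 ⊢
  have e1 : (d : ℚ) + t + 2 - 1 = d + t + 1 := by ring
  rw [e1]
  have h6 : (((k + (d + t)).descFactorial t : ℕ) : ℚ) =
      (d + t).factorial * ris ((d : ℚ) + t + 1) k / (d.factorial * ris ((d : ℚ) + 1) k) := by
    rw [eq_div_iff (mul_ne_zero h3 h4)]
    linear_combination h1
  rw [h6]
  field_simp

/-- the substitution gate -/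
theorem gate_S (E a b n : ℕ) (hab : a ≠ b) (f : MP) (h : Dle f E) :
    dd a n (hh a b ^ n * f) = C (n.factorial : ℚ) * gop E a b (qS (n + 1 : ℕ)) f := by
  refine gop_of E a b hab (dd a n ∘ₗ LinearMap.mulLeft ℚ (hh a b ^ n)) _ _ (fun x k => ?_) f h
  have h1 : hh a b ^ n * (sub a b x * hh a b ^ k) = sub a b x * hh a b ^ (k + n) := by
    rw [pow_add]; ring
  rw [LinearMap.comp_apply, LinearMap.mulLeft_apply, h1, dd_mono a b hab, desc_eq,
    Nat.add_sub_cancel]

/-- the crossing gate -/
theorem gate_C (E a b d t : ℕ) (hab : a ≠ b) (f : MP) (h : Dle f E) :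
    dd a (d + t + 2) (hh a b ^ (t + 2) * dd a t (hh a b ^ (d + t) * f)) =
      C ((d + t).factorial * (d + t + 2).factorial / d.factorial : ℚ) *
        gop E a b (qC (d + 1) (d + t + 2 : ℕ)) f := by
  refine gop_of E a b hab (dd a (d + t + 2) ∘ₗ (LinearMap.mulLeft ℚ (hh a b ^ (t + 2)) ∘ₗ
    (dd a t ∘ₗ LinearMap.mulLeft ℚ (hh a b ^ (d + t))))) _ _ (fun x k => ?_) f h
  have h1 : hh a b ^ (d + t) * (sub a b x * hh a b ^ k) = sub a b x * hh a b ^ (k + (d + t)) := by
    rw [pow_add]; ring
  have e1 : k + (d + t) - t = k + d := by omega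
  rw [LinearMap.comp_apply, LinearMap.comp_apply, LinearMap.comp_apply, LinearMap.mulLeft_apply,
    LinearMap.mulLeft_apply, h1, dd_mono a b hab, e1]
  have h2 : hh a b ^ (t + 2) * (C (((k + (d + t)).descFactorial t : ℕ) : ℚ) *
      (sub a b x * hh a b ^ (k + d))) =
      C (((k + (d + t)).descFactorial t : ℕ) : ℚ) * (sub a b x * hh a b ^ (k + (d + t + 2))) := by
    have : k + (d + t + 2) = (t + 2) + (k + d) := by ring
    rw [this, pow_add _ (t + 2) (k + d)]; ring
  rw [h2, C_mul', map_smul, dd_mono a b hab, ← C_mul', ← mul_assoc, ← C_mul, desc_eq2,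
    Nat.add_sub_cancel]

/-! ### instructions -/

/-- the word of an instruction: kind `0`, `1`: substitution; `2`: multiplication; else: crossing -/
def wI (D N : ℕ) (I : ℕ × ℕ) : List ℕ :=
  if I.1 = 0 then List.replicate (N - 1) (2 * I.2) ++ List.replicate (N - 1) (2 * I.2 + 1)
  else if I.1 = 1 then
    List.replicate (N - 1) (2 * (I.2 + 1)) ++ List.replicate (N - 1) (2 * I.2 + 1)
  else if I.1 = 2 then [2 * I.2 + 1]
  else List.replicate N (2 * (I.2 + 1)) ++ (List.replicate (N + 1 - D) (2 * I.2 + 1) ++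
    (List.replicate (N - D - 1) (2 * (I.2 + 1)) ++ (List.replicate (N - 2) (2 * I.2 + 1) ++
    (List.replicate (D - 1) (2 * I.2) ++ List.replicate (D - 1) (2 * I.2 + 1)))))

/-- the normalisation of an instruction -/
def nI (N : ℕ) (I : ℕ × ℕ) : ℕ :=
  if I.1 = 0 then (N - 1).factorial else if I.1 = 1 then (N - 1).factorial
  else if I.1 = 2 then 1 else (N - 2).factorial * N.factorial

/-- the operator of an instruction -/
noncomputable def oI (E D : ℕ) (N : ℤ) (I : ℕ × ℕ) (f : MP) : MP :=
  if I.1 = 0 then gop E I.2 (I.2 + 1) (qS N) f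
  else if I.1 = 1 then gop E (I.2 + 1) I.2 (qS N) f
  else if I.1 = 2 then C (sg (2 * I.2 + 1)) * (hh (I.2 + 1) I.2 * f)
  else gop E (I.2 + 1) I.2 (qC D N) (gop E I.2 (I.2 + 1) (qS D) f)

theorem wordY_even (n j : ℕ) (f : MP) : wordY (List.replicate n (2 * j)) f = dd j n f := by
  induction n with
  | zero => rfl
  | succ n ih =>
    have e1 : 2 * j / 2 = j := by omega
    rw [List.replicate_succ, wordY_cons, ih, opY, if_pos (by omega), e1, dd_succ']

theorem wordY_odd (n j : ℕ) (f : MP) :
    wordY (List.replicate n (2 * j + 1)) f = hh (j + 1) j ^ n * f := by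
  induction n with
  | zero => simp [wordY]
  | succ n ih =>
    have e1 : (2 * j + 1) / 2 = j := by omega
    rw [List.replicate_succ, wordY_cons, ih, opY, if_neg (by omega), e1, pow_succ]
    have : hh (j + 1) j = X (j + 1) - X j := rfl
    rw [this]
    ring

theorem hh_neg (a b : ℕ) : hh a b = -hh b a := by rw [hh, hh]; ring

theorem sgw_rep (n a : ℕ) : sgw (List.replicate n a) = sg a ^ n := by
  rw [sgw, List.map_replicate, List.prod_replicate]

theorem sg_even (j : ℕ) : sg (2 * j) = (-1) ^ j := by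
  have : (2 * j + 1) / 2 = j := by omega
  rw [sg, this]

theorem sg_odd (j : ℕ) : sg (2 * j + 1) = (-1) ^ (j + 1) := by
  have : (2 * j + 1 + 1) / 2 = j + 1 := by omega
  rw [sg, this]

theorem neg_sq (j : ℕ) : ((-1 : ℚ) ^ j) * (-1) ^ j = 1 := by rw [← mul_pow]; simp

theorem sg_sq (a : ℕ) : sg a * sg a = 1 := neg_sq _

theorem sgw_sq (w : List ℕ) : sgw w * sgw w = 1 := by
  induction w with
  | nil => simp [sgw]
  | cons a w ih =>
    have h0 : sgw (a :: w) = sg a * sgw w := by rw [sgw, List.map_cons, List.prod_cons]; rfl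
    have h1 : sg a * sgw w * (sg a * sgw w) = (sg a * sg a) * (sgw w * sgw w) := by ring
    rw [h0, h1, ih, sg_sq, one_mul]

theorem gate_SR (E j n : ℕ) (f : MP) (h : Dle f E) :
    wordY (List.replicate n (2 * j) ++ List.replicate n (2 * j + 1)) f =
      C (sgw (List.replicate n (2 * j) ++ List.replicate n (2 * j + 1)) * (n.factorial : ℚ)) *
        gop E j (j + 1) (qS (n + 1 : ℕ)) f := by
  rw [wordY_append, wordY_even, wordY_odd, sgw_append, sgw_rep, sgw_rep, sg_even, sg_odd,
    hh_neg (j + 1) j, neg_pow (hh j (j + 1)) n, mul_assoc, ← mul_pow]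
  have e1 : ((-1 : ℚ) ^ j * (-1) ^ (j + 1)) = -1 := by
    rw [pow_succ, ← mul_assoc, neg_sq, one_mul]
  have e2 : ((-1 : MP)) ^ n = C ((-1 : ℚ) ^ n) := by simp
  rw [e1, e2, C_mul', map_smul, gate_S E j (j + 1) n (by omega) f h, ← C_mul', ← mul_assoc,
    ← C_mul]

theorem gate (E D N : ℕ) (hD : 1 ≤ D) (hN : D + 1 ≤ N) (I : ℕ × ℕ) (f : MP) (h : Dle f E) :
    wordY (wI D N I) f = C (sgw (wI D N I) * (nI N I : ℚ)) * oI E D (N : ℤ) I f := by
  obtain ⟨kd, j⟩ := I
  unfold wI nI oI
  by_cases h0 : kd = 0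
  · simp only [h0, if_true]
    have := gate_SR E j (N - 1) f h
    rw [show N - 1 + 1 = N by omega] at this
    exact this
  · simp only [h0, if_false]
    by_cases h1 : kd = 1
    · simp only [h1, if_true]
      rw [wordY_append, wordY_even, wordY_odd, sgw_append, sgw_rep, sgw_rep, sg_even, sg_odd,
        ← mul_pow, neg_sq, one_pow, one_mul, gate_S E (j + 1) j (N - 1) (by omega) f h,
        show N - 1 + 1 = N by omega]
    · simp only [h1, if_false]
      by_cases h2 : kd = 2
      · simp only [h2, if_true]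
        have := wordY_odd 1 j f
        rw [pow_one, List.replicate_one] at this
        rw [this, Nat.cast_one, mul_one, sgw, List.map_cons, List.map_nil, List.prod_cons,
          List.prod_nil, mul_one, ← mul_assoc (C (sg (2 * j + 1))) (C (sg (2 * j + 1))), ← C_mul,
          sg_sq, C_1, one_mul]
      · simp only [h2, if_false]
        obtain ⟨d, rfl⟩ : ∃ d, D = d + 1 := ⟨D - 1, by omega⟩
        obtain ⟨t, rfl⟩ : ∃ t, N = d + t + 2 := ⟨N - d - 2, by omega⟩
        rw [show d + t + 2 + 1 - (d + 1) = t + 2 by omega, show d + t + 2 - (d + 1) - 1 = t by omega,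
          show d + t + 2 - 2 = d + t by omega, show d + 1 - 1 = d by omega]
        rw [wordY_append, wordY_append, wordY_append, wordY_append, gate_SR E j d f h, wordY_odd,
          wordY_even, wordY_odd, wordY_even]
        set g := gop E j (j + 1) (qS (d + 1 : ℕ)) f with hg
        have hgD : Dle g E := Dle_gop _ _ _ _ h
        set c := sgw (List.replicate d (2 * j) ++ List.replicate d (2 * j + 1)) with hc
        have e1 : dd (j + 1) (d + t + 2) (hh (j + 1) j ^ (t + 2) * dd (j + 1) t
            (hh (j + 1) j ^ (d + t) * (C (c * (d.factorial : ℚ)) * g))) =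
            C (c * (d.factorial : ℚ)) * dd (j + 1) (d + t + 2) (hh (j + 1) j ^ (t + 2) *
              dd (j + 1) t (hh (j + 1) j ^ (d + t) * g)) := by
          rw [mul_left_comm, C_mul', map_smul, ← C_mul', mul_left_comm, C_mul', map_smul, ← C_mul']
        rw [e1, gate_C E (j + 1) j d t (by omega) g hgD, ← mul_assoc, ← C_mul]
        congr 2
        rw [sgw_append, sgw_append, sgw_append, sgw_append, ← hc, sgw_rep, sgw_rep, sgw_rep,
          sgw_rep, sg_even, sg_odd]
        have e2 : ((-1 : ℚ) ^ (j + 1)) ^ (d + t + 2) * (((-1) ^ (j + 1)) ^ (t + 2) *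
            (((-1) ^ (j + 1)) ^ t * (((-1) ^ (j + 1)) ^ (d + t) * c))) = c := by
          have : ∀ x : ℚ, x * x = 1 → x ^ (d + t + 2) * (x ^ (t + 2) * (x ^ t *
              (x ^ (d + t) * c))) = c := by
            intro x hx
            have e3 : x ^ (d + t + 2) * (x ^ (t + 2) * (x ^ t * (x ^ (d + t) * c))) =
                (x * x) ^ (d + t) * (x * x) ^ t * (x * x) * (x * x) * c := by ring
            rw [e3, hx]
            simp
          exact this _ (neg_sq _)
        rw [e2]
        have h3 : (d.factorial : ℚ) ≠ 0 := by exact_mod_cast d.factorial_ne_zero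
        push_cast
        field_simp

/-! ### programs -/

/-- the word of a program; the first instruction is at the right end -/
def wordP (D N : ℕ) (Q : List (ℕ × ℕ)) : List ℕ := Q.reverse.flatMap (wI D N)

theorem wordP_cons (D N : ℕ) (I : ℕ × ℕ) (Q : List (ℕ × ℕ)) :
    wordP D N (I :: Q) = wordP D N Q ++ wI D N I := by
  rw [wordP, List.reverse_cons, List.flatMap_append]
  simp [wordP]

/-- the normalisation of a program -/
def nP (N : ℕ) (Q : List (ℕ × ℕ)) : ℕ := (Q.map (nI N)).prod

theorem nI_pos (N : ℕ) (I : ℕ × ℕ) : 0 < nI N I := by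
  unfold nI
  split_ifs <;> positivity

theorem nP_pos (N : ℕ) (Q : List (ℕ × ℕ)) : 0 < nP N Q := by
  rw [nP]
  apply Nat.pos_of_ne_zero
  intro h
  rw [List.prod_eq_zero_iff, List.mem_map] at h
  obtain ⟨I, _, hI⟩ := h
  exact (nI_pos N I).ne' hI

/-- the operator of a program -/
noncomputable def runP (E D : ℕ) (N : ℤ) (Q : List (ℕ × ℕ)) (f : MP) : MP :=
  Q.foldl (fun f I => oI E D N I f) f

theorem runP_cons (E D : ℕ) (N : ℤ) (I : ℕ × ℕ) (Q : List (ℕ × ℕ)) (f : MP) :
    runP E D N (I :: Q) f = runP E D N Q (oI E D N I f) := rfl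

theorem runP_append (E D : ℕ) (N : ℤ) (Q Q' : List (ℕ × ℕ)) (f : MP) :
    runP E D N (Q ++ Q') f = runP E D N Q' (runP E D N Q f) := by
  rw [runP, List.foldl_append]; rfl

/-- number of multiplications of a program -/
def mu (Q : List (ℕ × ℕ)) : ℕ := (Q.filter (fun I => decide (I.1 = 2))).length

theorem Dle_oI (E D : ℕ) (N : ℤ) (I : ℕ × ℕ) {f : MP} {g : ℕ} (h : Dle f g) :
    Dle (oI E D N I f) ((g + if I.1 = 2 then 1 else 0 : ℕ) : ℤ) := by
  unfold oI
  by_cases h0 : I.1 = 0
  · rw [if_pos h0]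
    exact (Dle_gop _ _ _ _ h).mono (by push_cast; omega)
  · rw [if_neg h0]
    by_cases h1 : I.1 = 1
    · rw [if_pos h1]
      exact (Dle_gop _ _ _ _ h).mono (by push_cast; omega)
    · rw [if_neg h1]
      by_cases h2 : I.1 = 2
      · rw [if_pos h2, if_pos h2]
        refine ((Dle.C _).mul ((Dle_hh _ _).mul h)).mono ?_
        push_cast
        linarith
      · rw [if_neg h2, if_neg h2]
        exact (Dle_gop _ _ _ _ (Dle_gop _ _ _ _ h)).mono (by push_cast; omega)

theorem mu_cons (I : ℕ × ℕ) (Q : List (ℕ × ℕ)) :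
    mu (I :: Q) = mu Q + if I.1 = 2 then 1 else 0 := by
  rw [mu, List.filter_cons]
  by_cases h : I.1 = 2
  · simp [h, mu]
  · simp [h, mu]

theorem wordP_eq (E D N : ℕ) (hD : 1 ≤ D) (hN : D + 1 ≤ N) (Q : List (ℕ × ℕ)) (f : MP) (g : ℕ)
    (h : Dle f g) (hE : g + mu Q ≤ E) :
    wordY (wordP D N Q) f = C (sgw (wordP D N Q) * (nP N Q : ℚ)) * runP E D (N : ℤ) Q f := by
  induction Q generalizing f g with
  | nil => simp [wordP, wordY, nP, runP, sgw]
  | cons I Q ih =>
    rw [mu_cons] at hE
    have hY : ∀ (c : ℚ) (w : List ℕ) (f : MP), wordY w (C c * f) = C c * wordY w f := by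
      intro c w f
      induction w with
      | nil => rfl
      | cons a w ih =>
        rw [wordY_cons, wordY_cons, ih, opY, opY]
        split_ifs
        · rw [pderiv_C_mul]
        · ring
    rw [wordP_cons, wordY_append, gate E D N hD hN I f (h.mono (by push_cast; omega)), hY,
      ih _ _ (Dle_oI E D N I h) (by omega), runP_cons, sgw_append, ← mul_assoc, ← C_mul]
    have e1 : nP N (I :: Q) = nI N I * nP N Q := by rw [nP, List.map_cons, List.prod_cons]; rfl
    rw [e1]
    congr 2
    push_cast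
    ring

/-! ### polynomial dependence -/

theorem PD_congr {B : ℕ} {F F' : ℤ → MP} (h : PD B F) (h' : ∀ M, F M = F' M) : PD B F' := by
  rw [← funext h']; exact h

theorem PD_ris (a : ℤ) (k : ℕ) : PD k (fun N => C (ris ((N : ℚ) + a) k)) := by
  induction k with
  | zero => simpa [ris] using PD.const 1
  | succ k ih =>
    have h2 := PD.lin 1 a (-(k : ℚ))
    have h3 := ih.mul h2
    refine PD_congr h3 fun N => ?_
    rw [← C_mul, ris, ris, Finset.prod_range_succ]
    congr 2
    push_cast
    ring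

theorem PD_qS (k : ℕ) : PD k (fun N => C (qS N k)) := by
  have h2 := (PD_ris 0 k).mul (PD.const (C ((k.factorial : ℚ)⁻¹)))
  refine PD_congr (h2.mono (by omega)) fun N => ?_
  rw [← C_mul, qS, Int.cast_zero, add_zero, div_eq_mul_inv]

theorem PD_qC (D k : ℕ) : PD (2 * k) (fun N => C (qC D N k)) := by
  have h2 := ((PD_ris (-1) k).mul (PD_ris 1 k)).mul
    (PD.const (C ((ris D k * (k.factorial : ℚ))⁻¹)))
  refine PD_congr (h2.mono (by omega)) fun N => ?_
  rw [← C_mul, ← C_mul, qC, div_eq_mul_inv]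
  push_cast
  ring_nf

/-- the component as a linear map -/
noncomputable def TkL (a b k : ℕ) : MP →ₗ[ℚ] MP where
  toFun := Tk a b k
  map_add' := Tk_add a b k
  map_smul' c f := by
    rw [RingHom.id_apply, Tk, Tk, map_smul, map_smul, smul_mul_assoc, mul_smul_comm]

theorem PD_gop (E a b : ℕ) (q : ℤ → ℕ → ℚ) (F : ℤ → MP) (B : ℕ)
    (hq : ∀ k, PD (2 * k) (fun N => C (q N k))) (hF : PD B F) :
    PD (B + 2 * E) (fun N => gop E a b (q N) (F N)) := by
  unfold gop
  refine PD.sum _ _ _ fun k hk => ?_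
  rw [mem_range] at hk
  have := (hq k).mul (hF.linMap (TkL a b k))
  exact this.mono (by omega)

theorem PD_oI (E D : ℕ) (I : ℕ × ℕ) (F : ℤ → MP) (B : ℕ) (hF : PD B F) :
    PD (B + 4 * E) (fun N => oI E D N I (F N)) := by
  unfold oI
  by_cases h0 : I.1 = 0
  · simp only [if_pos h0]
    exact (PD_gop E _ _ (fun N => qS N) F B (fun k => (PD_qS k).mono (by omega)) hF).mono
      (by omega)
  · simp only [if_neg h0]
    by_cases h1 : I.1 = 1
    · simp only [if_pos h1]
      exact (PD_gop E _ _ (fun N => qS N) F B (fun k => (PD_qS k).mono (by omega)) hF).mono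
        (by omega)
    · simp only [if_neg h1]
      by_cases h2 : I.1 = 2
      · simp only [if_pos h2]
        have := (PD.const (C (sg (2 * I.2 + 1)) : MP)).mul
          ((PD.const (hh (I.2 + 1) I.2)).mul hF)
        exact this.mono (by omega)
      · simp only [if_neg h2]
        have h3 := PD_gop E I.2 (I.2 + 1) (fun _ => qS D) F B
          (fun k => (PD.const _).mono (by omega)) hF
        have h4 := PD_gop E (I.2 + 1) I.2 (fun N => qC D N) _ _ (fun k => PD_qC D k) h3
        exact h4.mono (by omega)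

theorem PD_runP (E D : ℕ) (Q : List (ℕ × ℕ)) (F : ℤ → MP) (B : ℕ) (hF : PD B F) :
    PD (B + Q.length * (4 * E)) (fun N => runP E D N Q (F N)) := by
  induction Q generalizing F B with
  | nil => simpa [runP] using hF
  | cons I Q ih =>
    have := ih _ _ (PD_oI E D I F B hF)
    refine this.mono ?_
    rw [List.length_cons, add_mul, one_mul]
    omega

end Pool.Agent.TH837.UI
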