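import Pool.Agent.TH837.UI.Edge
import Pool.Agent.TH837.UI.Post
import Pool.Agent.H618R2.Skew.T4

/-!
# From the permanent to the values of words
-/

namespace Pool.Agent.TH837.UI

open MvPolynomial Finset
open Pool.Agent.H618R2.Skew Pool.Agent.H549R2.Convex
open Pool.Agent.H618R2.Skew.T2 (PD Dle)

/-- the factor of the multiplicity parameter -/
def kap (A : List (List Bool)) : ℕ := nK A + 2

/-- bound for the degree in the multiplicity parameter -/
def nR (A : List (List Bool)) : ℕ := (prog A).length * (4 * nE A)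

theorem poly_N (A : List (List Bool)) (D : ℕ) :
    ∃ P : Polynomial ℚ, P.natDegree ≤ nR A ∧ ∀ M : ℤ,
      coeff (ex A) (runP (nE A) D ((kap A : ℤ) * M) (prog A) 1) = P.eval (M : ℚ) := by
  obtain ⟨P, hP1, hP2⟩ := PD_runP (nE A) D (prog A) (fun _ => 1) 0 (PD.const 1)
  rw [zero_add] at hP1
  set P' : Polynomial ℚ := ∑ i ∈ range (nR A + 1),
    Polynomial.C (coeff (ex A) (P.coeff i)) * Polynomial.X ^ i with hP'
  refine ⟨P'.comp (Polynomial.C ((kap A : ℕ) : ℚ) * Polynomial.X), ?_, fun M => ?_⟩
  · refine (Polynomial.natDegree_comp_le).trans ?_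
    have h1 : (Polynomial.C ((kap A : ℕ) : ℚ) * Polynomial.X).natDegree ≤ 1 :=
      (Polynomial.natDegree_C_mul_le _ _).trans Polynomial.natDegree_X_le
    have h2 : P'.natDegree ≤ nR A := by
      refine Polynomial.natDegree_sum_le_of_forall_le _ _ fun i hi => ?_
      rw [mem_range] at hi
      exact (Polynomial.natDegree_C_mul_X_pow_le _ _).trans (by omega)
    calc P'.natDegree * (Polynomial.C ((kap A : ℕ) : ℚ) * Polynomial.X).natDegree
        ≤ nR A * 1 := Nat.mul_le_mul h2 h1
      _ = nR A := mul_one _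
  · have h3 := hP2 ((kap A : ℤ) * M)
    simp only at h3
    rw [h3, Polynomial.eval_eq_sum_range' (Nat.lt_succ_of_le hP1), coeff_sum,
      Polynomial.eval_comp, hP', Polynomial.eval_finsetSum]
    refine Finset.sum_congr rfl fun i _ => ?_
    rw [Polynomial.eval_C_mul, Polynomial.eval_pow, Polynomial.eval_X, ← C_pow, mul_comm,
      coeff_C_mul, Polynomial.eval_mul, Polynomial.eval_C, Polynomial.eval_X]
    push_cast
    ring

/-- one term, without the weight -/
noncomputable def tmV (A : List (List Bool)) (D m : ℕ) : ℚ :=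
  (val (WW A D (kap A * (m + 1))) : ℚ) / (nP (kap A * (m + 1)) (prog A) : ℚ)

theorem sum_M (A : List (List Bool)) (D : ℕ) (hD1 : 1 ≤ D) (hD2 : D ≤ nK A + 1) :
    ∑ m ∈ range (nR A + 1), (-1 : ℚ) ^ m * ((nR A + 1).choose (m + 1) : ℚ) * tmV A D m =
      sgw (fin A (2 * A.length)) * (fF A : ℚ) *
        (sE (edgesE A) * (D : ℚ)⁻¹ ^ nK A * coeff (ex A) (SD A D)) := by
  obtain ⟨P, hP1, hP2⟩ := poly_N A D
  have h0 := hP2 0
  rw [mul_zero, prog_zero (nE A) D (by rw [nE]; omega) hD1 A, coeff_C_mul, coeff_rn, Int.cast_zero,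
    ← fd_zero P (nR A) hP1] at h0
  rw [h0, Finset.mul_sum]
  refine Finset.sum_congr rfl fun m _ => ?_
  have hN : D + 1 ≤ kap A * (m + 1) := by
    have : kap A * 1 ≤ kap A * (m + 1) := Nat.mul_le_mul_left _ (by omega)
    rw [mul_one] at this
    rw [kap] at this ⊢
    omega
  have h1 := hP2 ((m + 1 : ℕ) : ℤ)
  have e1 : (kap A : ℤ) * ((m + 1 : ℕ) : ℤ) = ((kap A * (m + 1) : ℕ) : ℤ) := by push_cast; ring
  rw [e1] at h1
  rw [tmV, val_WW A D _ hD1 hN, h1]
  push_cast
  ring

/-- the reduction identity -/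
theorem reduction (A : List (List Bool)) (hsq : ∀ r ∈ A, r.length = A.length)
    (hdeg : ∀ j < A.length, 1 ≤ degL A j) :
    ∑ j ∈ range (nK A + 1), ∑ m ∈ range (nR A + 1), (-1 : ℚ) ^ (nK A + j + m) *
        (((nK A).choose j : ℚ) * ((nR A + 1).choose (m + 1) : ℚ) * ((j : ℚ) + 1) ^ nK A *
          tmV A (j + 1) m) =
      (sgw (fin A (2 * A.length)) * sE (edgesE A) * (-1) ^ ((edgesE A).length + A.length)) *
        (((fF A : ℚ) * (nK A).factorial) * (F A : ℚ)) := by
  obtain ⟨Q, hQ1, hQ2, hQ3⟩ := poly_D A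
  have h := fd_lead Q (nK A) hQ1
  rw [hQ2, coeff_graph A hsq hdeg] at h
  have h2 : ∀ j ∈ range (nK A + 1), ∑ m ∈ range (nR A + 1), (-1 : ℚ) ^ (nK A + j + m) *
        (((nK A).choose j : ℚ) * ((nR A + 1).choose (m + 1) : ℚ) * ((j : ℚ) + 1) ^ nK A *
          tmV A (j + 1) m) = sgw (fin A (2 * A.length)) * sE (edgesE A) * (fF A : ℚ) *
        ((-1 : ℚ) ^ (nK A + j) * ((nK A).choose j : ℚ) * Q.eval ((j : ℚ) + 1)) := by
    intro j hj
    rw [mem_range] at hj
    have h3 := hQ3 (j + 1)
    have h4 := sum_M A (j + 1) (by omega) (by omega)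
    have h5 : ∑ m ∈ range (nR A + 1), (-1 : ℚ) ^ (nK A + j + m) *
        (((nK A).choose j : ℚ) * ((nR A + 1).choose (m + 1) : ℚ) * ((j : ℚ) + 1) ^ nK A *
          tmV A (j + 1) m) = (-1 : ℚ) ^ (nK A + j) * ((nK A).choose j : ℚ) * ((j : ℚ) + 1) ^ nK A *
        ∑ m ∈ range (nR A + 1), (-1 : ℚ) ^ m * ((nR A + 1).choose (m + 1) : ℚ) *
          tmV A (j + 1) m := by
      rw [Finset.mul_sum]
      refine Finset.sum_congr rfl fun m _ => ?_
      rw [pow_add]
      ring
    push_cast at h3 h4
    rw [← h3, h5, h4]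
    have h6 : ((j : ℚ) + 1) ≠ 0 := by positivity
    have h7 : ((j : ℚ) + 1) ^ nK A * ((j : ℚ) + 1)⁻¹ ^ nK A = 1 := by
      rw [← mul_pow, mul_inv_cancel₀ h6, one_pow]
    have h8 : coeff (∑ v ∈ range (2 * A.length), Finsupp.single v (dL A v)) (SD A (j + 1)) =
        coeff (ex A) (SD A (j + 1)) := rfl
    rw [h8]
    linear_combination ((-1 : ℚ) ^ (nK A + j) * ((nK A).choose j : ℚ) *
      (sgw (fin A (2 * A.length)) * (fF A : ℚ) * (sE (edgesE A) *
        coeff (ex A) (SD A (j + 1))))) * h7
  rw [Finset.sum_congr rfl h2, ← Finset.mul_sum, h]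
  ring

end Pool.Agent.TH837.UI

namespace Pool.Agent.NPC.TH837UI

open Pool.Agent.TH837.UI Pool.Agent.H618R2.Skew Pool.Agent.H549R2.Convex Pool.Agent.NPC.Cnt
open Pool.Agent.NPC.H549Convex (LL poly_prod upoly_fact upoly_choose ent_poly dL_poly dL_upoly degL_poly
  sqB sqB_poly degB degB_poly fp_of_poly)
open Pool.Agent.NPC.H549PM (upoly_min)
open Pool.Agent.NPC.H618Skew (edgesE_poly nK_u sum_range_mul F_nil)
open Pool.Agent.NPC.H549NRed (NRed)

variable {α : Type} [TEnc α]

theorem rep_p {β : Type} [TEnc β] {n : α → ℕ} {c : α → β} (hn : UPoly n) (hc : Poly c) :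
    Poly (fun a => List.replicate (n a) (c a)) := by
  have h : Poly (fun a => (List.range (n a)).map (fun _ => c a)) :=
    Poly.map (F := fun a (_ : ℕ) => c a) hn.range (hc.comp (Poly.fst Poly.id))
  refine h.congr fun a => ?_
  rw [List.map_const', List.length_range]

theorem wI_p {D N : α → ℕ} {I : α → ℕ × ℕ} (hD : UPoly D) (hN : UPoly N) (hI : Poly I) :
    Poly (fun a => wI (D a) (N a) (I a)) := by
  have hk : Poly (fun a => (I a).1) := Poly.fst hI
  have hj : Poly (fun a => (I a).2) := Poly.snd hI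
  have h0 : Poly (fun a => 2 * (I a).2) := Poly.mul (Poly.const 2) hj
  have h1 : Poly (fun a => 2 * (I a).2 + 1) := Poly.succ h0
  have h2 : Poly (fun a => 2 * ((I a).2 + 1)) := Poly.mul (Poly.const 2) (Poly.succ hj)
  have u1 : UPoly (fun a => N a - 1) := UPoly.of_le (Poly.sub hN.toPoly (Poly.const 1)) hN
    fun a => Nat.sub_le _ _
  have u2 : UPoly (fun a => N a + 1 - D a) := UPoly.of_le
    (Poly.sub (Poly.succ hN.toPoly) hD.toPoly) (UPoly.add hN (UPoly.const 1)) fun a => Nat.sub_le _ _
  have u3 : UPoly (fun a => N a - D a - 1) := UPoly.of_le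
    (Poly.sub (Poly.sub hN.toPoly hD.toPoly) (Poly.const 1)) hN fun a => by omega
  have u4 : UPoly (fun a => N a - 2) := UPoly.of_le (Poly.sub hN.toPoly (Poly.const 2)) hN
    fun a => Nat.sub_le _ _
  have u5 : UPoly (fun a => D a - 1) := UPoly.of_le (Poly.sub hD.toPoly (Poly.const 1)) hD
    fun a => Nat.sub_le _ _
  unfold wI
  refine Poly.ite (p := fun a => (I a).1 = 0) (Poly.decide_eq hk (Poly.const 0))
    (Poly.append (rep_p u1 h0) (rep_p u1 h1)) ?_
  refine Poly.ite (p := fun a => (I a).1 = 1) (Poly.decide_eq hk (Poly.const 1))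
    (Poly.append (rep_p u1 h2) (rep_p u1 h1)) ?_
  refine Poly.ite (p := fun a => (I a).1 = 2) (Poly.decide_eq hk (Poly.const 2))
    (Poly.cons h1 (Poly.const [])) ?_
  exact Poly.append (rep_p hN h2) (Poly.append (rep_p u2 h1) (Poly.append (rep_p u3 h2)
    (Poly.append (rep_p u4 h1) (Poly.append (rep_p u5 h0) (rep_p u5 h1)))))

theorem nI_p {N : α → ℕ} {I : α → ℕ × ℕ} (hN : UPoly N) (hI : Poly I) :
    Poly (fun a => nI (N a) (I a)) := by
  have hk : Poly (fun a => (I a).1) := Poly.fst hI
  have u1 : UPoly (fun a => N a - 1) := UPoly.of_le (Poly.sub hN.toPoly (Poly.const 1)) hN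
    fun a => Nat.sub_le _ _
  have u4 : UPoly (fun a => N a - 2) := UPoly.of_le (Poly.sub hN.toPoly (Poly.const 2)) hN
    fun a => Nat.sub_le _ _
  unfold nI
  refine Poly.ite (p := fun a => (I a).1 = 0) (Poly.decide_eq hk (Poly.const 0))
    (upoly_fact u1) ?_
  refine Poly.ite (p := fun a => (I a).1 = 1) (Poly.decide_eq hk (Poly.const 1))
    (upoly_fact u1) ?_
  exact Poly.ite (p := fun a => (I a).1 = 2) (Poly.decide_eq hk (Poly.const 2))
    (Poly.const 1) (Poly.mul (upoly_fact u4) (upoly_fact hN))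

theorem seg0_p {T a : α → ℕ} (hT : UPoly T) (ha : UPoly a) :
    Poly (fun x => (List.range (T x - (a x + 1))).map (fun s => ((0 : ℕ), T x - 1 - s))) := by
  have hf : Poly (Prod.fst : α × ℕ → α) := Poly.fst Poly.id
  refine Poly.map (F := fun x s => ((0 : ℕ), T x - 1 - s))
    (UPoly.of_le (Poly.sub hT.toPoly (Poly.succ ha.toPoly)) hT fun a => Nat.sub_le _ _).range ?_
  exact Poly.pair (Poly.const 0) (Poly.sub (Poly.sub (hT.comp hf).toPoly (Poly.const 1))
    (Poly.snd Poly.id))

theorem seg3_p {a b : α → ℕ} (ha : UPoly a) (hb : UPoly b) :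
    Poly (fun x => (List.range (b x - a x - 1)).map (fun s => ((3 : ℕ), a x + 1 + s))) := by
  have hf : Poly (Prod.fst : α × ℕ → α) := Poly.fst Poly.id
  refine Poly.map (F := fun x s => ((3 : ℕ), a x + 1 + s))
    (UPoly.of_le (Poly.sub (Poly.sub hb.toPoly ha.toPoly) (Poly.const 1)) hb
      fun x => by omega).range ?_
  exact Poly.pair (Poly.const 3) (Poly.add (Poly.succ (ha.comp hf).toPoly) (Poly.snd Poly.id))

theorem seg1_p {T b : α → ℕ} (hT : UPoly T) (hb : UPoly b) :
    Poly (fun x => (List.range (T x - b x)).map (fun s => ((1 : ℕ), b x + s))) := by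
  have hf : Poly (Prod.fst : α × ℕ → α) := Poly.fst Poly.id
  refine Poly.map (F := fun x s => ((1 : ℕ), b x + s))
    (UPoly.of_le (Poly.sub hT.toPoly hb.toPoly) hT fun a => Nat.sub_le _ _).range ?_
  exact Poly.pair (Poly.const 1) (Poly.add (hb.comp hf).toPoly (Poly.snd Poly.id))

theorem progE_p' {T a b : α → ℕ} (hT : UPoly T) (ha : UPoly a) (hb : UPoly b) :
    Poly (fun x => progE (T x) (a x, b x)) := by
  have h2 : Poly (fun x => ((2 : ℕ), a x)) := Poly.pair (Poly.const 2) ha.toPoly
  have h0 : Poly (fun x => ((0 : ℕ), b x)) := Poly.pair (Poly.const 0) hb.toPoly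
  have e1 : Poly (fun x => ((0 : ℕ), b x) :: (List.range (T x - b x)).map
      (fun s => ((1 : ℕ), b x + s))) := Poly.cons h0 (seg1_p hT hb)
  have e2 : Poly (fun x => (List.range (b x - a x - 1)).map (fun s => ((3 : ℕ), a x + 1 + s)) ++
      (((0 : ℕ), b x) :: (List.range (T x - b x)).map (fun s => ((1 : ℕ), b x + s)))) :=
    Poly.append (seg3_p ha hb) e1
  have e3 := Poly.cons h2 e2
  have e4 := Poly.append (seg0_p hT ha) e3
  exact e4

/-- the program of an edge, with bounds -/
def gE (A : LL) (e : ℕ × ℕ) : List (ℕ × ℕ) :=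
  progE (2 * A.length) (min e.1 (2 * A.length), min e.2 (2 * A.length))

theorem gE_p : Poly (fun p : LL × (ℕ × ℕ) => gE p.1 p.2) := by
  have hT : UPoly (fun p : LL × (ℕ × ℕ) => 2 * p.1.length) :=
    UPoly.mul (UPoly.const 2) (UPoly.length (Poly.fst Poly.id))
  have ha : UPoly (fun p : LL × (ℕ × ℕ) => min p.2.1 (2 * p.1.length)) :=
    upoly_min (Poly.fst (Poly.snd Poly.id)) hT
  have hb : UPoly (fun p : LL × (ℕ × ℕ) => min p.2.2 (2 * p.1.length)) :=
    upoly_min (Poly.snd (Poly.snd Poly.id)) hT
  exact (progE_p' hT ha hb).congr fun p => rfl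

theorem prog_p : Poly prog := by
  have h : Poly (fun A : LL => (edgesE A).flatMap (gE A)) :=
    Poly.flatMap (F := gE) edgesE_poly gE_p
  refine h.congr fun A => ?_
  unfold prog
  refine List.flatMap_congr fun e he => ?_
  have h1 := edgesE_lt A e he
  rw [gE, Nat.min_eq_left (by omega), Nat.min_eq_left (by omega)]

theorem wordP_p {A : α → LL} {D N : α → ℕ} (hA : Poly A) (hD : UPoly D) (hN : UPoly N) :
    Poly (fun a => wordP (D a) (N a) (prog (A a))) := by
  have hf : Poly (Prod.fst : α × (ℕ × ℕ) → α) := Poly.fst Poly.id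
  exact Poly.flatMap (F := fun a I => wI (D a) (N a) I) (Poly.reverse (prog_p.comp hA))
    (wI_p (hD.comp hf) (hN.comp hf) (Poly.snd Poly.id))

theorem fin_p {A : α → LL} (hA : Poly A) : Poly (fun a => fin (A a) (2 * (A a).length)) := by
  have hf : Poly (Prod.fst : α × ℕ → α) := Poly.fst Poly.id
  refine Poly.flatMap (F := fun a v => List.replicate (dL (A a) v) (2 * v))
    (UPoly.mul (UPoly.const 2) (UPoly.length hA)).range ?_
  exact rep_p (dL_upoly.comp (f := fun p : α × ℕ => (A p.1, p.2))
    (Poly.pair (hA.comp hf) (Poly.snd Poly.id))) (Poly.mul (Poly.const 2) (Poly.snd Poly.id))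

theorem WW_p {A : α → LL} {D N : α → ℕ} (hA : Poly A) (hD : UPoly D) (hN : UPoly N) :
    Poly (fun a => WW (A a) (D a) (N a)) := Poly.append (fin_p hA) (wordP_p hA hD hN)

theorem nP_p {A : α → LL} {N : α → ℕ} (hA : Poly A) (hN : UPoly N) :
    Poly (fun a => nP (N a) (prog (A a))) := by
  have hf : Poly (Prod.fst : α × (ℕ × ℕ) → α) := Poly.fst Poly.id
  exact poly_prod (Poly.map (F := fun a I => nI (N a) I) (prog_p.comp hA)
    (nI_p (hN.comp hf) (Poly.snd Poly.id)))

theorem kap_u {A : α → LL} (hA : Poly A) : UPoly (fun a => kap (A a)) :=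
  UPoly.add (nK_u hA) (UPoly.const 2)

theorem nE_u {A : α → LL} (hA : Poly A) : UPoly (fun a => nE (A a)) :=
  UPoly.add (UPoly.length (edgesE_poly.comp hA)) (UPoly.const 1)

theorem nR_u {A : α → LL} (hA : Poly A) : UPoly (fun a => nR (A a)) :=
  UPoly.mul (UPoly.length (prog_p.comp hA)) (UPoly.mul (UPoly.const 4) (nE_u hA))

theorem fF_p {A : α → LL} (hA : Poly A) : Poly (fun a => fF (A a)) := by
  have hf : Poly (Prod.fst : α × ℕ → α) := Poly.fst Poly.id
  refine poly_prod (Poly.map (F := fun a v => (dL (A a) v).factorial)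
    (UPoly.mul (UPoly.const 2) (UPoly.length hA)).range ?_)
  exact upoly_fact (dL_upoly.comp (f := fun p : α × ℕ => (A p.1, p.2))
    (Poly.pair (hA.comp hf) (Poly.snd Poly.id)))

/-! ### queries -/

/-- number of queries -/
def nQ (A : LL) : ℕ := (nK A + 1) * (nR A + 1)

/-- first index of a query -/
def jx (A : LL) (x : ℕ) : ℕ := min (x / (nR A + 1)) (nK A)

/-- second index of a query -/
def mx (A : LL) (x : ℕ) : ℕ := x % (nR A + 1)

/-- the query words -/
def qW (A : LL) (x : ℕ) : List ℕ := WW A (jx A x + 1) (kap A * (mx A x + 1))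

theorem nQ_u {A : α → LL} (hA : Poly A) : UPoly (fun a => nQ (A a)) :=
  UPoly.mul (UPoly.add (nK_u hA) (UPoly.const 1)) (UPoly.add (nR_u hA) (UPoly.const 1))

theorem jx_u {A : α → LL} {x : α → ℕ} (hA : Poly A) (hx : Poly x) :
    UPoly (fun a => jx (A a) (x a)) :=
  upoly_min (Poly.div hx (Poly.succ (nR_u hA).toPoly)) (nK_u hA)

theorem mx_le (A : LL) (x : ℕ) : mx A x ≤ nR A :=
  Nat.lt_succ_iff.1 (Nat.mod_lt _ (Nat.succ_pos _))

theorem mx_u {A : α → LL} {x : α → ℕ} (hA : Poly A) (hx : Poly x) :
    UPoly (fun a => mx (A a) (x a)) :=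
  UPoly.of_le (Poly.mod hx (Poly.succ (nR_u hA).toPoly)) (nR_u hA) fun a => mx_le (A a) (x a)

theorem qW_p {A : α → LL} {x : α → ℕ} (hA : Poly A) (hx : Poly x) :
    Poly (fun a => qW (A a) (x a)) :=
  WW_p hA (UPoly.add (jx_u hA hx) (UPoly.const 1))
    (UPoly.mul (kap_u hA) (UPoly.add (mx_u hA hx) (UPoly.const 1)))

/-- parity, weight and denominator of a term -/
def parV (A : LL) (x : ℕ) : ℕ := nK A + jx A x + mx A x

def wtV (A : LL) (x : ℕ) : ℕ :=
  (nK A).choose (jx A x) * (nR A + 1).choose (mx A x + 1) * (jx A x + 1) ^ nK A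

def denV (A : LL) (x : ℕ) : ℕ := nP (kap A * (mx A x + 1)) (prog A)

/-- the final computation -/
def psV (c : LL × List ℕ) : ℕ :=
  bif sqB c.1 then
    (bif degB c.1 then
      (bif decide (c.1.length = 0) then 1
        else absAlt (nQ c.1) (parV c.1) (wtV c.1) (denV c.1) (fun x => c.2.getD x 0)
          (fF c.1 * (nK c.1).factorial))
    else 0)
  else 0

theorem pow_p {b n : α → ℕ} (hb : Poly b) (hn : UPoly n) : Poly (fun a => b a ^ n a) := by
  have h := poly_prod (rep_p hn hb)
  refine h.congr fun a => ?_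
  rw [List.prod_replicate]

theorem psV_p : Poly psV := by
  have hA : Poly (fun c : LL × List ℕ => c.1) := Poly.fst Poly.id
  have hl : Poly (fun c : LL × List ℕ => c.1.length) := Poly.length hA
  have hA2 : Poly (fun p : (LL × List ℕ) × ℕ => p.1.1) := Poly.fst (Poly.fst Poly.id)
  have hx : Poly (fun p : (LL × List ℕ) × ℕ => p.2) := Poly.snd Poly.id
  have hj := jx_u hA2 hx
  have hm := mx_u hA2 hx
  have h1 : Poly (fun p : (LL × List ℕ) × ℕ => parV p.1.1 p.2) :=
    Poly.add (Poly.add (nK_u hA2).toPoly hj.toPoly) hm.toPoly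
  have h2 : Poly (fun p : (LL × List ℕ) × ℕ => wtV p.1.1 p.2) :=
    Poly.mul (Poly.mul (upoly_choose (nK_u hA2) hj (fun p => Nat.min_le_right _ _))
      (upoly_choose (UPoly.add (nR_u hA2) (UPoly.const 1)) (UPoly.add hm (UPoly.const 1))
        (fun p => Nat.succ_le_succ (mx_le p.1.1 p.2))))
      (pow_p (Poly.succ hj.toPoly) (nK_u hA2))
  have h3 : Poly (fun p : (LL × List ℕ) × ℕ => denV p.1.1 p.2) :=
    nP_p hA2 (UPoly.mul (kap_u hA2) (UPoly.add hm (UPoly.const 1)))
  have h4 : Poly (fun p : (LL × List ℕ) × ℕ => p.1.2.getD p.2 0) :=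
    Poly.getD (Poly.snd (Poly.fst Poly.id)) (Poly.snd Poly.id) (Poly.const 0)
  exact Poly.cond (sqB_poly.comp hA) (Poly.cond (degB_poly.comp hA)
    (Poly.cond (Poly.decide_eq hl (Poly.const 0)) (Poly.const 1)
      (absAlt_p (par := fun (c : LL × List ℕ) => parV c.1) (wt := fun (c : LL × List ℕ) => wtV c.1)
        (den := fun (c : LL × List ℕ) => denV c.1) (ans := fun (c : LL × List ℕ) x => c.2.getD x 0)
        (nQ_u hA) h1 h2 h3 h4 (Poly.mul (fF_p hA) (upoly_fact (nK_u hA))))) (Poly.const 0))
    (Poly.const 0)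

theorem psV_correct (A : LL) :
    psV (A, ((List.range (nQ A)).map (qW A)).map val) = F A := by
  unfold psV
  simp only
  cases hs : sqB A with
  | false =>
    rw [cond_false]
    have : ¬ ∀ r ∈ A, r.length = A.length := by
      intro h
      rw [sqB, Bool.eq_false_iff] at hs
      apply hs
      rw [List.all_eq_true]
      intro r hr
      simp [h r hr]
    rw [F, if_neg this]
  | true =>
    have hsq : ∀ r ∈ A, r.length = A.length := by
      intro r hr
      rw [sqB, List.all_eq_true] at hs
      simpa using hs r hr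
    rw [cond_true]
    cases hd : degB A with
    | false =>
      rw [cond_false]
      rw [degB, List.all_eq_false] at hd
      obtain ⟨j, hj, hj2⟩ := hd
      rw [List.mem_range] at hj
      simp only [decide_eq_true_eq, not_lt, Nat.le_zero] at hj2
      exact (F_zero A hsq j hj hj2).symm
    | true =>
      rw [cond_true]
      have hdeg : ∀ j < A.length, 1 ≤ degL A j := by
        intro j hj
        rw [degB, List.all_eq_true] at hd
        have := hd j (List.mem_range.2 hj)
        simp only [decide_eq_true_eq] at this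
        exact this
      by_cases h0 : A.length = 0
      · rw [show decide (A.length = 0) = true from decide_eq_true h0, cond_true]
        have : A = [] := List.length_eq_zero_iff.1 h0
        rw [this, F_nil]
      · rw [show decide (A.length = 0) = false from decide_eq_false h0, cond_false]
        have hid := Pool.Agent.TH837.UI.reduction A hsq hdeg
        rw [absAlt_congr (ans' := fun x => val (qW A x))]
        · have hfac : 0 < fF A := by
            rw [fF]
            apply Nat.pos_of_ne_zero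
            intro h
            rw [List.prod_eq_zero_iff, List.mem_map] at h
            obtain ⟨I, _, hI⟩ := h
            exact (Nat.factorial_ne_zero _) hI
          refine absAlt_eq _ _ _ _ _ _ _ (fun x _ => nP_pos _ _)
            (Nat.mul_pos hfac (Nat.factorial_pos _))
            (sgw (fin A (2 * A.length)) * sE (edgesE A) * (-1) ^ ((edgesE A).length + A.length)) ?_ ?_
          · have e1 := sgw_sq (fin A (2 * A.length))
            have e2 : sE (edgesE A) * sE (edgesE A) = 1 := by
              rw [sE]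
              generalize edgesE A = L
              induction L with
              | nil => simp
              | cons e L ih =>
                rw [List.map_cons, List.prod_cons]
                have h3 := sg_sq (2 * e.1 + 1)
                have h4 : ∀ a b : ℚ, a * a = 1 → b * b = 1 → -a * b * (-a * b) = 1 := by
                  intro a b ha hb
                  have : -a * b * (-a * b) = (a * a) * (b * b) := by ring
                  rw [this, ha, hb, one_mul]
                exact h4 _ _ h3 ih
            have e3 := neg_sq ((edgesE A).length + A.length)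
            generalize sgw (fin A (2 * A.length)) = a at *
            generalize sE (edgesE A) = b at *
            generalize ((-1 : ℚ) ^ ((edgesE A).length + A.length)) = c at *
            have : a * b * c * (a * b * c) = (a * a) * (b * b) * (c * c) := by ring
            rw [this, e1, e2, e3]
            norm_num
          · push_cast
            rw [← hid]
            rw [← sum_range_mul (nK A + 1) (nR A + 1) (Nat.succ_pos _) (fun j m =>
              (-1 : ℚ) ^ (nK A + j + m) * (((nK A).choose j : ℚ) *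
                ((nR A + 1).choose (m + 1) : ℚ) * ((j : ℚ) + 1) ^ nK A * tmV A (j + 1) m))]
            refine Finset.sum_congr rfl fun x hx => ?_
            rw [Finset.mem_range] at hx
            have hj : jx A x = x / (nR A + 1) := by
              unfold jx
              refine Nat.min_eq_left ?_
              have : x / (nR A + 1) < nK A + 1 := Nat.div_lt_of_lt_mul (by rwa [mul_comm])
              omega
            have hm : mx A x = x % (nR A + 1) := rfl
            rw [parV, wtV, denV, qW, hj, hm, tmV]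
            push_cast
            ring
        · intro x hx
          rw [List.map_map, List.getD_eq_getElem _ _ (by simpa using hx), List.getElem_map,
            List.getElem_range]
          rfl

/-- words over letters below twice the length of the first component -/
def okW (c : List Bool × List ℕ) : Prop := ∀ a ∈ c.2, a < 2 * c.1.length

/-- the padding -/
def padV (A : LL) : List Bool := List.replicate (2 * A.length + 2) true

theorem wI_lt (D N : ℕ) (I : ℕ × ℕ) (T : ℕ) (h : I.2 + 1 ≤ T) : ∀ a ∈ wI D N I, a ≤ 2 * T := by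
  intro a ha
  unfold wI at ha
  split_ifs at ha <;> simp only [List.mem_append, List.mem_replicate, List.mem_singleton] at ha <;>
    omega

theorem prog_lt (A : LL) : ∀ I ∈ prog A, I.2 + 1 ≤ 2 * A.length + 1 := by
  intro I hI
  rw [prog, List.mem_flatMap] at hI
  obtain ⟨e, he, hI⟩ := hI
  have h1 := edgesE_lt A e he
  rw [progE] at hI
  simp only [List.mem_append, List.mem_cons, List.mem_map, List.mem_range] at hI
  rcases hI with ⟨s, hs, rfl⟩ | rfl | ⟨s, hs, rfl⟩ | rfl | ⟨s, hs, rfl⟩ <;> simp only <;> omega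

theorem okW_WW (A : LL) (D N : ℕ) : okW (padV A, WW A D N) := by
  intro a ha
  simp only [padV, List.length_replicate]
  simp only [WW, List.mem_append] at ha
  rcases ha with ha | ha
  · rw [fin, List.mem_flatMap] at ha
    obtain ⟨v, hv, ha⟩ := ha
    rw [List.mem_range] at hv
    rw [List.mem_replicate] at ha
    omega
  · rw [wordP, List.mem_flatMap] at ha
    obtain ⟨I, hI, ha⟩ := ha
    have h2 := prog_lt A I (by simpa using hI)
    have h3 := wI_lt D N I _ h2 a ha
    omega

/-- the 0-1 permanent reduces to the values of words -/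
theorem nred_V : NRed (fun _ : LL => True) F okW (fun c => val c.2) := by
  refine ⟨fun A => (List.range (nQ A)).map (fun x => (padV A, qW A x)), psV, ?_, psV_p, ?_⟩
  · have hf : Poly (Prod.fst : LL × ℕ → LL) := Poly.fst Poly.id
    refine Poly.map (F := fun (A : LL) x => (padV A, qW A x)) (nQ_u Poly.id).range ?_
    refine Poly.pair ?_ (qW_p hf (Poly.snd Poly.id))
    exact rep_p (c := fun _ => true) (UPoly.add (UPoly.mul (UPoly.const 2) (UPoly.length hf)) (UPoly.const 2))
      (Poly.const true)
  · intro A _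
    refine ⟨?_, ?_⟩
    · intro c hc
      rw [List.mem_map] at hc
      obtain ⟨x, _, rfl⟩ := hc
      exact okW_WW _ _ _
    · rw [← psV_correct A]
      congr 2
      rw [List.map_map, List.map_map]
      rfl

end Pool.Agent.NPC.TH837UI
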