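import Pool.Agent.TH837.UI.Match
import Pool.Agent.TH837.UI.Blob
import Pool.Agent.TH837.UI.Lines
import Pool.Agent.TH837.UI.RedV

/-!
# From the values of words to perfect matchings of unit interval graphs
-/

namespace Pool.Agent.TH837.UI

open MvPolynomial Finset
open Pool.Agent.H618R2.Skew (MP)
open Pool.Agent.H549R2.PM (pm intervalGraph)

theorem blob_id (L : ℕ) (w : List ℕ) (hw : ∀ a ∈ w, a < 2 * L) :
    ∑ i ∈ range (L * w.length + 1), (-1 : ℚ) ^ i * (((((L * w.length).choose i *
      odf (L * w.length + 1) : ℕ)) : ℚ) * ((pm (model (w ++ blobs L (2 * i))) : ℚ) /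
        (((2 * i + 1) * odf i ^ L : ℕ) : ℚ))) =
      sgw w * (((2 ^ (L * w.length) * (L * w.length).factorial : ℕ) : ℚ) * (val w : ℚ)) := by
  obtain ⟨P, hP1, hP2⟩ := Vn_poly w.length L w
  set R := L * w.length with hR
  have h1 := lagr' P R hP1
  have h2 : P.eval (-1) = sgw w * val w := by
    have := hP2 (-1)
    push_cast at this
    rw [← this, Vn, cc_wordA_E w.length L w hw (by omega), cc_wordB, cc_wordY]
  rw [h2] at h1
  push_cast
  have h3 : sgw w * (2 ^ R * (R.factorial : ℚ) * (val w : ℚ)) =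
      2 ^ R * (R.factorial : ℚ) * (sgw w * (val w : ℚ)) := by ring
  rw [h3, h1]
  refine Finset.sum_congr rfl fun i hi => ?_
  have h4 : (pm (model (w ++ blobs L (2 * i))) : ℚ) = (odf i : ℚ) ^ L * P.eval (2 * (i : ℚ)) := by
    rw [pm_model, cc_blobs w.length i L w (by omega), hP2]
    push_cast
    rfl
  have h5 : (odf i : ℚ) ≠ 0 := by
    have : odf i ≠ 0 := by
      rw [odf, Finset.prod_ne_zero_iff]
      intro j _
      omega
    exact_mod_cast this
  have h6 : ((odf (R + 1) : ℕ) : ℚ) = (2 * (i : ℚ) + 1) *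
      ∏ j ∈ (range (R + 1)).erase i, (2 * (j : ℚ) + 1) := by
    rw [odf]
    push_cast
    exact (Finset.mul_prod_erase _ (fun j : ℕ => (2 * (j : ℚ) + 1)) hi).symm
  rw [h4, h6]
  have h7 : (2 * (i : ℚ) + 1) ≠ 0 := by positivity
  field_simp

end Pool.Agent.TH837.UI

namespace Pool.Agent.NPC.TH837UI

open Pool.Agent.TH837.UI Pool.Agent.NPC.Cnt
open Pool.Agent.NPC.H549Convex (LL poly_prod upoly_fact upoly_choose)
open Pool.Agent.NPC.H549PM (upoly_min upoly_pow2)
open Pool.Agent.NPC.H549NRed (NRed)
open Pool.Agent.H549R2.PM (pm intervalGraph)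

variable {α : Type} [TEnc α]

theorem odf_p {n : α → ℕ} (hn : UPoly n) : Poly (fun a => odf (n a)) := by
  have h := poly_prod (Poly.map (F := fun (_ : α) j => 2 * j + 1) hn.range
    (Poly.succ (Poly.mul (Poly.const 2) (Poly.snd Poly.id))))
  refine h.congr fun a => ?_
  rw [odf]
  generalize n a = m
  induction m with
  | zero => simp
  | succ m ih =>
    rw [List.range_succ, List.map_append, List.prod_append, Finset.prod_range_succ, ih]
    simp

theorem blobs_p {L N : α → ℕ} (hL : UPoly L) (hN : UPoly N) :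
    Poly (fun a => blobs (L a) (N a)) := by
  have hf : Poly (Prod.fst : α × ℕ → α) := Poly.fst Poly.id
  exact Poly.flatMap (F := fun a m => List.replicate (N a) (2 * m)) hL.range
    (rep_p (hN.comp hf) (Poly.mul (Poly.const 2) (Poly.snd Poly.id)))

theorem model_p {w : α → List ℕ} (hw : Poly w) : Poly (fun a => model (w a)) := by
  have hf : Poly (Prod.fst : α × (ℕ × ℕ) → α) := Poly.fst Poly.id
  have hx : Poly (fun p : α × (ℕ × ℕ) => ((w p.1).length + 1) * p.2.1 + p.2.2) :=
    Poly.add (Poly.mul (Poly.succ (Poly.length (hw.comp hf))) (Poly.fst (Poly.snd Poly.id)))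
      (Poly.snd (Poly.snd Poly.id))
  have h : Poly (fun a => (w a).zipIdx.map (fun q =>
      (((w a).length + 1) * q.1 + q.2, ((w a).length + 1) * q.1 + q.2 + (w a).length))) :=
    Poly.map (F := fun a (q : ℕ × ℕ) =>
      (((w a).length + 1) * q.1 + q.2, ((w a).length + 1) * q.1 + q.2 + (w a).length))
      (Poly.zipIdx hw) (Poly.pair hx (Poly.add hx (Poly.length (hw.comp hf))))
  refine h.congr fun a => ?_
  rw [model, List.mapIdx_eq_zipIdx_map]

/-- the degree bound -/
def rB (c : List Bool × List ℕ) : ℕ := c.1.length * c.2.length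

theorem rB_u {c : α → List Bool × List ℕ} (hc : Poly c) : UPoly (fun a => rB (c a)) :=
  UPoly.mul (UPoly.length (Poly.fst hc)) (UPoly.length (Poly.snd hc))

/-- the index of a query, with a bound -/
def ixB (c : List Bool × List ℕ) (x : ℕ) : ℕ := min x (rB c)

theorem ixB_u {c : α → List Bool × List ℕ} {x : α → ℕ} (hc : Poly c) (hx : Poly x) :
    UPoly (fun a => ixB (c a) (x a)) := upoly_min hx (rB_u hc)

/-- the query -/
def qB (c : List Bool × List ℕ) (x : ℕ) : List (ℕ × ℕ) :=
  model (c.2 ++ blobs c.1.length (2 * ixB c x))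

theorem qB_p {c : α → List Bool × List ℕ} {x : α → ℕ} (hc : Poly c) (hx : Poly x) :
    Poly (fun a => qB (c a) (x a)) :=
  model_p (Poly.append (Poly.snd hc) (blobs_p (UPoly.length (Poly.fst hc))
    (UPoly.mul (UPoly.const 2) (ixB_u hc hx))))

def wtB (c : List Bool × List ℕ) (x : ℕ) : ℕ := (rB c).choose (ixB c x) * odf (rB c + 1)

def denB (c : List Bool × List ℕ) (x : ℕ) : ℕ := (2 * ixB c x + 1) * odf (ixB c x) ^ c.1.length

/-- the final computation -/
def psB (p : (List Bool × List ℕ) × List ℕ) : ℕ :=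
  absAlt (rB p.1 + 1) (fun x => x) (wtB p.1) (denB p.1) (fun x => p.2.getD x 0)
    (2 ^ rB p.1 * (rB p.1).factorial)

theorem psB_p : Poly psB := by
  have hc : Poly (fun p : (List Bool × List ℕ) × List ℕ => p.1) := Poly.fst Poly.id
  have hc2 : Poly (fun p : ((List Bool × List ℕ) × List ℕ) × ℕ => p.1.1) :=
    Poly.fst (Poly.fst Poly.id)
  have hx : Poly (fun p : ((List Bool × List ℕ) × List ℕ) × ℕ => p.2) := Poly.snd Poly.id
  have hi := ixB_u hc2 hx
  have h2 : Poly (fun p : ((List Bool × List ℕ) × List ℕ) × ℕ => wtB p.1.1 p.2) :=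
    Poly.mul (upoly_choose (rB_u hc2) hi (fun p => Nat.min_le_right _ _))
      (odf_p (UPoly.add (rB_u hc2) (UPoly.const 1)))
  have h3 : Poly (fun p : ((List Bool × List ℕ) × List ℕ) × ℕ => denB p.1.1 p.2) :=
    Poly.mul (Poly.succ (Poly.mul (Poly.const 2) hi.toPoly))
      (pow_p (odf_p hi) (UPoly.length (Poly.fst hc2)))
  have h4 : Poly (fun p : ((List Bool × List ℕ) × List ℕ) × ℕ => p.1.2.getD p.2 0) :=
    Poly.getD (Poly.snd (Poly.fst Poly.id)) (Poly.snd Poly.id) (Poly.const 0)
  exact absAlt_p (par := fun (_ : (List Bool × List ℕ) × List ℕ) x => x)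
    (wt := fun p => wtB p.1) (den := fun p => denB p.1) (ans := fun p x => p.2.getD x 0)
    (UPoly.add (rB_u hc) (UPoly.const 1)) (Poly.snd Poly.id) h2 h3 h4
    (Poly.mul (upoly_pow2 (rB_u hc)) (upoly_fact (rB_u hc)))

/-- The intervals all have the same positive length. -/
def UnitLen (l : List (ℕ × ℕ)) : Prop := ∃ d, 0 < d ∧ ∀ p ∈ l, p.2 = p.1 + d

theorem unitLen_model (w : List ℕ) : UnitLen (model w) := by
  cases w with
  | nil => exact ⟨1, Nat.one_pos, by simp [model]⟩
  | cons a w =>
    refine ⟨(a :: w).length, by simp, ?_⟩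
    intro p hp
    rw [model, List.mem_mapIdx] at hp
    obtain ⟨i, hi, rfl⟩ := hp
    rfl

/-- the values of words reduce to the perfect matchings of unit interval graphs -/
theorem nred_B : NRed okW (fun c => val c.2) UnitLen pm := by
  refine ⟨fun c => (List.range (rB c + 1)).map (qB c), psB, ?_, psB_p, ?_⟩
  · refine Poly.map (F := fun c x => qB c x) (UPoly.add (rB_u Poly.id) (UPoly.const 1)).range ?_
    exact qB_p (Poly.fst Poly.id) (Poly.snd Poly.id)
  · intro c hc
    constructor
    · intro b hb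
      rw [List.mem_map] at hb
      obtain ⟨x, _, rfl⟩ := hb
      exact unitLen_model _
    · unfold psB
      simp only
      have hix : ∀ x < rB c + 1, ixB c x = x := fun x hx => Nat.min_eq_left (by omega)
      rw [absAlt_congr (ans' := fun x => pm (qB c x))]
      · refine absAlt_eq _ _ _ _ _ _ _ (fun x _ => ?_) (by positivity) (sgw c.2) (sgw_sq _) ?_
        · rw [denB]
          have : 0 < odf (ixB c x) := Finset.prod_pos fun j _ => by omega
          positivity
        · have h := blob_id c.1.length c.2 hc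
          refine Eq.trans ?_ h
          refine Finset.sum_congr rfl fun x hx => ?_
          rw [Finset.mem_range] at hx
          rw [wtB, denB, qB, hix x hx]
          rfl
      · intro x hx
        rw [List.map_map, List.getD_eq_getElem _ _ (by simpa using hx), List.getElem_map,
          List.getElem_range]
        rfl

theorem nred_unit : NRed (fun _ : CNF ℕ => True) (fun φ => satCount φ) UnitLen pm :=
  (Pool.Agent.NPC.H549NRed.nred_sat.comp nred_V).comp nred_B

end Pool.Agent.NPC.TH837UI
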