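import Pool.Agent.TH837.UI.Prog
import Pool.Agent.H618R2.Skew.T7

/-!
# The value at `0`
-/

namespace Pool.Agent.TH837.UI

open MvPolynomial Finset
open Pool.Agent.H618R2.Skew Pool.Agent.H549R2.Convex
open Pool.Agent.H618R2.Skew.T2 (PD Dle)

/-- the lines of the wires, if line `p` is free -/
def shf (p w : ℕ) : ℕ := if w < p then w else w + 1

theorem shf_inj (p : ℕ) : Function.Injective (shf p) := by
  intro a b h
  unfold shf at h
  split_ifs at h <;> omega

theorem shf_ne (p w : ℕ) : shf p w ≠ p := by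
  unfold shf
  split_ifs <;> omega

theorem shf_lt {p w : ℕ} (h : w < p) : shf p w = w := if_pos h

theorem shf_ge {p w : ℕ} (h : p ≤ w) : shf p w = w + 1 := if_neg (by omega)

/-- the polynomial of the wires, if line `p` is free -/
noncomputable def rn (p : ℕ) : MP →ₐ[ℚ] MP := rename (shf p)

/-- the state `P + Z Q` with the messenger `Z` on line `p` -/
noncomputable def em (p : ℕ) (s : MP × MP) : MP := rn p s.1 + X p * rn p s.2

theorem rn_X (p w : ℕ) : rn p (X w) = X (shf p w) := by rw [rn, rename_X]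

theorem pderiv_rn_self (p : ℕ) (f : MP) : pderiv p (rn p f) = 0 := by
  induction f using MvPolynomial.induction_on with
  | C c => simp [rn]
  | add p q hp hq => rw [map_add, map_add, hp, hq, add_zero]
  | mul_X f i hp =>
    rw [map_mul, Derivation.leibniz, hp, rn_X, pderiv_X_of_ne (shf_ne p i)]
    simp

theorem pderiv_rn_succ (p : ℕ) (f : MP) : pderiv (p + 1) (rn p f) = rn p (pderiv p f) := by
  have h : shf p p = p + 1 := by rw [shf, if_neg (lt_irrefl p)]
  have := pderiv_rename (R := ℚ) (shf_inj p) p f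
  rw [h] at this
  exact this

theorem sub_rn_self (p : ℕ) (f : MP) : sub p (p + 1) (rn p f) = rn p f := by
  have h : (sub p (p + 1)).comp (rn p) = rn p := by
    apply MvPolynomial.algHom_ext
    intro i
    rw [AlgHom.comp_apply, rn_X, sub_X, if_neg (shf_ne p i)]
  exact congrArg (fun φ : MP →ₐ[ℚ] MP => φ f) h

theorem sub_rn_right (p : ℕ) (f : MP) : sub (p + 1) p (rn p f) = rn (p + 1) f := by
  have h : (sub (p + 1) p).comp (rn p) = rn (p + 1) := by
    apply MvPolynomial.algHom_ext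
    intro i
    rw [AlgHom.comp_apply, rn_X, sub_X, rn_X]
    unfold shf
    by_cases h1 : i < p
    · rw [if_pos h1, if_neg (by omega), if_pos (by omega)]
    · rw [if_neg h1]
      by_cases h2 : i = p
      · subst h2
        rw [if_pos rfl, if_pos (by omega)]
      · rw [if_neg (by omega), if_neg (by omega)]
  exact congrArg (fun φ : MP →ₐ[ℚ] MP => φ f) h

theorem sub_rn_left (p : ℕ) (f : MP) : sub p (p + 1) (rn (p + 1) f) = rn p f := by
  have h : (sub p (p + 1)).comp (rn (p + 1)) = rn p := by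
    apply MvPolynomial.algHom_ext
    intro i
    rw [AlgHom.comp_apply, rn_X, sub_X, rn_X]
    rcases Nat.lt_trichotomy i p with h1 | h1 | h1
    · rw [shf_lt (show i < p + 1 by omega), shf_lt h1, if_neg (by omega)]
    · subst h1
      rw [shf_lt (Nat.lt_succ_self i), shf_ge le_rfl, if_pos rfl]
    · rw [shf_ge (show p + 1 ≤ i by omega), shf_ge h1.le, if_neg (by omega)]
  exact congrArg (fun φ : MP →ₐ[ℚ] MP => φ f) h

/-! ### the gates at `0` -/

theorem Tk0 (a b : ℕ) (f : MP) : Tk a b 0 f = sub a b f := by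
  rw [Tk, dd_zero]; simp

theorem Tk1 (a b : ℕ) (f : MP) : Tk a b 1 f = sub a b (pderiv a f) * hh a b := by
  rw [Tk, dd_succ, dd_zero]; simp

theorem qS_zero (k : ℕ) : qS 0 k = if k = 0 then 1 else 0 := by
  rw [qS, ris]
  by_cases h : k = 0
  · subst h; simp
  · rw [if_neg h, Finset.prod_eq_zero (i := 0)]
    · simp
    · rw [mem_range]; omega
    · simp

theorem qC_zero (D k : ℕ) : qC D 0 k = if k = 0 then 1 else if k = 1 then -(D : ℚ)⁻¹ else 0 := by
  rw [qC]
  by_cases h : k = 0
  · subst h; simp [ris]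
  · rw [if_neg h]
    by_cases h1 : k = 1
    · subst h1
      simp [ris]
      ring
    · rw [if_neg h1]
      have : ris (((0 : ℤ) : ℚ) - 1) k = 0 := by
        rw [ris, Finset.prod_eq_zero (i := 1)]
        · rw [mem_range]; omega
        · simp
      rw [this]
      simp

theorem gop_zero (E a b : ℕ) (f : MP) : gop E a b (qS 0) f = sub a b f := by
  rw [gop, Finset.sum_eq_single 0]
  · rw [qS_zero, if_pos rfl, C_1, one_mul, Tk0]
  · intro k _ hk
    rw [qS_zero, if_neg hk]
    simp
  · intro h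
    exact absurd (mem_range.2 (Nat.succ_pos E)) h

theorem gopC_zero (E D a b : ℕ) (hE : 1 ≤ E) (f : MP) :
    gop E a b (qC D 0) f = sub a b f - C ((D : ℚ)⁻¹) * (sub a b (pderiv a f) * hh a b) := by
  obtain ⟨e, rfl⟩ : ∃ e, E = e + 1 := ⟨E - 1, by omega⟩
  rw [gop, Finset.sum_range_succ', Finset.sum_range_succ', Finset.sum_eq_zero]
  · rw [qC_zero, qC_zero, if_pos rfl, if_neg (by omega), if_pos (by omega), Tk0, zero_add, Tk1,
      C_1, C_neg]
    ring
  · intro k _
    rw [qC_zero, if_neg (by omega), if_neg (by omega)]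
    simp

theorem qS_D0 (D : ℕ) : qS D 0 = 1 := by simp [qS, ris]

theorem qS_D1 (D : ℕ) : qS D 1 = D := by simp [qS, ris]

theorem gopS_em (E D p : ℕ) (hE : 1 ≤ E) (s : MP × MP) :
    gop E p (p + 1) (qS D) (em p s) =
      rn p s.1 + X (p + 1) * rn p s.2 + C (D : ℚ) * (rn p s.2 * hh p (p + 1)) := by
  have h1 : pderiv p (em p s) = rn p s.2 := by
    rw [em, map_add, Derivation.leibniz, pderiv_rn_self, pderiv_rn_self, pderiv_X_self]
    simp
  have h0 : sub p (p + 1) (em p s) = rn p s.1 + X (p + 1) * rn p s.2 := by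
    rw [em, map_add, map_mul, sub_rn_self, sub_rn_self, sub_X, if_pos rfl]
  obtain ⟨e, rfl⟩ : ∃ e, E = e + 1 := ⟨E - 1, by omega⟩
  rw [gop, Finset.sum_range_succ', Finset.sum_range_succ', Finset.sum_eq_zero]
  · rw [zero_add, Tk0, Tk1, qS_D0, qS_D1, h0, h1, sub_rn_self, C_1]
    ring
  · intro k _
    have : Tk p (p + 1) (k + 1 + 1) (em p s) = 0 := by
      have h2 : ∀ n, dd p n (0 : MP) = 0 := fun n => map_zero _
      rw [Tk, dd_succ, h1, dd_succ, pderiv_rn_self, h2]
      simp
    rw [this, mul_zero]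

theorem cross_zero (E D p : ℕ) (hE : 1 ≤ E) (hD : 1 ≤ D) (s : MP × MP) :
    oI E D 0 (3, p) (em p s) = C ((D : ℚ)⁻¹) * em (p + 1) (stepB D (p, false, false) s) := by
  obtain ⟨P, Q⟩ := s
  have hDinv : (C ((D : ℚ)⁻¹) : MP) * C (D : ℚ) = 1 := by
    rw [← C_mul, inv_mul_cancel₀ (by positivity), C_1]
  have e0 : oI E D 0 (3, p) (em p (P, Q)) =
      gop E (p + 1) p (qC D 0) (gop E p (p + 1) (qS D) (em p (P, Q))) := by
    rw [oI]
    simp
  have e1 : hh p (p + 1) = X p - X (p + 1) := rfl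
  have e2 : hh (p + 1) p = X (p + 1) - X p := rfl
  have e3 : shf (p + 1) p = p := by rw [shf, if_pos (Nat.lt_succ_self p)]
  rw [e0, gopS_em E D p hE, gopC_zero E D _ _ hE]
  simp only [stepB, em, e1, e2]
  simp only [map_add, map_mul, map_sub, Derivation.leibniz, smul_eq_mul, pderiv_rn_succ,
    sub_rn_right, sub_X, pderiv_X_self, pderiv_C, pderiv_X_of_ne (show p ≠ p + 1 by omega),
    if_true, if_neg (show ¬ p = p + 1 by omega), map_zero, map_one, rn_X, e3,
    Bool.false_eq_true, if_false]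
  have e4 : sub (p + 1) p (C (D : ℚ)) = C (D : ℚ) := by rw [sub, aeval_C]; rfl
  have e5 : rn (p + 1) (C (D : ℚ)) = C (D : ℚ) := by rw [rn, rename_C]
  rw [e4, e5]
  linear_combination ((X (p + 1) - X p) * rn (p + 1) Q) * hDinv -
    (rn (p + 1) P + X (p + 1) * rn (p + 1) Q) * hDinv

end Pool.Agent.TH837.UI
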